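import Pool.Agent.H83.LS.Basic
import Pool.Agent.H83.LS.Targets3

/-!
Facts on the cutoffs `eta0`, `chi`, `chis` and bounds of `kp` (local smoothing, helper83).
-/

set_option autoImplicit false

namespace Pool.Agent.H83.LS.H27

open MeasureTheory Set
open scoped ENNReal NNReal

lemma contDiff_eta0 : ContDiff ℝ (⊤ : ℕ∞) eta0 := by
  unfold eta0
  exact Real.smoothTransition.contDiff.comp (contDiff_const.sub contDiff_id)

lemma eta0_one {s : ℝ} (h : s ≤ 1) : eta0 s = 1 := by
  unfold eta0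
  exact Real.smoothTransition.one_of_one_le (by linarith)

lemma eta0_zero {s : ℝ} (h : 2 ≤ s) : eta0 s = 0 := by
  unfold eta0
  exact Real.smoothTransition.zero_of_nonpos (by linarith)

lemma eta0_nonneg (s : ℝ) : 0 ≤ eta0 s := Real.smoothTransition.nonneg _

lemma eta0_le_one (s : ℝ) : eta0 s ≤ 1 := Real.smoothTransition.le_one _

lemma contDiff_chi : ContDiff ℝ (⊤ : ℕ∞) chi := by
  unfold chi
  exact contDiff_eta0.sub (contDiff_eta0.comp (contDiff_const.mul contDiff_id))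

lemma contDiff_chis : ContDiff ℝ (⊤ : ℕ∞) chis := by
  unfold chis
  exact (contDiff_eta0.comp (contDiff_id.div_const 2)).sub
    (contDiff_eta0.comp (contDiff_const.mul contDiff_id))

lemma chi_supp {s : ℝ} (h : chi s ≠ 0) : 1 / 2 < s ∧ s < 2 := by
  unfold chi at h
  constructor
  · by_contra h1
    push Not at h1
    rw [eta0_one (by linarith), eta0_one (by linarith)] at h
    simp at h
  · by_contra h1
    push Not at h1
    rw [eta0_zero (by linarith), eta0_zero (by linarith)] at h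
    simp at h

lemma chis_supp {s : ℝ} (h : chis s ≠ 0) : 1 / 4 < s ∧ s < 4 := by
  unfold chis at h
  constructor
  · by_contra h1
    push Not at h1
    rw [eta0_one (by linarith), eta0_one (by linarith)] at h
    simp at h
  · by_contra h1
    push Not at h1
    rw [eta0_zero (by linarith), eta0_zero (by linarith)] at h
    simp at h

lemma chis_one {s : ℝ} (h1 : 1 / 2 ≤ s) (h2 : s ≤ 2) : chis s = 1 := by
  unfold chis
  rw [eta0_one (by linarith), eta0_zero (by linarith)]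
  simp

lemma chis_sq_mul_chi (s : ℝ) : chis s * chis s * chi s = chi s := by
  by_cases h : chi s = 0
  · rw [h, mul_zero]
  · have h1 := chi_supp h
    rw [chis_one h1.1.le h1.2.le]
    ring

lemma abs_chi_le (s : ℝ) : |chi s| ≤ 1 := by
  unfold chi
  have h1 := eta0_nonneg s
  have h2 := eta0_le_one s
  have h3 := eta0_nonneg (2 * s)
  have h4 := eta0_le_one (2 * s)
  rw [abs_le]
  constructor <;> linarith

lemma abs_chis_le (s : ℝ) : |chis s| ≤ 1 := by
  unfold chis
  have h1 := eta0_nonneg (s / 2)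
  have h2 := eta0_le_one (s / 2)
  have h3 := eta0_nonneg (4 * s)
  have h4 := eta0_le_one (4 * s)
  rw [abs_le]
  constructor <;> linarith

lemma continuous_chi : Continuous chi := contDiff_chi.continuous

lemma continuous_chis : Continuous chis := contDiff_chis.continuous

lemma CB_of (M : ℕ) (χ : ℝ → ℝ) (h1 : ContDiff ℝ (⊤ : ℕ∞) χ)
    (h2 : ∀ s, χ s ≠ 0 → 1 / 8 ≤ s ∧ s ≤ 8) :
    ∃ B : ℝ, 0 ≤ B ∧ CB M B (fun σ => ((χ σ : ℝ) : ℂ)) := by
  have hc : ContDiff ℝ (⊤ : ℕ∞) (fun σ => ((χ σ : ℝ) : ℂ)) := Complex.ofRealCLM.contDiff.comp h1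
  have hs : HasCompactSupport (fun σ => ((χ σ : ℝ) : ℂ)) := by
    apply HasCompactSupport.intro (isCompact_Icc : IsCompact (Icc (1 / 8 : ℝ) 8))
    intro s hs
    by_contra h
    apply hs
    have : χ s ≠ 0 := fun h' => h (by rw [h']; simp)
    exact h2 s this
  have h3 : ∀ k : ℕ, ∃ B : ℝ, ∀ σ, ‖iteratedDeriv k (fun σ => ((χ σ : ℝ) : ℂ)) σ‖ ≤ B := by
    intro k
    have hk : Continuous (iteratedDeriv k (fun σ => ((χ σ : ℝ) : ℂ))) :=
      hc.continuous_iteratedDeriv k (by exact_mod_cast le_top)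
    have hk2 : HasCompactSupport (iteratedDeriv k (fun σ => ((χ σ : ℝ) : ℂ))) := by
      have := hs.iteratedFDeriv (𝕜 := ℝ) k
      have h5 : iteratedDeriv k (fun σ => ((χ σ : ℝ) : ℂ)) =
          (fun L : (ContinuousMultilinearMap ℝ (fun _ : Fin k => ℝ) ℂ) => L (fun _ => 1)) ∘
          (iteratedFDeriv ℝ k (fun σ => ((χ σ : ℝ) : ℂ))) := by
        ext σ
        rw [iteratedDeriv_eq_iteratedFDeriv]; rfl
      rw [h5]
      exact this.comp_left rfl
    exact hk2.exists_bound_of_continuous hk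
  choose B hB using h3
  refine ⟨∑ k ∈ Finset.range (M + 1), |B k|, Finset.sum_nonneg (fun i _ => abs_nonneg _), hc, ?_, ?_⟩
  · intro σ h
    apply h2
    intro h'
    apply h
    simp [h']
  · intro k hk σ
    refine (hB k σ).trans ((le_abs_self _).trans ?_)
    exact Finset.single_le_sum (f := fun k => |B k|) (fun i _ => abs_nonneg _)
      (Finset.mem_range.mpr (by omega))

lemma CB_chis (M : ℕ) : ∃ B : ℝ, 0 ≤ B ∧ CB M B (fun σ => ((chis σ : ℝ) : ℂ)) :=
  CB_of M chis contDiff_chis (fun s h => ⟨by have := (chis_supp h).1; linarith,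
    by have := (chis_supp h).2; linarith⟩)

lemma CB_chi (M : ℕ) : ∃ B : ℝ, 0 ≤ B ∧ CB M B (fun σ => ((chi σ : ℝ) : ℂ)) :=
  CB_of M chi contDiff_chi (fun s h => ⟨by have := (chi_supp h).1; linarith,
    by have := (chi_supp h).2; linarith⟩)

lemma kp_bound (h : T_KAP) (m N : ℕ) (hm : 2 ≤ m) (χ : ℝ → ℝ)
    (hχ : ∀ M, ∃ B : ℝ, 0 ≤ B ∧ CB M B (fun σ => ((χ σ : ℝ) : ℂ))) :
    ∃ C : ℝ, 0 ≤ C ∧ ∀ x ρ : ℝ, 0 ≤ ρ → ‖kp m (fun σ => ((χ σ : ℝ) : ℂ)) x ρ‖ ≤
      C * (((1 + |x - ρ|) ^ N)⁻¹ + ((1 + |x + ρ|) ^ N)⁻¹) := by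
  obtain ⟨M, C, hC⟩ := h m N hm
  obtain ⟨B, hB0, hB⟩ := hχ M
  refine ⟨|C * B|, abs_nonneg _, fun x ρ hρ => (hC _ B x ρ hB hρ).trans ?_⟩
  apply mul_le_mul_of_nonneg_right (le_abs_self _)
  positivity

lemma measurable_KK (t lam Lam : ℝ) : Measurable (KK t lam Lam) := by
  have h : Measurable (fun q : (ℝ × ℝ) × (ℝ × ℝ) =>
      e (q.1.1 * q.2.1 + q.1.2 * q.2.2 + t * Real.sqrt (q.2.1 ^ 2 + q.2.2 ^ 2)) *
    ((chi (Real.sqrt (q.2.1 ^ 2 + q.2.2 ^ 2) / lam) * chis (q.2.1 / Lam) : ℝ) : ℂ)) := by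
    apply Measurable.mul
    · exact measurable_e.comp (by fun_prop)
    · apply Complex.measurable_ofReal.comp
      apply Measurable.mul
      · exact continuous_chi.measurable.comp (by fun_prop)
      · exact continuous_chis.measurable.comp (by fun_prop)
  exact (StronglyMeasurable.integral_prod_right' (ν := volume) h.stronglyMeasurable).measurable

lemma measurable_cv (K g : ℝ × ℝ → ℂ) (hK : Measurable K) (hg : Measurable g) :
    Measurable (cv K g) := by
  have h : Measurable (fun q : (ℝ × ℝ) × (ℝ × ℝ) => K (q.1 - q.2) * g q.2) := by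
    apply Measurable.mul
    · exact hK.comp (measurable_fst.sub measurable_snd)
    · exact hg.comp measurable_snd
  exact (StronglyMeasurable.integral_prod_right' (ν := volume) h.stronglyMeasurable).measurable

lemma PF.nonneg {A : ℝ} {F : ℝ × ℝ → ℂ} (h : PF A F) : 0 ≤ A :=
  (norm_nonneg _).trans (h.2.1 0)

end Pool.Agent.H83.LS.H27
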