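import Pool.Agent.H27.LS.WRED
import Pool.Agent.H27.LS.Chi

/-!
Module LOWX of the local smoothing proof (helper83): the part `|ξ'| ≤ 2`.
-/

set_option autoImplicit false

namespace Pool.Agent.H83.LS.H27

open MeasureTheory Set FourierTransform
open scoped ENNReal NNReal

/-- square of the distance to the axis -/
noncomputable def r2 {n : ℕ} (x : EE (n + 1)) : ℝ := ‖x‖ ^ 2 - (x (Fin.last n)) ^ 2

lemma r2_nonneg {n : ℕ} (x : EE (n + 1)) : 0 ≤ r2 x := by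
  unfold r2
  have h : ‖x (Fin.last n)‖ ≤ ‖x‖ := PiLp.norm_apply_le x _
  rw [Real.norm_eq_abs] at h
  nlinarith [sq_le_sq' (neg_le_of_abs_le h) (le_of_abs_le h)]

lemma hor_eq {n : ℕ} (x : EE (n + 1)) : hor x = Real.sqrt (r2 x) := rfl

lemma contDiff_last (n : ℕ) : ContDiff ℝ (⊤ : ℕ∞) (fun x : EE (n + 1) => x (Fin.last n)) :=
  (EuclideanSpace.proj (Fin.last n) : EuclideanSpace ℝ (Fin (n + 1)) →L[ℝ] ℝ).contDiff

lemma contDiff_r2 (n : ℕ) : ContDiff ℝ (⊤ : ℕ∞) (r2 : EE (n + 1) → ℝ) := by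
  unfold r2
  exact (contDiff_norm_sq ℝ).sub ((contDiff_last n).pow 2)

lemma continuous_hor (n : ℕ) : Continuous (hor : EE (n + 1) → ℝ) :=
  Real.continuous_sqrt.comp (contDiff_r2 n).continuous

lemma contDiff_eta_hor (n : ℕ) : ContDiff ℝ (⊤ : ℕ∞) (fun x : EE (n + 1) => eta0 (hor x)) := by
  rw [contDiff_iff_contDiffAt]
  intro x
  by_cases hx : hor x < 1
  · have h1 : (fun x : EE (n + 1) => eta0 (hor x)) =ᶠ[nhds x] fun _ => (1 : ℝ) := by
      filter_upwards [(continuous_hor n).continuousAt.eventually (Iio_mem_nhds hx)] with y hy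
      exact eta0_one (le_of_lt hy)
    exact contDiffAt_const.congr_of_eventuallyEq h1
  · push Not at hx
    have h1 : r2 x ≠ 0 := by
      intro h
      rw [hor_eq, h, Real.sqrt_zero] at hx
      linarith
    have h2 : ContDiffAt ℝ (⊤ : ℕ∞) (hor : EE (n + 1) → ℝ) x :=
      (contDiff_r2 n).contDiffAt.sqrt h1
    exact contDiff_eta0.contDiffAt.comp x h2

lemma integrable_wN (n : ℕ) :
    ∫⁻ x : EE (n + 1), ENNReal.ofReal (((1 + ‖x‖) ^ (n + 2))⁻¹) < ∞ := by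
  have h := integrable_one_add_norm (E := EE (n + 1)) (μ := volume) (r := (n : ℝ) + 2)
    (by rw [finrank_euclideanSpace]; simp)
  have h2 := h.lintegral_lt_top
  refine lt_of_le_of_lt (lintegral_mono (fun v => ?_)) h2
  apply ENNReal.ofReal_le_ofReal
  rw [Real.rpow_neg (by positivity)]
  apply le_of_eq
  congr 1
  norm_cast

/-- parameters -/
lemma contDiff_par (n : ℕ) (i : Fin 2) :
    ContDiff ℝ (⊤ : ℕ∞) (fun q : (Fin 2 → ℝ) × EE (n + 1) => q.1 i) :=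
  (contDiff_apply ℝ ℝ i).comp contDiff_fst

/-- small `λ` -/
lemma caseA (h : T_KBV) (n : ℕ) : ∃ C : ℝ≥0, ∀ lam t : ℝ, 1 ≤ lam → lam ≤ 16 →
    t ∈ Icc (1 : ℝ) 2 → ∫⁻ x : EE (n + 1), ‖MK (fun ξ : EE (n + 1) => e (t * ‖ξ‖) *
    ((chi (‖ξ‖ / lam) * eta0 (hor ξ) : ℝ) : ℂ)) x‖ₑ ≤ C := by
  obtain ⟨Ψ, hΨ⟩ : ∃ Ψ : (Fin 2 → ℝ) × EE (n + 1) → ℂ, Ψ = fun q =>
    e (q.1 0 * ‖q.2‖) * ((chi (‖q.2‖ * q.1 1) * eta0 (hor q.2) : ℝ) : ℂ) := ⟨_, rfl⟩
  obtain ⟨O, hO⟩ : ∃ O : Set (Fin 2 → ℝ), O = {p | 1 / 32 < p 1 ∧ p 1 < 2} := ⟨_, rfl⟩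
  have hOo : IsOpen O := by
    rw [hO]
    exact (isOpen_lt continuous_const (continuous_apply 1)).inter
      (isOpen_lt (continuous_apply 1) continuous_const)
  have hKO : Icc (![1, 1 / 16] : Fin 2 → ℝ) ![2, 1] ⊆ O := by
    intro p hp
    rw [hO]
    have h1 := hp.1 1
    have h2 := hp.2 1
    simp at h1 h2
    constructor
    · norm_num; linarith
    · linarith
  have hsm : ContDiffOn ℝ (⊤ : ℕ∞) Ψ (O ×ˢ univ) := by
    intro q hq
    apply ContDiffAt.contDiffWithinAt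
    have hq1 : q.1 ∈ O := hq.1
    rw [hO] at hq1
    by_cases h0 : ‖q.2‖ * q.1 1 < 1 / 2
    · have h1 : Ψ =ᶠ[nhds q] fun _ => (0 : ℂ) := by
        have hc : Continuous (fun q : (Fin 2 → ℝ) × EE (n + 1) => ‖q.2‖ * q.1 1) := by fun_prop
        filter_upwards [hc.continuousAt.eventually (Iio_mem_nhds h0)] with y hy
        have h2 : chi (‖y.2‖ * y.1 1) = 0 := by
          by_contra h3
          have := (chi_supp h3).1
          have hy' : ‖y.2‖ * y.1 1 < 1 / 2 := hy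
          linarith
        rw [hΨ]
        simp [h2]
      exact contDiffAt_const.congr_of_eventuallyEq h1
    · have hq2 : q.2 ≠ 0 := by
        intro h1
        rw [h1, norm_zero, zero_mul] at h0
        norm_num at h0
      have hn : ContDiffAt ℝ (⊤ : ℕ∞) (fun q : (Fin 2 → ℝ) × EE (n + 1) => ‖q.2‖) q :=
        (contDiffAt_snd).norm ℝ hq2
      rw [hΨ]
      apply ContDiffAt.mul
      · exact contDiff_e.contDiffAt.comp q ((contDiff_par n 0).contDiffAt.mul hn)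
      · apply Complex.ofRealCLM.contDiff.contDiffAt.comp q
        apply ContDiffAt.mul
        · exact contDiff_chi.contDiffAt.comp q (hn.mul (contDiff_par n 1).contDiffAt)
        · exact ((contDiff_eta_hor n).comp contDiff_snd).contDiffAt
  have hsupp : ∀ p ∈ O, ∀ ξ : EE (n + 1), (64 : ℝ) < ‖ξ‖ → Ψ (p, ξ) = 0 := by
    intro p hp ξ hξ
    rw [hO] at hp
    have h2 : chi (‖ξ‖ * p 1) = 0 := by
      by_contra h3
      have h4 := (chi_supp h3).2
      have h5 := hp.1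
      nlinarith
    rw [hΨ]
    simp [h2]
  obtain ⟨C, hC⟩ := h (n + 1) 2 (Icc ![1, 1 / 16] ![2, 1]) O Ψ 64 isCompact_Icc hOo hKO hsm hsupp (n + 2)
  obtain ⟨J, hJ⟩ : ∃ J : ℝ≥0∞, J = ∫⁻ x : EE (n + 1), ENNReal.ofReal (((1 + ‖x‖) ^ (n + 2))⁻¹) :=
    ⟨_, rfl⟩
  have hJt : J ≠ ∞ := by rw [hJ]; exact (integrable_wN n).ne
  refine ⟨(ENNReal.ofReal |C| * J).toNNReal, fun lam t h1 h2 ht => ?_⟩
  rw [ENNReal.coe_toNNReal (ENNReal.mul_ne_top ENNReal.ofReal_ne_top hJt), hJ,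
    ← lintegral_const_mul' _ _ ENNReal.ofReal_ne_top]
  apply lintegral_mono
  intro x
  beta_reduce
  have hp : (![t, 1 / lam] : Fin 2 → ℝ) ∈ Icc (![1, 1 / 16] : Fin 2 → ℝ) ![2, 1] := by
    have h3 : 1 / lam ≤ 1 := by rw [div_le_one (by linarith)]; exact h1
    have h4 : 1 / 16 ≤ 1 / lam := one_div_le_one_div_of_le (by linarith) h2
    constructor
    · intro i; fin_cases i
      · exact ht.1
      · exact h4
    · intro i; fin_cases i
      · exact ht.2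
      · exact h3
  have h3 := hC _ hp x
  rw [← ENNReal.ofReal_mul (abs_nonneg _), ← ofReal_norm]
  apply ENNReal.ofReal_le_ofReal
  rw [← div_eq_mul_inv, le_div_iff₀ (by positivity)]
  refine le_trans (le_of_eq ?_) (h3.trans (le_abs_self C))
  congr 3
  ext ξ
  rw [hΨ]
  simp [div_eq_mul_inv]

/-- cutoff to `h > 0` -/
noncomputable def th (u : ℝ) : ℝ := Real.smoothTransition (8 * u - 1)

lemma contDiff_th : ContDiff ℝ (⊤ : ℕ∞) th := by
  unfold th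
  exact Real.smoothTransition.contDiff.comp ((contDiff_const.mul contDiff_id).sub contDiff_const)

lemma th_zero {u : ℝ} (h : u ≤ 1 / 8) : th u = 0 := by
  unfold th
  exact Real.smoothTransition.zero_of_nonpos (by linarith)

lemma th_one {u : ℝ} (h : 1 / 4 ≤ u) : th u = 1 := by
  unfold th
  exact Real.smoothTransition.one_of_one_le (by linarith)

/-- the rescaled symbol, `σ = ±1` -/
noncomputable def PsB {n : ℕ} (σ : ℝ) (q : (Fin 2 → ℝ) × EE (n + 1)) : ℂ :=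
  e (q.1 0 * (q.1 1 * r2 q.2 / (Real.sqrt ((q.1 1) ^ 2 * r2 q.2 + (q.2 (Fin.last n)) ^ 2) +
    σ * q.2 (Fin.last n)))) *
  ((chi (Real.sqrt ((q.1 1) ^ 2 * r2 q.2 + (q.2 (Fin.last n)) ^ 2)) * eta0 (hor q.2) *
    th (σ * q.2 (Fin.last n)) : ℝ) : ℂ)

lemma contDiff_PsB (n : ℕ) (σ : ℝ) : ContDiff ℝ (⊤ : ℕ∞) (PsB (n := n) σ) := by
  rw [contDiff_iff_contDiffAt]
  intro q
  have hlast : ContDiff ℝ (⊤ : ℕ∞) (fun q : (Fin 2 → ℝ) × EE (n + 1) => q.2 (Fin.last n)) :=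
    (contDiff_last n).comp contDiff_snd
  have hr : ContDiff ℝ (⊤ : ℕ∞) (fun q : (Fin 2 → ℝ) × EE (n + 1) => r2 q.2) :=
    (contDiff_r2 n).comp contDiff_snd
  by_cases h0 : σ * q.2 (Fin.last n) < 1 / 8
  · have h1 : PsB (n := n) σ =ᶠ[nhds q] fun _ => (0 : ℂ) := by
      have hc : Continuous (fun q : (Fin 2 → ℝ) × EE (n + 1) => σ * q.2 (Fin.last n)) :=
        continuous_const.mul hlast.continuous
      filter_upwards [hc.continuousAt.eventually (Iio_mem_nhds h0)] with y hy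
      have h2 : th (σ * y.2 (Fin.last n)) = 0 := th_zero (le_of_lt hy)
      unfold PsB
      simp [h2]
    exact contDiffAt_const.congr_of_eventuallyEq h1
  · push Not at h0
    have h1 : 0 < (q.2 (Fin.last n)) ^ 2 := by
      have : q.2 (Fin.last n) ≠ 0 := by
        intro h
        rw [h, mul_zero] at h0
        norm_num at h0
      positivity
    have h2 := r2_nonneg q.2
    have h3 : 0 < (q.1 1) ^ 2 * r2 q.2 + (q.2 (Fin.last n)) ^ 2 := by positivity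
    have hS : ContDiffAt ℝ (⊤ : ℕ∞) (fun q : (Fin 2 → ℝ) × EE (n + 1) =>
        Real.sqrt ((q.1 1) ^ 2 * r2 q.2 + (q.2 (Fin.last n)) ^ 2)) q := by
      have h5 : ContDiff ℝ (⊤ : ℕ∞) (fun q : (Fin 2 → ℝ) × EE (n + 1) =>
          (q.1 1) ^ 2 * r2 q.2 + (q.2 (Fin.last n)) ^ 2) :=
        (((contDiff_par n 1).pow 2).mul hr).add (hlast.pow 2)
      exact h5.contDiffAt.sqrt h3.ne'
    have h4 : Real.sqrt ((q.1 1) ^ 2 * r2 q.2 + (q.2 (Fin.last n)) ^ 2) +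
        σ * q.2 (Fin.last n) ≠ 0 := by
      have := Real.sqrt_nonneg ((q.1 1) ^ 2 * r2 q.2 + (q.2 (Fin.last n)) ^ 2)
      have h5 : (0 : ℝ) < 1 / 8 := by norm_num
      linarith
    unfold PsB
    apply ContDiffAt.mul
    · apply contDiff_e.contDiffAt.comp q
      apply (contDiff_par n 0).contDiffAt.mul
      apply ContDiffAt.div
      · exact ((contDiff_par n 1).mul hr).contDiffAt
      · exact hS.add (contDiff_const.mul hlast).contDiffAt
      · exact h4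
    · apply Complex.ofRealCLM.contDiff.contDiffAt.comp q
      apply ContDiffAt.mul
      · apply ContDiffAt.mul
        · exact contDiff_chi.contDiffAt.comp q hS
        · exact ((contDiff_eta_hor n).comp contDiff_snd).contDiffAt
      · exact (contDiff_th.comp (contDiff_const.mul hlast)).contDiffAt

lemma supp_PsB (n : ℕ) (σ : ℝ) (p : Fin 2 → ℝ) (ξ : EE (n + 1)) (hξ : 3 < ‖ξ‖) :
    PsB σ (p, ξ) = 0 := by
  by_contra h
  unfold PsB at h
  simp only at h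
  have h1 := right_ne_zero_of_mul h
  have h2 : chi (Real.sqrt ((p 1) ^ 2 * r2 ξ + (ξ (Fin.last n)) ^ 2)) * eta0 (hor ξ) *
    th (σ * ξ (Fin.last n)) ≠ 0 := by exact_mod_cast h1
  have h3 := left_ne_zero_of_mul h2
  have h4 := (chi_supp (left_ne_zero_of_mul h3)).2
  have h5 : hor ξ < 2 := by
    by_contra h6
    push Not at h6
    exact (right_ne_zero_of_mul h3) (eta0_zero h6)
  have h6 := r2_nonneg ξ
  have h7 : (ξ (Fin.last n)) ^ 2 < 4 := by
    have h8 : Real.sqrt ((p 1) ^ 2 * r2 ξ + (ξ (Fin.last n)) ^ 2) < 2 := h4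
    rw [Real.sqrt_lt' (by norm_num)] at h8
    have : 0 ≤ (p 1) ^ 2 * r2 ξ := by positivity
    linarith
  have h8 : r2 ξ < 4 := by
    rw [hor_eq, Real.sqrt_lt' (by norm_num)] at h5
    linarith
  unfold r2 at h8
  nlinarith

lemma scale_prod (n : ℕ) (lam : ℝ) (hl : 0 < lam) (F : EE n × ℝ → ℂ) :
    ∫ q : EE n × ℝ, F q = (lam : ℂ) * ∫ q : EE n × ℝ, F (q.1, lam * q.2) := by
  have he : MeasurableEmbedding (fun q : EE n × ℝ => (q.1, lam * q.2)) := by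
    have h1 : MeasurableEmbedding (Prod.map (id : EE n → EE n) (fun r : ℝ => lam * r)) :=
      MeasurableEmbedding.id.prodMap (Homeomorph.mulLeft₀ lam hl.ne').measurableEmbedding
    exact h1
  have h2 : Measure.map (fun q : EE n × ℝ => (q.1, lam * q.2)) (volume : Measure (EE n × ℝ)) =
      ENNReal.ofReal (lam⁻¹) • (volume : Measure (EE n × ℝ)) := by
    have h3 : (fun q : EE n × ℝ => (q.1, lam * q.2)) = Prod.map (id : EE n → EE n) (fun r : ℝ => lam * r) := rfl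
    rw [h3, Measure.volume_eq_prod, ← Measure.map_prod_map _ _ measurable_id (by fun_prop),
      Real.map_volume_mul_left hl.ne', Measure.map_id, Measure.prod_smul_right,
      abs_of_pos (inv_pos.mpr hl)]
  have h4 := he.integral_map (μ := (volume : Measure (EE n × ℝ))) F
  rw [h2, integral_smul_measure, ENNReal.toReal_ofReal (inv_pos.mpr hl).le] at h4
  rw [← h4, Complex.real_smul, ← mul_assoc]
  push_cast
  rw [mul_inv_cancel₀ (by exact_mod_cast hl.ne'), one_mul]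

lemma norm_Phi {n : ℕ} (Φ : EE n × ℝ ≃ᵐ EE (n + 1))
    (hΦ : ∀ (y y' : EE n) (z z' : ℝ), inner ℝ (Φ (y, z)) (Φ (y', z')) = inner ℝ y y' + z * z')
    (y : EE n) (z : ℝ) : ‖Φ (y, z)‖ ^ 2 = ‖y‖ ^ 2 + z ^ 2 := by
  rw [← real_inner_self_eq_norm_sq, hΦ, real_inner_self_eq_norm_sq]
  ring

lemma r2_Phi {n : ℕ} (Φ : EE n × ℝ ≃ᵐ EE (n + 1)) (hΦ1 : ∀ y z, (Φ (y, z)) (Fin.last n) = z)
    (hΦ : ∀ (y y' : EE n) (z z' : ℝ), inner ℝ (Φ (y, z)) (Φ (y', z')) = inner ℝ y y' + z * z')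
    (y : EE n) (z : ℝ) : r2 (Φ (y, z)) = ‖y‖ ^ 2 := by
  unfold r2
  rw [norm_Phi Φ hΦ, hΦ1]
  ring

/-- the pointwise identity between the symbols -/
lemma symb (n : ℕ) (lam t : ℝ) (hl : 16 ≤ lam) (Φ : EE n × ℝ ≃ᵐ EE (n + 1))
    (hΦ1 : ∀ y z, (Φ (y, z)) (Fin.last n) = z)
    (hΦ : ∀ (y y' : EE n) (z z' : ℝ), inner ℝ (Φ (y, z)) (Φ (y', z')) = inner ℝ y y' + z * z')
    (y : EE n) (h : ℝ) :
    e (t * ‖Φ (y, lam * h)‖) * ((chi (‖Φ (y, lam * h)‖ / lam) * eta0 (hor (Φ (y, lam * h))) : ℝ) : ℂ) =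
      e (lam * t * h) * PsB 1 (![t, 1 / lam], Φ (y, h)) +
      e (-(lam * t * h)) * PsB (-1) (![t, 1 / lam], Φ (y, h)) := by
  have hl0 : 0 < lam := by linarith
  obtain ⟨S, hS⟩ : ∃ S, S = Real.sqrt ((1 / lam) ^ 2 * ‖y‖ ^ 2 + h ^ 2) := ⟨_, rfl⟩
  have hS0 : 0 ≤ S := by rw [hS]; exact Real.sqrt_nonneg _
  have hS2 : S ^ 2 = (1 / lam) ^ 2 * ‖y‖ ^ 2 + h ^ 2 := by
    rw [hS]; exact Real.sq_sqrt (by positivity)
  have hnorm : ‖Φ (y, lam * h)‖ = lam * S := by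
    have h1 : ‖Φ (y, lam * h)‖ ^ 2 = (lam * S) ^ 2 := by
      rw [norm_Phi Φ hΦ, mul_pow lam S, hS2]
      field_simp
    have h2 : 0 ≤ lam * S := by positivity
    exact (pow_left_inj₀ (norm_nonneg _) h2 (by norm_num)).mp h1
  have hhor : hor (Φ (y, lam * h)) = ‖y‖ := by
    rw [hor_eq, r2_Phi Φ hΦ1 hΦ, Real.sqrt_sq (norm_nonneg _)]
  have hhor' : hor (Φ (y, h)) = ‖y‖ := by
    rw [hor_eq, r2_Phi Φ hΦ1 hΦ, Real.sqrt_sq (norm_nonneg _)]
  have hP : ∀ σ : ℝ, PsB σ (![t, 1 / lam], Φ (y, h)) =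
      e (t * ((1 / lam) * ‖y‖ ^ 2 / (S + σ * h))) * ((chi S * eta0 ‖y‖ * th (σ * h) : ℝ) : ℂ) := by
    intro σ
    unfold PsB
    simp only [Matrix.cons_val_zero, Matrix.cons_val_one]
    rw [r2_Phi Φ hΦ1 hΦ, hΦ1, ← hS, hhor']
  rw [hP, hP, hnorm, hhor]
  rw [show lam * S / lam = S by field_simp]
  by_cases h0 : chi S * eta0 ‖y‖ = 0
  · simp [h0]
  · have h1 := chi_supp (left_ne_zero_of_mul h0)
    have h2 : ‖y‖ < 2 := by
      by_contra h3
      push Not at h3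
      exact (right_ne_zero_of_mul h0) (eta0_zero h3)
    have h3 : 1 / 16 < h ^ 2 := by
      have h4 : 1 / 4 < S ^ 2 := by nlinarith [h1.1]
      have h5 : (1 / lam) ^ 2 * ‖y‖ ^ 2 ≤ 1 / 64 := by
        have h6 : 1 / lam ≤ 1 / 16 := one_div_le_one_div_of_le (by norm_num) hl
        have h7 : 0 < 1 / lam := by positivity
        have h8 := norm_nonneg y
        have h9 : (1 / lam) * ‖y‖ ≤ 1 / 8 := by nlinarith
        have h10 : 0 ≤ (1 / lam) * ‖y‖ := by positivity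
        calc (1 / lam) ^ 2 * ‖y‖ ^ 2 = ((1 / lam) * ‖y‖) ^ 2 := by ring
          _ ≤ (1 / 8) ^ 2 := pow_le_pow_left₀ h10 h9 2
          _ = 1 / 64 := by norm_num
      linarith
    have key : ∀ σ : ℝ, σ ^ 2 = 1 → 0 < σ * h →
        t * (lam * S) = lam * t * (σ * h) + t * ((1 / lam) * ‖y‖ ^ 2 / (S + σ * h)) := by
      intro σ hσ hh
      have h4 : 0 < S + σ * h := by linarith
      have h5 : (S + σ * h) * (S - σ * h) = (1 / lam) ^ 2 * ‖y‖ ^ 2 := by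
        have : (S + σ * h) * (S - σ * h) = S ^ 2 - σ ^ 2 * h ^ 2 := by ring
        rw [this, hσ, hS2]; ring
      have h6 : (1 / lam) * ‖y‖ ^ 2 / (S + σ * h) = lam * (S - σ * h) := by
        rw [div_eq_iff h4.ne']
        have h7 : lam * (S - σ * h) * (S + σ * h) = lam * ((S + σ * h) * (S - σ * h)) := by ring
        rw [h7, h5]
        field_simp
      rw [h6]; ring
    rcases lt_or_ge 0 h with hh | hh
    · have h4 : 1 / 4 < h := by nlinarith
      have h5 := key 1 (by norm_num) (by linarith)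
      rw [th_one (by linarith : (1 : ℝ) / 4 ≤ 1 * h), th_zero (by linarith : -1 * h ≤ 1 / 8), h5, e_add]
      push_cast
      ring_nf
    · have h4 : 1 / 4 < -h := by nlinarith
      have h5 := key (-1) (by norm_num) (by linarith)
      rw [th_one (by linarith : (1 : ℝ) / 4 ≤ -1 * h), th_zero (by linarith : 1 * h ≤ 1 / 8), h5, e_add]
      push_cast
      ring_nf

lemma integral_Phi {n : ℕ} (Φ : EE n × ℝ ≃ᵐ EE (n + 1)) (hm : MeasurePreserving Φ)
    (hΦ : ∀ (y y' : EE n) (z z' : ℝ), inner ℝ (Φ (y, z)) (Φ (y', z')) = inner ℝ y y' + z * z')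
    (m : EE (n + 1) → ℂ) (y : EE n) (z : ℝ) :
    MK m (Φ (y, z)) = ∫ q : EE n × ℝ, e (inner ℝ y q.1 + z * q.2) * m (Φ q) := by
  unfold MK
  rw [← hm.integral_comp Φ.measurableEmbedding]
  congr 1
  ext q
  obtain ⟨y', z'⟩ := q
  rw [hΦ]

lemma integrable_PsB (n : ℕ) (σ : ℝ) (p : Fin 2 → ℝ) : Integrable (fun ξ : EE (n + 1) => PsB σ (p, ξ)) := by
  apply Continuous.integrable_of_hasCompactSupport
  · exact (contDiff_PsB n σ).continuous.comp (by fun_prop)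
  · apply HasCompactSupport.intro (isCompact_closedBall (0 : EE (n + 1)) 3)
    intro x hx
    apply supp_PsB
    rw [mem_closedBall_zero_iff, not_le] at hx
    exact hx

/-- large `λ`: the kernel -/
lemma kerB (n : ℕ) (lam t : ℝ) (hl : 16 ≤ lam) (Φ : EE n × ℝ ≃ᵐ EE (n + 1))
    (hm : MeasurePreserving Φ) (hΦ1 : ∀ y z, (Φ (y, z)) (Fin.last n) = z)
    (hΦ : ∀ (y y' : EE n) (z z' : ℝ), inner ℝ (Φ (y, z)) (Φ (y', z')) = inner ℝ y y' + z * z')
    (y : EE n) (z : ℝ) :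
    MK (fun ξ : EE (n + 1) => e (t * ‖ξ‖) * ((chi (‖ξ‖ / lam) * eta0 (hor ξ) : ℝ) : ℂ)) (Φ (y, z)) =
      (lam : ℂ) * (MK (fun ξ => PsB 1 (![t, 1 / lam], ξ)) (Φ (y, lam * (z + t))) +
        MK (fun ξ => PsB (-1) (![t, 1 / lam], ξ)) (Φ (y, lam * (z + -t)))) := by
  have hl0 : 0 < lam := by linarith
  have hint : ∀ σ w : ℝ, Integrable (fun q : EE n × ℝ => e (inner ℝ y q.1 + lam * w * q.2) *
      PsB σ (![t, 1 / lam], Φ q)) := by
    intro σ w
    have h1 : Integrable (fun q : EE n × ℝ => PsB σ (![t, 1 / lam], Φ q)) :=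
      (hm.integrable_comp_emb Φ.measurableEmbedding).mpr (integrable_PsB n σ _)
    apply h1.bdd_mul (c := 1)
    · exact (continuous_e.comp (by fun_prop)).aestronglyMeasurable
    · exact Filter.Eventually.of_forall (fun ζ => (norm_e _).le)
  rw [integral_Phi Φ hm hΦ, integral_Phi Φ hm hΦ, integral_Phi Φ hm hΦ, scale_prod n lam hl0,
    ← integral_add (hint 1 (z + t)) (hint (-1) (z + -t))]
  congr 2
  ext q
  rw [symb n lam t hl Φ hΦ1 hΦ q.1 q.2]
  rw [show inner ℝ y q.1 + lam * (z + t) * q.2 = (inner ℝ y q.1 + z * (lam * q.2)) + lam * t * q.2 by ring,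
    show inner ℝ y q.1 + lam * (z + -t) * q.2 = (inner ℝ y q.1 + z * (lam * q.2)) + -(lam * t * q.2) by ring,
    e_add _ (lam * t * q.2), e_add _ (-(lam * t * q.2))]
  ring

lemma shiftscale (n : ℕ) (lam c : ℝ) (hl : 0 < lam) (Φ : EE n × ℝ ≃ᵐ EE (n + 1))
    (hm : MeasurePreserving Φ) (g : EE (n + 1) → ℝ≥0∞) (hg : Measurable g) :
    ∫⁻ q : EE n × ℝ, g (Φ (q.1, lam * (q.2 + c))) = ENNReal.ofReal (lam⁻¹) * ∫⁻ x, g x := by
  have h1 : Measurable (fun q : EE n × ℝ => g (Φ q)) := hg.comp Φ.measurable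
  have h2 : Measurable (fun q : EE n × ℝ => g (Φ (q.1, lam * (q.2 + c)))) :=
    h1.comp (measurable_fst.prodMk (by fun_prop))
  rw [← hm.lintegral_comp_emb Φ.measurableEmbedding g, Measure.volume_eq_prod,
    lintegral_prod _ h2.aemeasurable, lintegral_prod _ h1.aemeasurable,
    ← lintegral_const_mul' _ _ ENNReal.ofReal_ne_top]
  apply lintegral_congr
  intro y
  rw [lintegral_add_right_eq_self (fun z : ℝ => g (Φ (y, lam * z))) c,
    lintegral_scale lam hl (fun z : ℝ => g (Φ (y, z)))]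

/-- large `λ` -/
lemma caseB (h : T_KBV) (h2 : T_SPL) (n : ℕ) : ∃ C : ℝ≥0, ∀ lam t : ℝ, 16 ≤ lam →
    t ∈ Icc (1 : ℝ) 2 → ∫⁻ x : EE (n + 1), ‖MK (fun ξ : EE (n + 1) => e (t * ‖ξ‖) *
    ((chi (‖ξ‖ / lam) * eta0 (hor ξ) : ℝ) : ℂ)) x‖ₑ ≤ C := by
  obtain ⟨Φ, hm, hΦ1, hΦ⟩ := h2 n
  have hk : ∀ σ : ℝ, ∃ C : ℝ, ∀ p ∈ Icc (![1, 0] : Fin 2 → ℝ) ![2, 1], ∀ x : EE (n + 1),
      ‖MK (fun ξ => PsB σ (p, ξ)) x‖ * (1 + ‖x‖) ^ (n + 2) ≤ C := by
    intro σ
    exact h (n + 1) 2 (Icc ![1, 0] ![2, 1]) univ (PsB σ) 3 isCompact_Icc isOpen_univ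
      (subset_univ _) (contDiff_PsB n σ).contDiffOn (fun p _ ξ hξ => supp_PsB n σ p ξ hξ) (n + 2)
  obtain ⟨C1, hC1⟩ := hk 1
  obtain ⟨C2, hC2⟩ := hk (-1)
  obtain ⟨J, hJ⟩ : ∃ J : ℝ≥0∞, J = ∫⁻ x : EE (n + 1), ENNReal.ofReal (((1 + ‖x‖) ^ (n + 2))⁻¹) :=
    ⟨_, rfl⟩
  have hJt : J ≠ ∞ := by rw [hJ]; exact (integrable_wN n).ne
  refine ⟨(ENNReal.ofReal |C1| * J + ENNReal.ofReal |C2| * J).toNNReal, fun lam t hl ht => ?_⟩
  have hl0 : 0 < lam := by linarith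
  rw [ENNReal.coe_toNNReal (ENNReal.add_ne_top.mpr ⟨ENNReal.mul_ne_top ENNReal.ofReal_ne_top hJt,
    ENNReal.mul_ne_top ENNReal.ofReal_ne_top hJt⟩)]
  have hp : (![t, 1 / lam] : Fin 2 → ℝ) ∈ Icc (![1, 0] : Fin 2 → ℝ) ![2, 1] := by
    have h3 : 1 / lam ≤ 1 := by rw [div_le_one (by linarith)]; linarith
    have h4 : 0 ≤ 1 / lam := by positivity
    constructor
    · intro i; fin_cases i
      · exact ht.1
      · exact h4
    · intro i; fin_cases i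
      · exact ht.2
      · exact h3
  obtain ⟨g, hg⟩ : ∃ g : EE (n + 1) → ℝ≥0∞, g = fun x => ENNReal.ofReal (((1 + ‖x‖) ^ (n + 2))⁻¹) :=
    ⟨_, rfl⟩
  have hgm : Measurable g := by rw [hg]; fun_prop
  have hb : ∀ (C σ : ℝ), (∀ p ∈ Icc (![1, 0] : Fin 2 → ℝ) ![2, 1], ∀ x : EE (n + 1),
      ‖MK (fun ξ => PsB σ (p, ξ)) x‖ * (1 + ‖x‖) ^ (n + 2) ≤ C) → ∀ x : EE (n + 1),
      ‖MK (fun ξ => PsB σ (![t, 1 / lam], ξ)) x‖ₑ ≤ ENNReal.ofReal |C| * g x := by
    intro C σ hC x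
    rw [hg]
    simp only
    rw [← ENNReal.ofReal_mul (abs_nonneg _), ← ofReal_norm]
    apply ENNReal.ofReal_le_ofReal
    rw [← div_eq_mul_inv, le_div_iff₀ (by positivity)]
    exact (hC _ hp x).trans (le_abs_self C)
  rw [← hm.lintegral_comp_emb Φ.measurableEmbedding]
  calc
    _ ≤ ∫⁻ q : EE n × ℝ, ENNReal.ofReal lam * (ENNReal.ofReal |C1| * g (Φ (q.1, lam * (q.2 + t))) +
        ENNReal.ofReal |C2| * g (Φ (q.1, lam * (q.2 + -t)))) := by
        apply lintegral_mono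
        intro q
        obtain ⟨y, z⟩ := q
        simp only
        rw [kerB n lam t hl Φ hm hΦ1 hΦ y z, enorm_mul]
        have h5 : ‖(lam : ℂ)‖ₑ = ENNReal.ofReal lam := by
          rw [← ofReal_norm, Complex.norm_real, Real.norm_eq_abs, abs_of_pos hl0]
        rw [h5]
        gcongr
        refine (enorm_add_le _ _).trans ?_
        exact add_le_add (hb C1 1 hC1 _) (hb C2 (-1) hC2 _)
    _ = ENNReal.ofReal lam * (ENNReal.ofReal |C1| * (ENNReal.ofReal (lam⁻¹) * J) +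
        ENNReal.ofReal |C2| * (ENNReal.ofReal (lam⁻¹) * J)) := by
        have h6 : Measurable (fun q : EE n × ℝ => g (Φ (q.1, lam * (q.2 + t)))) :=
          (hgm.comp Φ.measurable).comp (measurable_fst.prodMk (by fun_prop))
        rw [lintegral_const_mul' _ _ ENNReal.ofReal_ne_top, lintegral_add_left (h6.const_mul _),
          lintegral_const_mul' _ _ ENNReal.ofReal_ne_top, lintegral_const_mul' _ _ ENNReal.ofReal_ne_top,
          shiftscale n lam t hl0 Φ hm g hgm, shiftscale n lam (-t) hl0 Φ hm g hgm, hJ, hg]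
    _ = (ENNReal.ofReal lam * ENNReal.ofReal (lam⁻¹)) * (ENNReal.ofReal |C1| * J +
        ENNReal.ofReal |C2| * J) := by ring
    _ ≤ _ := by
        rw [← ENNReal.ofReal_mul hl0.le, mul_inv_cancel₀ hl0.ne', ENNReal.ofReal_one, one_mul]

/-- LOWX -/
theorem lowx (h : T_KBV) (h2 : T_SPL) : T_LOWX := by
  intro n _
  obtain ⟨C1, hC1⟩ := caseA h n
  obtain ⟨C2, hC2⟩ := caseB h h2 n
  refine ⟨C1 + C2, fun lam t hl ht => ?_⟩
  rcases le_total lam 16 with h3 | h3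
  · refine (hC1 lam t hl h3 ht).trans ?_
    push_cast
    exact le_self_add
  · refine (hC2 lam t h3 ht).trans ?_
    push_cast
    exact le_add_self

end Pool.Agent.H83.LS.H27
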