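import Pool.Agent.H27.LS.Mult

/-!
# The Pólya–Vinogradov inequality for prime moduli
-/

set_option autoImplicit false

namespace Pool.Agent.H27.LS

open Finset Complex

lemma norm_geom_le {b q : ℕ} (hb : 0 < b) (hbq : 2 * b ≤ q) (M : ℕ) (s : ℝ) (hs : s = 1 ∨ s = -1) :
    ‖∑ n ∈ range M, exp (2 * Real.pi * I * (s * b / q : ℝ) * n)‖ ≤ q / (2 * b) := by
  have hb' : (0 : ℝ) < b := by exact_mod_cast hb
  have hq' : (0 : ℝ) < q := by exact_mod_cast (by omega : 0 < q)
  set θ : ℝ := s * b / q with hθ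
  have hs2 : |s| = 1 := by rcases hs with h | h <;> simp [h]
  have habs : |θ| = b / q := by
    rw [hθ, abs_div, abs_mul, hs2, one_mul, abs_of_pos hb', abs_of_pos hq']
  have hle : (b : ℝ) / q ≤ 1 / 2 := by
    rw [div_le_div_iff₀ hq' (by norm_num)]
    have : (2 : ℝ) * b ≤ q := by exact_mod_cast hbq
    linarith
  set z : ℂ := exp (2 * Real.pi * I * θ) with hz
  have h1 : ∑ n ∈ range M, exp (2 * Real.pi * I * (θ : ℂ) * n) = ∑ n ∈ range M, z ^ n := by
    refine Finset.sum_congr rfl fun n _ => ?_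
    rw [hz, ← Complex.exp_nat_mul]
    congr 1
    ring
  rw [h1]
  have hsin : 2 * (b : ℝ) / q ≤ |Real.sin (Real.pi * θ)| := by
    have h2 : |Real.sin (Real.pi * θ)| = Real.sin (Real.pi * |θ|) := by
      have h3 : Real.sin (Real.pi * |θ|) = |Real.sin (Real.pi * |θ|)| := by
        refine (abs_of_nonneg (Real.sin_nonneg_of_nonneg_of_le_pi (by positivity) ?_)).symm
        rw [habs]
        have := Real.pi_pos
        nlinarith
      rw [h3]
      rcases abs_cases θ with h | h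
      · rw [h.1]
      · rw [h.1, mul_neg, Real.sin_neg, abs_neg]
    rw [h2, habs]
    have h4 := Real.mul_le_sin (x := Real.pi * (b / q)) (by positivity) (by
      have := Real.pi_pos
      nlinarith)
    refine le_trans (le_of_eq ?_) h4
    have := Real.pi_pos
    field_simp
  have hz1 : ‖z - 1‖ = 2 * |Real.sin (Real.pi * θ)| := by
    have h5 : z - 1 = exp ((Real.pi * θ : ℝ) * I) * (2 * I * (Real.sin (Real.pi * θ) : ℝ)) := by
      rw [Complex.ofReal_sin, Complex.sin, hz]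
      have h6 : exp (2 * Real.pi * I * θ) =
          exp ((Real.pi * θ : ℝ) * I) * exp ((Real.pi * θ : ℝ) * I) := by
        rw [← Complex.exp_add]
        congr 1
        push_cast
        ring
      have h7 : exp ((Real.pi * θ : ℝ) * I) * exp (-((Real.pi * θ : ℝ) : ℂ) * I) = 1 := by
        rw [← Complex.exp_add]
        simp
      rw [h6]
      linear_combination h7 - (exp ((Real.pi * θ : ℝ) * I) *
        (exp (-((Real.pi * θ : ℝ) : ℂ) * I) - exp ((Real.pi * θ : ℝ) * I))) * I_mul_I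
    rw [h5, norm_mul, Complex.norm_exp_ofReal_mul_I, one_mul, norm_mul, norm_mul, Complex.norm_I,
      Complex.norm_real, Real.norm_eq_abs]
    simp
  have hpos : 0 < ‖z - 1‖ := by
    rw [hz1]
    have : 0 < 2 * (b : ℝ) / q := by positivity
    linarith
  have hne : z ≠ 1 := by
    intro h
    rw [h, sub_self, norm_zero] at hpos
    exact lt_irrefl _ hpos
  rw [geom_sum_eq hne, norm_div]
  have hzn : ‖z ^ M - 1‖ ≤ 2 := by
    refine (norm_sub_le _ _).trans ?_
    have : ‖z‖ = 1 := by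
      rw [hz]
      have : (2 * Real.pi * I * θ : ℂ) = ((2 * Real.pi * θ : ℝ) : ℂ) * I := by push_cast; ring
      rw [this, Complex.norm_exp_ofReal_mul_I]
    rw [norm_pow, this, norm_one]
    norm_num
  rw [div_le_div_iff₀ hpos (by positivity)]
  calc ‖z ^ M - 1‖ * (2 * b) ≤ 2 * (2 * b) := by gcongr
    _ = q * (2 * (2 * b / q)) := by field_simp
    _ ≤ q * ‖z - 1‖ := by
        rw [hz1]
        gcongr

variable (p : ℕ) [hp : Fact p.Prime]

/-- the additive transform of an initial segment -/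
lemma sum_stdAddChar_le (b : ZMod p) (hb : b ≠ 0) (M : ℕ) :
    ‖∑ n ∈ range M, ZMod.stdAddChar (b * (n : ZMod p))‖ ≤
      p / (2 * (b.valMinAbs.natAbs : ℝ)) := by
  have h1 : 0 < b.valMinAbs.natAbs := by
    rw [Int.natAbs_pos]
    intro h
    exact hb ((ZMod.valMinAbs_eq_zero b).1 h)
  have h2 : 2 * b.valMinAbs.natAbs ≤ p := by
    have := ZMod.natAbs_valMinAbs_le b
    omega
  obtain ⟨s, hs, hsb⟩ : ∃ s : ℝ, (s = 1 ∨ s = -1) ∧
      ((b.valMinAbs : ℤ) : ℝ) = s * (b.valMinAbs.natAbs : ℝ) := by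
    rw [Nat.cast_natAbs, Int.cast_abs]
    rcases abs_cases ((b.valMinAbs : ℤ) : ℝ) with h | h
    · exact ⟨1, Or.inl rfl, by rw [h.1, one_mul]⟩
    · exact ⟨-1, Or.inr rfl, by rw [h.1]; ring⟩
  have h3 := norm_geom_le h1 h2 M s hs
  refine le_trans (le_of_eq ?_) h3
  congr 1
  refine Finset.sum_congr rfl fun n _ => ?_
  have h4 : b * (n : ZMod p) = ((b.valMinAbs * n : ℤ) : ZMod p) := by
    push_cast
    rfl
  rw [h4, ZMod.stdAddChar_coe, ← hsb]
  congr 1
  push_cast
  ring

lemma sum_inv_valMinAbs_le :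
    ∑ b ∈ univ.erase (0 : ZMod p), (p : ℝ) / (2 * (b.valMinAbs.natAbs : ℝ)) ≤
      p * (1 + Real.log p) := by
  classical
  have h1 : ∑ b ∈ univ.erase (0 : ZMod p), (p : ℝ) / (2 * (b.valMinAbs.natAbs : ℝ)) ≤
      ∑ x ∈ Icc 1 p ×ˢ (univ : Finset Bool), (p : ℝ) / (2 * (x.1 : ℝ)) := by
    have hinj : Set.InjOn (fun b : ZMod p => (b.valMinAbs.natAbs, decide (0 < b.valMinAbs)))
        (univ.erase (0 : ZMod p) : Finset (ZMod p)) := by
      intro a ha b hb h
      simp only [Prod.mk.injEq, decide_eq_decide] at h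
      have : a.valMinAbs = b.valMinAbs := by
        obtain ⟨h1, h2⟩ := h
        by_cases h3 : 0 < a.valMinAbs
        · have h4 := h2.1 h3; omega
        · have h4 : ¬ 0 < b.valMinAbs := fun h => h3 (h2.2 h)
          omega
      exact ZMod.injective_valMinAbs this
    rw [← Finset.sum_image (f := fun x : ℕ × Bool => (p : ℝ) / (2 * (x.1 : ℝ))) hinj]
    refine Finset.sum_le_sum_of_subset_of_nonneg ?_ fun _ _ _ => by positivity
    intro x hx
    rw [Finset.mem_image] at hx
    obtain ⟨b, hb, rfl⟩ := hx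
    have hb0 := Finset.ne_of_mem_erase hb
    simp only [mem_product, mem_Icc, mem_univ, and_true]
    constructor
    · rw [Nat.one_le_iff_ne_zero, Ne, Int.natAbs_eq_zero]
      intro h
      exact hb0 ((ZMod.valMinAbs_eq_zero b).1 h)
    · have := ZMod.natAbs_valMinAbs_le b
      omega
  refine h1.trans ?_
  rw [Finset.sum_product]
  have h2 : ∀ x ∈ Icc 1 p, ∑ _y : Bool, (p : ℝ) / (2 * (x : ℝ)) = p * (x : ℝ)⁻¹ := by
    intro x hx
    have : (x : ℝ) ≠ 0 := by
      have := (mem_Icc.1 hx).1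
      positivity
    simp only [Finset.sum_const, Finset.card_univ, Fintype.card_bool, nsmul_eq_mul]
    push_cast
    field_simp
  rw [Finset.sum_congr rfl h2, ← Finset.mul_sum]
  gcongr
  have h3 := harmonic_le_one_add_log p
  rw [harmonic_eq_sum_Icc] at h3
  push_cast at h3
  exact h3

/-- Pólya–Vinogradov -/
theorem polya_vinogradov {χ : DirichletCharacter ℂ p} (hχ : χ ≠ 1) (M : ℕ) :
    ‖∑ n ∈ range M, χ (n : ZMod p)‖ ≤ √p * (1 + Real.log p) := by
  classical
  have hp0 : (0 : ℝ) < p := by exact_mod_cast hp.out.pos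
  have hχ' : χ⁻¹ ≠ 1 := by simpa using hχ
  set τ := gaussSum χ⁻¹ (ZMod.stdAddChar (N := p)) with hτ
  have hτn : ‖τ‖ = √p := by
    rw [← norm_gaussSum_sq p hχ', Real.sqrt_sq (norm_nonneg _)]
  have h1 : (∑ n ∈ range M, χ (n : ZMod p)) * τ =
      ∑ b ∈ univ.erase (0 : ZMod p), χ⁻¹ b * ∑ n ∈ range M, ZMod.stdAddChar (b * (n : ZMod p)) := by
    have h2 : ∑ b ∈ univ.erase (0 : ZMod p), χ⁻¹ b *
        ∑ n ∈ range M, ZMod.stdAddChar (b * (n : ZMod p)) =
        ∑ b, χ⁻¹ b * ∑ n ∈ range M, ZMod.stdAddChar (b * (n : ZMod p)) := by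
      refine Finset.sum_subset (Finset.erase_subset _ _) fun b _ hb => ?_
      have : b = 0 := by
        by_contra h
        exact hb (Finset.mem_erase.2 ⟨h, Finset.mem_univ _⟩)
      rw [this, MulChar.map_zero, zero_mul]
    rw [h2, Finset.sum_mul]
    simp only [Finset.mul_sum]
    rw [Finset.sum_comm]
    refine Finset.sum_congr rfl fun n _ => ?_
    rw [gaussSum_shift p hχ', inv_inv]
  have h3 : ‖(∑ n ∈ range M, χ (n : ZMod p)) * τ‖ ≤ p * (1 + Real.log p) := by
    rw [h1]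
    refine (norm_sum_le _ _).trans (le_trans ?_ (sum_inv_valMinAbs_le p))
    refine Finset.sum_le_sum fun b hb => ?_
    rw [norm_mul]
    have h4 := DirichletCharacter.norm_le_one χ⁻¹ b
    have h5 := sum_stdAddChar_le p b (Finset.ne_of_mem_erase hb) M
    calc _ ≤ 1 * (p / (2 * (b.valMinAbs.natAbs : ℝ))) := mul_le_mul h4 h5 (norm_nonneg _) zero_le_one
      _ = _ := one_mul _
  rw [norm_mul, hτn] at h3
  have h6 : 0 < √(p : ℝ) := Real.sqrt_pos.2 hp0
  rw [← mul_le_mul_iff_left₀ h6]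
  calc _ ≤ p * (1 + Real.log p) := h3
    _ = _ := by
      nth_rewrite 1 [← Real.mul_self_sqrt hp0.le]
      ring

end Pool.Agent.H27.LS
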