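import Pool.Agent.H27.LS.Weight
import Pool.Agent.H27.LS.PolyaVinogradov

/-!
# Character sums with smooth weights
-/

set_option autoImplicit false

namespace Pool.Agent.H27.LS

open Finset

/-- Abel summation bound -/
lemma abel_bound {f : ℕ → ℂ} {g : ℕ → ℝ} {B : ℝ} (hB : ∀ M, ‖∑ n ∈ range M, f n‖ ≤ B) (N : ℕ) :
    ‖∑ n ∈ range N, f n * (g n : ℂ)‖ ≤ B * (|g N| + ∑ n ∈ range N, |g n - g (n + 1)|) := by
  have h1 : ∑ n ∈ range N, f n * (g n : ℂ) = (∑ n ∈ range N, f n) * (g N : ℂ) +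
      ∑ n ∈ range N, (∑ m ∈ range (n + 1), f m) * ((g n - g (n + 1) : ℝ) : ℂ) := by
    induction N with
    | zero => simp
    | succ N ih =>
      rw [Finset.sum_range_succ, ih, Finset.sum_range_succ (fun n => (∑ m ∈ range (n + 1), f m) *
        ((g n - g (n + 1) : ℝ) : ℂ)), Finset.sum_range_succ f N]
      push_cast
      ring
  have hB0 : 0 ≤ B := (norm_nonneg _).trans (hB 0)
  rw [h1, mul_add]
  refine (norm_add_le _ _).trans (add_le_add ?_ ?_)
  · rw [norm_mul, Complex.norm_real, Real.norm_eq_abs]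
    exact mul_le_mul_of_nonneg_right (hB N) (abs_nonneg _)
  · rw [Finset.mul_sum]
    refine (norm_sum_le _ _).trans (Finset.sum_le_sum fun n _ => ?_)
    rw [norm_mul, Complex.norm_real, Real.norm_eq_abs]
    exact mul_le_mul_of_nonneg_right (hB _) (abs_nonneg _)

section prime

variable (q : ℕ) [hq : Fact q.Prime]

lemma norm_char_sum_shift_le {χ : DirichletCharacter ℂ q} {B : ℝ}
    (hB : ∀ M, ‖∑ n ∈ range M, χ (n : ZMod q)‖ ≤ B) (M : ℕ) :
    ‖∑ n ∈ range M, χ ((n + 1 : ℕ) : ZMod q)‖ ≤ B := by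
  have h := hB (M + 1)
  have h0 : χ ((0 : ℕ) : ZMod q) = 0 := by simpa using MulChar.map_zero χ
  rwa [Finset.sum_range_succ', h0, add_zero] at h

variable {χ : DirichletCharacter ℂ q}

lemma sum_clamp_le (u : ℕ → ℝ) (N : ℕ) :
    ∑ n ∈ range N, (clamp (u (n + 1)) - clamp (u n)) ≤ 2 := by
  rw [Finset.sum_range_sub (fun n => clamp (u n))]
  linarith [clamp_le (u N), le_clamp (u 0)]

lemma log_mono_aux {d : ℕ} (hd : 0 < d) {X : ℝ} (hX : 0 < X) (n : ℕ) :
    Real.log (d * (n + 1 : ℕ) / X) ≤ Real.log (d * (n + 1 + 1 : ℕ) / X) := by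
  have : (0 : ℝ) < d := by exact_mod_cast hd
  apply Real.log_le_log (by positivity)
  gcongr
  simp

/-- smooth character sum, weight `hat` -/
lemma type_one_a {B : ℝ} (hB : ∀ M, ‖∑ n ∈ range M, χ (n : ZMod q)‖ ≤ B) {d : ℕ} (hd : 0 < d) {X : ℝ} (hX : 0 < X) {N : ℕ}
    (hN : Real.exp 1 * X ≤ N) :
    ‖∑ m ∈ range (N + 1), χ (m : ZMod q) * (hat (Real.log (d * m / X)) : ℝ)‖ ≤ 2 * B := by
  have hB0 : 0 ≤ B := (norm_nonneg _).trans (hB 0)
  have hd' : (1 : ℝ) ≤ d := by exact_mod_cast hd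
  rw [Finset.sum_range_succ']
  have h0 : χ ((0 : ℕ) : ZMod q) = 0 := by simpa using MulChar.map_zero χ
  rw [h0, zero_mul, add_zero]
  have h1 := abel_bound (f := fun n => χ ((n + 1 : ℕ) : ZMod q))
    (g := fun n => hat (Real.log (d * (n + 1 : ℕ) / X))) (norm_char_sum_shift_le q hB) N
  refine h1.trans ?_
  have h2 : hat (Real.log (d * (N + 1 : ℕ) / X)) = 0 := by
    apply hat_eq_zero
    have h3 : 1 ≤ Real.log (d * (N + 1 : ℕ) / X) := by
      rw [Real.le_log_iff_exp_le (by positivity), le_div_iff₀ hX]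
      push_cast
      nlinarith
    exact h3.trans (le_abs_self _)
  rw [h2, abs_zero, zero_add, mul_comm 2]
  refine mul_le_mul_of_nonneg_left ?_ hB0
  refine le_trans (Finset.sum_le_sum fun n _ => abs_hat_sub_le (log_mono_aux hd hX n)) ?_
  exact sum_clamp_le (fun n => Real.log (d * (n + 1 : ℕ) / X)) N

/-- smooth character sum, weight `log · hat` -/
lemma type_one_b {B : ℝ} (hB : ∀ M, ‖∑ n ∈ range M, χ (n : ZMod q)‖ ≤ B) {d : ℕ} (hd : 0 < d) {X : ℝ} (hX : 0 < X) {N : ℕ}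
    (hN : Real.exp 1 * X ≤ N) :
    ‖∑ m ∈ range (N + 1), χ (m : ZMod q) * ((Real.log m * hat (Real.log (d * m / X)) : ℝ) : ℂ)‖ ≤
      3 * Real.log (N + 1) * B := by
  have hB0 : 0 ≤ B := (norm_nonneg _).trans (hB 0)
  have hd' : (1 : ℝ) ≤ d := by exact_mod_cast hd
  rw [Finset.sum_range_succ']
  have h0 : χ ((0 : ℕ) : ZMod q) = 0 := by simpa using MulChar.map_zero χ
  rw [h0, zero_mul, add_zero]
  have h1 := abel_bound (f := fun n => χ ((n + 1 : ℕ) : ZMod q))
    (g := fun n => Real.log (n + 1 : ℕ) * hat (Real.log (d * (n + 1 : ℕ) / X)))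
    (norm_char_sum_shift_le q hB) N
  refine h1.trans ?_
  have h2 : hat (Real.log (d * (N + 1 : ℕ) / X)) = 0 := by
    apply hat_eq_zero
    have h3 : 1 ≤ Real.log (d * (N + 1 : ℕ) / X) := by
      rw [Real.le_log_iff_exp_le (by positivity), le_div_iff₀ hX]
      push_cast
      nlinarith
    exact h3.trans (le_abs_self _)
  rw [h2, mul_zero, abs_zero, zero_add, mul_comm (3 * _)]
  refine mul_le_mul_of_nonneg_left ?_ hB0
  have hL : 0 ≤ Real.log (N + 1) := Real.log_nonneg (by linarith [Nat.cast_nonneg (α := ℝ) N])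
  have h4 : ∀ n ∈ range N, |Real.log (n + 1 : ℕ) * hat (Real.log (d * (n + 1 : ℕ) / X)) -
      Real.log (n + 1 + 1 : ℕ) * hat (Real.log (d * (n + 1 + 1 : ℕ) / X))| ≤
      (Real.log (n + 1 + 1 : ℕ) - Real.log (n + 1 : ℕ)) + Real.log (N + 1) *
        (clamp (Real.log (d * (n + 1 + 1 : ℕ) / X)) - clamp (Real.log (d * (n + 1 : ℕ) / X))) := by
    intro n hn
    set u := Real.log (d * (n + 1 : ℕ) / X)
    set v := Real.log (d * (n + 1 + 1 : ℕ) / X)
    have h5 : Real.log (n + 1 : ℕ) * hat u - Real.log (n + 1 + 1 : ℕ) * hat v =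
        Real.log (n + 1 : ℕ) * (hat u - hat v) -
          (Real.log (n + 1 + 1 : ℕ) - Real.log (n + 1 : ℕ)) * hat v := by ring
    have h6 : 0 ≤ Real.log (n + 1 + 1 : ℕ) - Real.log (n + 1 : ℕ) := by
      have : Real.log (n + 1 : ℕ) ≤ Real.log (n + 1 + 1 : ℕ) := by
        apply Real.log_le_log (by positivity)
        push_cast; linarith
      linarith
    have h7 : 0 ≤ Real.log (n + 1 : ℕ) := Real.log_nonneg (by push_cast; linarith [Nat.cast_nonneg (α := ℝ) n])
    have h8 : Real.log (n + 1 : ℕ) ≤ Real.log (N + 1) := by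
      apply Real.log_le_log (by positivity)
      have : (n : ℝ) < N := by exact_mod_cast Finset.mem_range.1 hn
      push_cast; linarith
    rw [h5]
    refine (abs_sub _ _).trans ?_
    rw [abs_mul, abs_mul, abs_of_nonneg h7, abs_of_nonneg h6, abs_of_nonneg (hat_nonneg v), add_comm]
    refine add_le_add ?_ ?_
    · exact mul_le_of_le_one_right h6 (hat_le_one v)
    · exact mul_le_mul h8 (abs_hat_sub_le (log_mono_aux hd hX n)) (abs_nonneg _) hL
  refine (Finset.sum_le_sum h4).trans ?_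
  rw [Finset.sum_add_distrib, Finset.sum_range_sub (fun n => Real.log (n + 1 : ℕ)),
    ← Finset.mul_sum]
  have h9 := sum_clamp_le (fun n => Real.log (d * (n + 1 : ℕ) / X)) N
  have h10 : Real.log (N + 1) * ∑ i ∈ range N,
      (clamp (Real.log (d * (i + 1 + 1 : ℕ) / X)) - clamp (Real.log (d * (i + 1 : ℕ) / X))) ≤
      Real.log (N + 1) * 2 := mul_le_mul_of_nonneg_left h9 hL
  have h11 : Real.log ((0 : ℕ) + 1 : ℕ) = 0 := by simp
  rw [h11]
  push_cast at h10 ⊢
  linarith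

end prime

end Pool.Agent.H27.LS
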