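import Mathlib

/-!
# The additive large sieve (Gallagher's proof)
-/

set_option autoImplicit false

namespace Pool.Agent.H27.LS

open MeasureTheory Set Finset Complex

/-- Sobolev–Gallagher inequality. -/
lemma norm_le_integral {f f' : ℝ → ℂ} (hf : ∀ x, HasDerivAt f (f' x) x) (hc : Continuous f')
    {a b x : ℝ} (hab : a < b) (hx : x ∈ Set.Icc a b) :
    ‖f x‖ ≤ (b - a)⁻¹ * (∫ y in a..b, ‖f y‖) + ∫ y in a..b, ‖f' y‖ := by
  have hfc : Continuous f := continuous_iff_continuousAt.2 fun x => (hf x).continuousAt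
  have h1 : ∀ y ∈ Set.Icc a b, ‖f x‖ ≤ ‖f y‖ + ∫ z in a..b, ‖f' z‖ := by
    intro y hy
    have h2 : f x - f y = ∫ z in y..x, f' z := by
      rw [intervalIntegral.integral_eq_sub_of_hasDerivAt (fun z _ => hf z)
        (hc.intervalIntegrable _ _)]
    have h3 : ‖∫ z in y..x, f' z‖ ≤ ∫ z in a..b, ‖f' z‖ := by
      refine (intervalIntegral.norm_integral_le_abs_integral_norm).trans ?_
      rcases le_total y x with hyx | hyx
      · rw [abs_of_nonneg (intervalIntegral.integral_nonneg hyx fun _ _ => norm_nonneg _)]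
        exact intervalIntegral.integral_mono_interval hy.1 hyx hx.2
          (Filter.Eventually.of_forall fun _ => norm_nonneg _) (hc.norm.intervalIntegrable _ _)
      · rw [intervalIntegral.integral_symm, abs_neg,
          abs_of_nonneg (intervalIntegral.integral_nonneg hyx fun _ _ => norm_nonneg _)]
        exact intervalIntegral.integral_mono_interval hx.1 hyx hy.2
          (Filter.Eventually.of_forall fun _ => norm_nonneg _) (hc.norm.intervalIntegrable _ _)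
    calc ‖f x‖ = ‖f y + (f x - f y)‖ := by ring_nf
      _ ≤ ‖f y‖ + ‖f x - f y‖ := norm_add_le _ _
      _ ≤ _ := by rw [h2]; gcongr
  have h4 : ∫ y in a..b, ‖f x‖ ≤ ∫ y in a..b, (‖f y‖ + ∫ z in a..b, ‖f' z‖) :=
    intervalIntegral.integral_mono_on hab.le (by simp)
      ((hfc.norm.intervalIntegrable _ _).add (by simp)) h1
  rw [intervalIntegral.integral_const, intervalIntegral.integral_add
    (hfc.norm.intervalIntegrable _ _) (by simp), intervalIntegral.integral_const, smul_eq_mul,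
    smul_eq_mul] at h4
  have h5 : 0 < b - a := sub_pos.2 hab
  have h6 : ‖f x‖ = (b - a)⁻¹ * ((b - a) * ‖f x‖) := by field_simp
  rw [h6]
  calc (b - a)⁻¹ * ((b - a) * ‖f x‖)
      ≤ (b - a)⁻¹ * ((∫ y in a..b, ‖f y‖) + (b - a) * ∫ z in a..b, ‖f' z‖) := by gcongr
    _ = _ := by field_simp

/-- Integrals over the disjoint intervals around spaced points. -/
lemma sum_integral_le {g : ℝ → ℝ} (hg : Continuous g) (h0 : ∀ x, 0 ≤ g x) {δ : ℝ} (hδ : 0 < δ)
    {ι : Type*} (s : Finset ι) (r : ι → ℝ) (hr : ∀ i ∈ s, δ / 2 ≤ r i ∧ r i ≤ 1 - δ / 2)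
    (hsp : ∀ i ∈ s, ∀ j ∈ s, i ≠ j → δ ≤ |r i - r j|) :
    ∑ i ∈ s, ∫ y in (r i - δ / 2)..(r i + δ / 2), g y ≤ ∫ y in (0:ℝ)..1, g y := by
  have h1 : ∀ i ∈ s, ∫ y in (r i - δ / 2)..(r i + δ / 2), g y =
      ∫ y in Set.Ioc (r i - δ / 2) (r i + δ / 2), g y := by
    intro i _
    rw [intervalIntegral.integral_of_le (by linarith)]
  rw [Finset.sum_congr rfl h1, intervalIntegral.integral_of_le zero_le_one,
    ← integral_biUnion_finset]
  · refine setIntegral_mono_set ?_ (Filter.Eventually.of_forall h0) ?_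
    · exact (hg.integrableOn_Icc).mono_set Set.Ioc_subset_Icc_self
    · refine HasSubset.Subset.eventuallyLE ?_
      intro x hx
      rw [Set.mem_iUnion₂] at hx
      obtain ⟨i, hi, hx⟩ := hx
      exact ⟨by linarith [hx.1, (hr i hi).1], by linarith [hx.2, (hr i hi).2]⟩
  · exact fun i _ => measurableSet_Ioc
  · intro i hi j hj hij
    rw [Function.onFun, Set.disjoint_left]
    intro x hx hx'
    have := hsp i hi j hj hij
    rcases abs_cases (r i - r j) with h | h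
    · linarith [hx.1, hx.2, hx'.1, hx'.2]
    · linarith [hx.1, hx.2, hx'.1, hx'.2]
  · exact fun i _ => (hg.integrableOn_Icc).mono_set Set.Ioc_subset_Icc_self

/-- trigonometric polynomial -/
noncomputable def trig (a : ℕ → ℂ) (N : ℕ) (x : ℝ) : ℂ :=
  ∑ n ∈ range N, a n * exp (2 * Real.pi * I * n * x)

lemma trig_hasDerivAt (a : ℕ → ℂ) (N : ℕ) (x : ℝ) :
    HasDerivAt (trig a N) (trig (fun n => 2 * Real.pi * I * n * a n) N x) x := by
  unfold trig
  refine HasDerivAt.fun_sum fun n _ => ?_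
  have h1 : HasDerivAt (fun y : ℝ => (2 * Real.pi * I * n * (y : ℂ))) (2 * Real.pi * I * n) x := by
    simpa using (hasDerivAt_id x).ofReal_comp.const_mul (2 * Real.pi * I * n)
  have h2 := (h1.cexp).const_mul (a n)
  refine h2.congr_deriv ?_
  simp only []
  ring

lemma trig_continuous (a : ℕ → ℂ) (N : ℕ) : Continuous (trig a N) :=
  continuous_iff_continuousAt.2 fun x => (trig_hasDerivAt a N x).continuousAt

lemma integral_exp_int (m : ℤ) :
    ∫ x in (0:ℝ)..1, exp (2 * Real.pi * I * m * x) = if m = 0 then 1 else 0 := by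
  split_ifs with h
  · simp [h]
  · have hc : (2 * Real.pi * I * m : ℂ) ≠ 0 := by
      simp [Real.pi_ne_zero, h]
    rw [integral_exp_mul_complex hc]
    have h1 : exp (2 * Real.pi * I * m * (1:ℝ)) = 1 := by
      rw [exp_eq_one_iff]
      exact ⟨m, by push_cast; ring⟩
    rw [h1]
    simp

/-- Parseval for trigonometric polynomials -/
lemma integral_trig_sq (a : ℕ → ℂ) (N : ℕ) :
    ∫ x in (0:ℝ)..1, ‖trig a N x‖ ^ 2 = ∑ n ∈ range N, ‖a n‖ ^ 2 := by
  have h1 : ∀ x : ℝ, ((‖trig a N x‖ ^ 2 : ℝ) : ℂ) = ∑ n ∈ range N, ∑ m ∈ range N,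
      a n * (starRingEnd ℂ) (a m) * exp (2 * Real.pi * I * ((n : ℤ) - (m : ℤ) : ℤ) * x) := by
    intro x
    rw [← Complex.normSq_eq_norm_sq, ← Complex.mul_conj]
    unfold trig
    rw [map_sum, Finset.sum_mul_sum]
    refine Finset.sum_congr rfl fun n _ => Finset.sum_congr rfl fun m _ => ?_
    rw [map_mul, ← Complex.exp_conj]
    have : exp (2 * Real.pi * I * ((n : ℤ) - (m : ℤ) : ℤ) * x) =
        exp (2 * Real.pi * I * n * x) * exp ((starRingEnd ℂ) (2 * Real.pi * I * m * x)) := by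
      rw [← Complex.exp_add]
      congr 1
      simp only [map_mul, Complex.conj_ofReal, Complex.conj_I, map_natCast, map_ofNat]
      push_cast
      ring
    rw [this]
    ring
  have h2 : ((∫ x in (0:ℝ)..1, ‖trig a N x‖ ^ 2 : ℝ) : ℂ) = ((∑ n ∈ range N, ‖a n‖ ^ 2 : ℝ) : ℂ) := by
    rw [← intervalIntegral.integral_ofReal]
    rw [intervalIntegral.integral_congr (g := fun x : ℝ => ∑ n ∈ range N, ∑ m ∈ range N,
      a n * (starRingEnd ℂ) (a m) * exp (2 * Real.pi * I * ((n : ℤ) - (m : ℤ) : ℤ) * x))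
      (fun x _ => h1 x)]
    rw [intervalIntegral.integral_finsetSum]
    · rw [Complex.ofReal_sum]
      refine Finset.sum_congr rfl fun n hn => ?_
      rw [intervalIntegral.integral_finsetSum]
      · rw [Finset.sum_eq_single n]
        · rw [intervalIntegral.integral_const_mul, integral_exp_int]
          simp [Complex.mul_conj, Complex.normSq_eq_norm_sq]
        · intro m _ hm
          rw [intervalIntegral.integral_const_mul, integral_exp_int, if_neg (by omega), mul_zero]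
        · intro h; exact absurd hn h
      · intro m _
        exact (Continuous.intervalIntegrable (by fun_prop) _ _)
    · intro n _
      exact (Continuous.intervalIntegrable (by fun_prop) _ _)
  exact_mod_cast h2

/-- The additive large sieve inequality. -/
theorem additive_large_sieve (a : ℕ → ℂ) (N : ℕ) {δ : ℝ} (hδ : 0 < δ)
    {ι : Type*} (s : Finset ι) (r : ι → ℝ) (hr : ∀ i ∈ s, δ / 2 ≤ r i ∧ r i ≤ 1 - δ / 2)
    (hsp : ∀ i ∈ s, ∀ j ∈ s, i ≠ j → δ ≤ |r i - r j|) :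
    ∑ i ∈ s, ‖trig a N (r i)‖ ^ 2 ≤ (δ⁻¹ + 4 * Real.pi * N) * ∑ n ∈ range N, ‖a n‖ ^ 2 := by
  rcases Nat.eq_zero_or_pos N with rfl | hN
  · simp [trig]
  set T := trig a N with hT
  set T' := trig (fun n => 2 * Real.pi * I * n * a n) N with hT'
  have hTc : Continuous T := trig_continuous a N
  have hTc' : Continuous T' := trig_continuous _ N
  have hd : ∀ x, HasDerivAt (fun y => T y ^ 2) (2 * T x * T' x) x := by
    intro x
    refine ((trig_hasDerivAt a N x).fun_pow 2).congr_deriv ?_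
    simp [hT, hT']
  have hcont : Continuous fun x => 2 * T x * T' x := (continuous_const.mul hTc).mul hTc'
  have h1 : ∀ i ∈ s, ‖T (r i)‖ ^ 2 ≤ δ⁻¹ * (∫ y in (r i - δ / 2)..(r i + δ / 2), ‖T y‖ ^ 2) +
      ∫ y in (r i - δ / 2)..(r i + δ / 2), 2 * ‖T y‖ * ‖T' y‖ := by
    intro i _
    have h2 := norm_le_integral hd hcont (a := r i - δ / 2) (b := r i + δ / 2) (x := r i)
      (by linarith) ⟨by linarith, by linarith⟩
    have h3 : r i + δ / 2 - (r i - δ / 2) = δ := by ring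
    rw [h3] at h2
    simpa [norm_pow, norm_mul] using h2
  have h4 : ∑ i ∈ s, ∫ y in (r i - δ / 2)..(r i + δ / 2), ‖T y‖ ^ 2 ≤
      ∫ y in (0:ℝ)..1, ‖T y‖ ^ 2 :=
    sum_integral_le (g := fun y => ‖T y‖ ^ 2) (hTc.norm.pow 2) (fun _ => by positivity) hδ s r hr hsp
  have h5 : ∑ i ∈ s, ∫ y in (r i - δ / 2)..(r i + δ / 2), 2 * ‖T y‖ * ‖T' y‖ ≤
      ∫ y in (0:ℝ)..1, 2 * ‖T y‖ * ‖T' y‖ :=
    sum_integral_le (g := fun y => 2 * ‖T y‖ * ‖T' y‖) ((continuous_const.mul hTc.norm).mul hTc'.norm)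
      (fun _ => by positivity) hδ s r hr hsp
  set lam : ℝ := 2 * Real.pi * N with hlam
  have hlam0 : 0 < lam := by positivity
  have h6 : ∫ y in (0:ℝ)..1, 2 * ‖T y‖ * ‖T' y‖ ≤
      ∫ y in (0:ℝ)..1, (lam * ‖T y‖ ^ 2 + lam⁻¹ * ‖T' y‖ ^ 2) := by
    refine intervalIntegral.integral_mono_on zero_le_one
      (((continuous_const.mul hTc.norm).mul hTc'.norm).intervalIntegrable _ _)
      ((by fun_prop : Continuous fun y => lam * ‖T y‖ ^ 2 + lam⁻¹ * ‖T' y‖ ^ 2).intervalIntegrable _ _) ?_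
    intro y _
    have h7 : 0 ≤ lam⁻¹ * (lam * ‖T y‖ - ‖T' y‖) ^ 2 := by positivity
    have h8 : lam⁻¹ * (lam * ‖T y‖ - ‖T' y‖) ^ 2 =
        lam * ‖T y‖ ^ 2 + lam⁻¹ * ‖T' y‖ ^ 2 - 2 * ‖T y‖ * ‖T' y‖ := by
      field_simp
      ring
    linarith
  have h9 : ∫ y in (0:ℝ)..1, (lam * ‖T y‖ ^ 2 + lam⁻¹ * ‖T' y‖ ^ 2) =
      lam * (∑ n ∈ range N, ‖a n‖ ^ 2) +
        lam⁻¹ * ∑ n ∈ range N, ‖2 * Real.pi * I * n * a n‖ ^ 2 := by
    rw [intervalIntegral.integral_add
      ((by fun_prop : Continuous fun y => lam * ‖T y‖ ^ 2).intervalIntegrable _ _)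
      ((by fun_prop : Continuous fun y => lam⁻¹ * ‖T' y‖ ^ 2).intervalIntegrable _ _),
      intervalIntegral.integral_const_mul, intervalIntegral.integral_const_mul,
      hT, hT', integral_trig_sq, integral_trig_sq]
  have h10 : ∑ n ∈ range N, ‖2 * Real.pi * I * n * a n‖ ^ 2 ≤
      lam ^ 2 * ∑ n ∈ range N, ‖a n‖ ^ 2 := by
    rw [Finset.mul_sum]
    refine Finset.sum_le_sum fun n hn => ?_
    have h11 : ‖2 * Real.pi * I * n * a n‖ = 2 * Real.pi * n * ‖a n‖ := by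
      simp [abs_of_pos Real.pi_pos]
    rw [h11, ← mul_pow]
    have h12 : (n : ℝ) ≤ N := by exact_mod_cast (Finset.mem_range.1 hn).le
    rw [hlam]
    gcongr
  set E := ∑ n ∈ range N, ‖a n‖ ^ 2 with hE
  have hE0 : 0 ≤ E := Finset.sum_nonneg fun _ _ => by positivity
  calc ∑ i ∈ s, ‖T (r i)‖ ^ 2
      ≤ ∑ i ∈ s, (δ⁻¹ * (∫ y in (r i - δ / 2)..(r i + δ / 2), ‖T y‖ ^ 2) +
        ∫ y in (r i - δ / 2)..(r i + δ / 2), 2 * ‖T y‖ * ‖T' y‖) := Finset.sum_le_sum h1
    _ = δ⁻¹ * (∑ i ∈ s, ∫ y in (r i - δ / 2)..(r i + δ / 2), ‖T y‖ ^ 2) +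
        ∑ i ∈ s, ∫ y in (r i - δ / 2)..(r i + δ / 2), 2 * ‖T y‖ * ‖T' y‖ := by
      rw [Finset.sum_add_distrib, Finset.mul_sum]
    _ ≤ δ⁻¹ * E + (lam * E + lam⁻¹ * (lam ^ 2 * E)) := by
      have h13 : ∫ y in (0:ℝ)..1, ‖T y‖ ^ 2 = E := by rw [hT, integral_trig_sq]
      rw [h13] at h4
      rw [h9] at h6
      have h14 : lam⁻¹ * ∑ n ∈ range N, ‖2 * Real.pi * I * n * a n‖ ^ 2 ≤
          lam⁻¹ * (lam ^ 2 * E) := by gcongr
      have h15 : δ⁻¹ * (∑ i ∈ s, ∫ y in (r i - δ / 2)..(r i + δ / 2), ‖T y‖ ^ 2) ≤ δ⁻¹ * E := by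
        gcongr
      linarith
    _ = (δ⁻¹ + 4 * Real.pi * N) * E := by
      rw [hlam]
      field_simp
      ring

end Pool.Agent.H27.LS
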