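import Pool.Agent.H27.LS.Exist

/-!
# A prime modulus all of whose classes contain a small prime
-/

set_option autoImplicit false

namespace Pool.Agent.H27.LS

open Finset ArithmeticFunction

/-- numerical conditions on `Q`, all true for large `Q` -/
structure Big (Q : ℝ) : Prop where
  pos : 0 < Q
  one_le : 1000 ≤ Real.log Q
  pow_le : 10 ^ 70 * Real.log Q ^ 18 ≤ Q

lemma eventually_big : ∀ᶠ Q : ℝ in Filter.atTop, Big Q := by
  have h1 : ∀ᶠ Q : ℝ in Filter.atTop, (0 : ℝ) < Q := Filter.eventually_gt_atTop 0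
  have h2 : ∀ᶠ Q : ℝ in Filter.atTop, (1000 : ℝ) ≤ Real.log Q :=
    Real.tendsto_log_atTop.eventually_ge_atTop 1000
  have h3 := (Real.isLittleO_pow_log_id_atTop (n := 18)).bound (c := (10 ^ 70)⁻¹) (by norm_num)
  filter_upwards [h1, h2, h3] with Q hQ hl h
  refine ⟨hQ, hl, ?_⟩
  rw [Real.norm_eq_abs, Real.norm_eq_abs, id, abs_of_pos hQ, abs_of_nonneg (by positivity)] at h
  rw [inv_mul_eq_div, le_div_iff₀ (by norm_num)] at h
  linarith

/-- the size of the primes -/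
noncomputable def XX (Q : ℝ) : ℝ := 10 ^ 12 * Q ^ 2 * Real.log Q ^ 6

namespace Big

variable {Q : ℝ}

lemma log_pos (h : Big Q) : 0 < Real.log Q := by linarith [h.one_le]

lemma small (h : Big Q) {n : ℕ} (hn : n ≤ 18) : 10 ^ 70 * Real.log Q ^ n ≤ Q := by
  refine le_trans ?_ h.pow_le
  have h1 : (1 : ℝ) ≤ Real.log Q := by linarith [h.one_le]
  gcongr

lemma Q_ge (h : Big Q) : 10 ^ 70 ≤ Q := by
  have := h.small (n := 0) (by norm_num)
  simpa using this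

lemma log_le (h : Big Q) : 10 ^ 70 * Real.log Q ≤ Q := by
  have := h.small (n := 1) (by norm_num)
  simpa using this

lemma XX_pos (h : Big Q) : 0 < XX Q := by
  have := h.pos
  have := h.log_pos
  unfold XX
  positivity

lemma sqrt_XX (h : Big Q) : √(XX Q) = 10 ^ 6 * Q * Real.log Q ^ 3 := by
  have h1 := h.pos
  have h2 := h.log_pos
  have h3 : XX Q = (10 ^ 6 * Q * Real.log Q ^ 3) ^ 2 := by unfold XX; ring
  rw [h3, Real.sqrt_sq (by positivity)]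

lemma XX_ge (h : Big Q) : Q ^ 2 ≤ XX Q := by
  have h1 := h.pos
  have h2 : (1 : ℝ) ≤ Real.log Q := by linarith [h.one_le]
  have h3 : (1 : ℝ) ≤ Real.log Q ^ 6 := one_le_pow₀ h2
  unfold XX
  nlinarith [pow_pos h1 2]

lemma XX_le (h : Big Q) : 4 * XX Q + 4 ≤ Q ^ 3 := by
  have h1 := h.pos
  have h2 := h.small (n := 6) (by norm_num)
  have h3 : XX Q ≤ Q ^ 2 * (Q / 10 ^ 58) := by
    unfold XX
    have : 10 ^ 12 * Q ^ 2 * Real.log Q ^ 6 = Q ^ 2 * (10 ^ 70 * Real.log Q ^ 6 / 10 ^ 58) := by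
      ring
    rw [this]
    gcongr
  have h4 := h.Q_ge
  have h5 : (1 : ℝ) ≤ Q ^ 3 := one_le_pow₀ (by linarith)
  have h6 : (10 : ℝ) ≤ Q := by linarith
  have h7 : (10 : ℝ) ^ 3 ≤ Q ^ 3 := by gcongr
  have h8 : Q ^ 2 * (Q / 10 ^ 58) = Q ^ 3 / 10 ^ 58 := by ring
  rw [h8] at h3
  linarith

lemma log_bound (h : Big Q) {y : ℝ} (hy : 0 < y) (hy2 : y ≤ 4 * XX Q + 4) :
    Real.log y ≤ 3 * Real.log Q := by
  have h1 : Real.log y ≤ Real.log (Q ^ 3) := Real.log_le_log hy (hy2.trans h.XX_le)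
  rwa [Real.log_pow] at h1

lemma sqrt_mul (h : Big Q) : 10 ^ 35 * Real.log Q ^ 9 ≤ √Q := by
  have h2 := h.log_pos
  apply Real.le_sqrt_of_sq_le
  calc (10 ^ 35 * Real.log Q ^ 9) ^ 2 = 10 ^ 70 * Real.log Q ^ 18 := by ring
    _ ≤ Q := h.pow_le

lemma sqrt_le (h : Big Q) : √Q ≤ Q := by
  have h1 := h.Q_ge
  rw [Real.sqrt_le_left (by linarith)]
  nlinarith

lemma log_eight (h : Big Q) : Real.log (8 * Q) ≤ 2 * Real.log Q := by
  have h1 := h.pos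
  have h2 : Real.log (8 * Q) ≤ Real.log (Q ^ 2) :=
    Real.log_le_log (by positivity) (by nlinarith [h.Q_ge])
  rwa [Real.log_pow] at h2

lemma sqrt_eight (h : Big Q) : √(8 * Q) ≤ 3 * √Q := by
  rw [Real.sqrt_le_left (by positivity), mul_pow, Real.sq_sqrt h.pos.le]
  linarith [h.pos]

/-- many primes in `(Q, 8Q]` -/
lemma many_primes (h : Big Q) :
    18 / 10 * Q ≤
      (((Ioc ⌊Q⌋₊ ⌊8 * Q⌋₊).subtype Nat.Prime).card : ℝ) * Real.log Q := by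
  have h0 := h.pos
  have hl := h.log_pos
  have h1 := Chebyshev.theta_ge' (x := 8 * Q) (by nlinarith [h.Q_ge])
  have h2 := Chebyshev.theta_le_log4_mul_x (x := Q) h0.le
  have h3 : Chebyshev.theta (8 * Q) - Chebyshev.theta Q ≤
      (((Ioc ⌊Q⌋₊ ⌊8 * Q⌋₊).subtype Nat.Prime).card : ℝ) * Real.log (8 * Q) := by
    have hle : ⌊Q⌋₊ ≤ ⌊8 * Q⌋₊ := Nat.floor_le_floor (by linarith)
    have h4 : Chebyshev.theta (8 * Q) - Chebyshev.theta Q =
        ∑ p ∈ (Ioc ⌊Q⌋₊ ⌊8 * Q⌋₊).filter Nat.Prime, Real.log p := by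
      rw [Chebyshev.theta, Chebyshev.theta, sub_eq_iff_eq_add, Finset.sum_filter,
        Finset.sum_filter, Finset.sum_filter,
        ← Finset.sum_Ioc_consecutive _ (Nat.zero_le _) hle]
      ring
    rw [h4, Finset.card_subtype, ← nsmul_eq_mul]
    refine Finset.sum_le_card_nsmul _ _ _ fun p hp => ?_
    rw [mem_filter, mem_Ioc] at hp
    exact Real.log_le_log (by exact_mod_cast hp.2.pos)
      ((Nat.le_floor_iff (by positivity)).1 hp.1.2)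
  have h5 : (((Ioc ⌊Q⌋₊ ⌊8 * Q⌋₊).subtype Nat.Prime).card : ℝ) * Real.log (8 * Q) ≤
      (((Ioc ⌊Q⌋₊ ⌊8 * Q⌋₊).subtype Nat.Prime).card : ℝ) * (2 * Real.log Q) := by
    gcongr
    exact h.log_eight
  have h6 : 2 * √(8 * Q) * Real.log (8 * Q) ≤ 2 * (3 * √Q) * (2 * Real.log Q) := by
    have := h.log_eight
    have := h.sqrt_eight
    gcongr
    exact Real.log_nonneg (by nlinarith [h.Q_ge])
  have h7 : Real.log Q * 10 ^ 35 ≤ √Q := by
    refine le_trans ?_ h.sqrt_mul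
    have h8 : (1 : ℝ) ≤ Real.log Q := by linarith [h.one_le]
    have h9 : Real.log Q ^ 1 ≤ Real.log Q ^ 9 := pow_le_pow_right₀ h8 (by norm_num)
    nlinarith
  have h8 : √Q * √Q = Q := Real.mul_self_sqrt h0.le
  have h9 : 0 < √Q := Real.sqrt_pos.2 h0
  have h10 : √Q * (Real.log Q * 10 ^ 35) ≤ Q := by nlinarith
  have h11 : Real.log (8 * Q + 2) ≤ 3 * Real.log Q := by
    apply h.log_bound (by positivity)
    nlinarith [h.XX_ge, h.Q_ge]
  have h12 := h.log_le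
  have h13 := h.Q_ge
  have hl2 : 0.6931471803 < Real.log 2 := Real.log_two_gt_d9
  have hl3 : Real.log 2 < 0.6931471808 := Real.log_two_lt_d9
  have h4 : Real.log 4 = 2 * Real.log 2 := by
    rw [show (4 : ℝ) = 2 ^ 2 by norm_num, Real.log_pow]
    norm_num
  rw [h4] at h2
  have h14 : 55 / 10 * Q ≤ (8 * Q - 1) * Real.log 2 := by nlinarith
  have h15 : 2 * Real.log 2 * Q ≤ 14 / 10 * Q := by nlinarith
  nlinarith

/-- the main term is large -/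
lemma main_ge (h : Big Q) {N : ℕ} (hN : 3 * XX Q ≤ N) :
    123 / 1000 * XX Q ≤ ∑ n ∈ Icc 1 N, Λ n * hat (Real.log (n / XX Q)) := by
  have h0 := h.pos
  have hl := h.log_pos
  have hX1 : 10 ^ 70 ≤ XX Q := by nlinarith [h.XX_ge, h.Q_ge]
  have hX0 := h.XX_pos
  refine le_trans ?_ (main_sum_ge (by linarith) hN)
  have h1 := Chebyshev.psi_ge' (x := 8 / 5 * XX Q) (by positivity)
  have h2 := Chebyshev.psi_le (x := XX Q / 2) (by linarith)
  have h3 : Real.log (8 / 5 * XX Q + 2) ≤ 3 * Real.log Q :=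
    h.log_bound (by positivity) (by linarith)
  have h4 : Real.log (XX Q / 2) ≤ 3 * Real.log Q :=
    h.log_bound (by positivity) (by linarith)
  have h4' : 0 ≤ Real.log (XX Q / 2) := Real.log_nonneg (by linarith)
  have h5 : √(XX Q / 2) ≤ √(XX Q) := Real.sqrt_le_sqrt (by linarith)
  have h6 : 2 * √(XX Q / 2) * Real.log (XX Q / 2) ≤ 2 * √(XX Q) * (3 * Real.log Q) := by
    gcongr
  have h7 : Real.log Q * 10 ^ 6 ≤ √(XX Q) := by
    rw [h.sqrt_XX]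
    have h8 : (1 : ℝ) ≤ Real.log Q := by linarith [h.one_le]
    have h9 : Real.log Q ^ 1 ≤ Real.log Q ^ 3 := pow_le_pow_right₀ h8 (by norm_num)
    have h10 : (1 : ℝ) ≤ Q := by linarith [h.Q_ge]
    have h11 : Real.log Q ^ 3 ≤ Q * Real.log Q ^ 3 := by
      apply le_mul_of_one_le_left (by positivity) h10
    nlinarith
  have h8 : √(XX Q) * √(XX Q) = XX Q := Real.mul_self_sqrt hX0.le
  have h9 : 0 < √(XX Q) := Real.sqrt_pos.2 hX0
  have h10 : √(XX Q) * (Real.log Q * 10 ^ 6) ≤ XX Q := by nlinarith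
  have h10' : Real.log Q * 10 ^ 6 ≤ XX Q := by
    have h11 : 1 ≤ √(XX Q) := by
      rw [Real.one_le_sqrt]; linarith
    nlinarith
  have hl2 : 0.6931471803 < Real.log 2 := Real.log_two_gt_d9
  have hl3 : Real.log 2 < 0.6931471808 := Real.log_two_lt_d9
  have h4 : Real.log 4 = 2 * Real.log 2 := by
    rw [show (4 : ℝ) = 2 ^ 2 by norm_num, Real.log_pow]
    norm_num
  rw [h4] at h2
  have h14 : 4158 / 10000 * XX Q ≤ (8 / 5 * XX Q - 1) * Real.log 2 - XX Q * Real.log 2 := by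
    nlinarith
  nlinarith

/-- the total contribution of the nontrivial characters -/
lemma total_le (h : Big Q) (P : Finset Nat.Primes)
    (hP : ∀ q ∈ P, ((q : ℕ) : ℝ) ≤ 8 * Q) :
    ∑ x ∈ chars P, ‖TT (XX Q) ⌈3 * XX Q⌉₊ x‖ ≤ 2 * 10 ^ 10 * Q ^ 3 * Real.log Q ^ 5 := by
  have h0 := h.pos
  have hl := h.log_pos
  have hX1 : 10 ^ 70 ≤ XX Q := by nlinarith [h.XX_ge, h.Q_ge]
  have hX0 := h.XX_pos
  have hl1 : (1 : ℝ) ≤ Real.log Q := by linarith [h.one_le]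
  set l := Real.log Q with hldef
  set X := XX Q with hXdef
  set N := ⌈3 * X⌉₊ with hN
  set U := ⌈4 * 10 ^ 12 * l ^ 6⌉₊ with hU
  have hNge : 3 * X ≤ N := Nat.le_ceil _
  have hNle : (N : ℝ) ≤ 3 * X + 1 := (Nat.ceil_lt_add_one (by positivity)).le
  have hUge : 4 * 10 ^ 12 * l ^ 6 ≤ (U : ℝ) := Nat.le_ceil _
  have hl6 : (1 : ℝ) ≤ l ^ 6 := one_le_pow₀ hl1
  have hUle : (U : ℝ) ≤ 5 * 10 ^ 12 * l ^ 6 := by
    have := (Nat.ceil_lt_add_one (a := 4 * 10 ^ 12 * l ^ 6) (by positivity)).le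
    linarith
  have hU0 : (0 : ℝ) < U := by linarith
  have hU1 : 1 ≤ U := by exact_mod_cast (show (1 : ℝ) ≤ U by linarith)
  have hUX : 3 * (U : ℝ) ≤ X := by
    have h1 := h.small (n := 6) (by norm_num)
    have h2 := h.XX_ge
    have h3 := h.Q_ge
    nlinarith
  have hmv := mean_value P (K := 8 * Q) (by linarith [h.Q_ge]) hP hU1 (by linarith) hNge hUX
  refine hmv.trans ?_
  have hlogN1 : Real.log (N + 1) ≤ 3 * l := h.log_bound (by positivity) (by linarith)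
  have hlogX1 : Real.log (3 * X + 1) ≤ 3 * l := h.log_bound (by positivity) (by linarith)
  have hlogN : Real.log N ≤ 3 * l := h.log_bound (by linarith) (by linarith)
  have hN2 : (Nat.log 2 N : ℝ) + 1 ≤ 6 * l := by
    have h1 : (Nat.log 2 N : ℝ) ≤ Real.logb (2 : ℕ) N := Real.natLog_le_logb N 2
    have h2 : Real.logb (2 : ℕ) N ≤ 5 * l := by
      rw [Real.logb, Nat.cast_ofNat]
      have hl2 : 0.6931471803 < Real.log 2 := Real.log_two_gt_d9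
      rw [div_le_iff₀ (by linarith)]
      nlinarith
    linarith
  have hpv : pv (8 * Q) ≤ 9 * (√Q * l) := by
    have h1 := h.sqrt_eight
    have h2 := h.log_eight
    have h3 : 0 ≤ Real.log (8 * Q) := Real.log_nonneg (by linarith [h.Q_ge])
    unfold pv
    calc √(8 * Q) * (1 + Real.log (8 * Q)) ≤ (3 * √Q) * (3 * l) := by
          gcongr
          linarith
      _ = _ := by ring
  have hsq : √(X / U) ≤ Q / 2 := by
    rw [Real.sqrt_le_left (by positivity), div_le_iff₀ hU0]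
    calc X = (Q / 2) ^ 2 * (4 * 10 ^ 12 * l ^ 6) := by rw [hXdef, XX]; ring
      _ ≤ (Q / 2) ^ 2 * U := by gcongr
  have hsX : √X = 10 ^ 6 * Q * l ^ 3 := h.sqrt_XX
  have hpv0 : 0 ≤ pv (8 * Q) := pv_nonneg (by linarith [h.Q_ge])
  have hlogN0 : 0 ≤ Real.log (N + 1 : ℝ) := Real.log_nonneg (by linarith)
  have hlogX0 : 0 ≤ Real.log (3 * X + 1) := Real.log_nonneg (by linarith)
  have t1 : 5 * (U * U : ℝ) * Real.log (N + 1) * ((8 * Q) ^ 2 * pv (8 * Q)) ≤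
      5 * ((5 * 10 ^ 12 * l ^ 6) * (5 * 10 ^ 12 * l ^ 6)) * (3 * l) *
        ((8 * Q) ^ 2 * (9 * (√Q * l))) := by
    gcongr
  have t2 : (Nat.log 2 N + 1) *
        (4 * √X * Real.log (3 * X + 1) * ((8 * Q) ^ 2 + 16 * (8 * Q) * √(X / U) + 44 * √X)) ≤
      (6 * l) * (4 * (10 ^ 6 * Q * l ^ 3) * (3 * l) *
        ((8 * Q) ^ 2 + 16 * (8 * Q) * (Q / 2) + 44 * (10 ^ 6 * Q * l ^ 3))) := by
    rw [hsX]
    gcongr
  refine (add_le_add t1 t2).trans ?_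
  -- numerical comparison
  have hs : 10 ^ 35 * l ^ 9 ≤ √Q := h.sqrt_mul
  have hs2 : √Q * √Q = Q := Real.mul_self_sqrt h0.le
  have hs0 : 0 < √Q := Real.sqrt_pos.2 h0
  have k1 : 5 * ((5 * 10 ^ 12 * l ^ 6) * (5 * 10 ^ 12 * l ^ 6)) * (3 * l) *
        ((8 * Q) ^ 2 * (9 * (√Q * l))) =
      (216 * 10 ^ 27 / 10 ^ 35) * (Q ^ 2 * √Q * l ^ 5 * (10 ^ 35 * l ^ 9)) := by ring
  have k2 : Q ^ 2 * √Q * l ^ 5 * (10 ^ 35 * l ^ 9) ≤ Q ^ 2 * √Q * l ^ 5 * √Q := by gcongr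
  have k3 : Q ^ 2 * √Q * l ^ 5 * √Q = Q ^ 3 * l ^ 5 := by
    calc Q ^ 2 * √Q * l ^ 5 * √Q = Q ^ 2 * l ^ 5 * (√Q * √Q) := by ring
      _ = _ := by rw [hs2]; ring
  have k4 : (6 * l) * (4 * (10 ^ 6 * Q * l ^ 3) * (3 * l) *
        ((8 * Q) ^ 2 + 16 * (8 * Q) * (Q / 2) + 44 * (10 ^ 6 * Q * l ^ 3))) =
      9216 * 10 ^ 6 * (Q ^ 3 * l ^ 5) +
        (3168 * 10 ^ 12 / 10 ^ 70) * (Q ^ 2 * l ^ 5 * (10 ^ 70 * l ^ 3)) := by ring
  have k5 : Q ^ 2 * l ^ 5 * (10 ^ 70 * l ^ 3) ≤ Q ^ 2 * l ^ 5 * Q := by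
    have := h.small (n := 3) (by norm_num)
    gcongr
  have k6 : Q ^ 2 * l ^ 5 * Q = Q ^ 3 * l ^ 5 := by ring
  rw [k1, k4]
  rw [k3] at k2
  rw [k6] at k5
  have k7 : 0 ≤ Q ^ 3 * l ^ 5 := by positivity
  have k8 : 2 * 10 ^ 10 * Q ^ 3 * l ^ 5 = 2 * 10 ^ 10 * (Q ^ 3 * l ^ 5) := by ring
  rw [k8]
  generalize Q ^ 2 * √Q * l ^ 5 * (10 ^ 35 * l ^ 9) = A at *
  generalize Q ^ 2 * l ^ 5 * (10 ^ 70 * l ^ 3) = B at *
  generalize Q ^ 3 * l ^ 5 = C at *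
  linarith

end Big

open Classical in
/-- For large `Q` there is a prime modulus `q ∈ (Q, 8Q]` such that every reduced class modulo `q`
contains a prime between `X / 3` and `3 X`, where `X = 10 ^ 12 Q ^ 2 (log Q) ^ 6`. -/
theorem exists_modulus {Q : ℝ} (h : Big Q) : ∃ q : ℕ, q.Prime ∧ Q < q ∧ (q : ℝ) ≤ 8 * Q ∧
    ∀ a : ZMod q, a ≠ 0 → ∃ r : ℕ, r.Prime ∧ XX Q / 3 < r ∧ (r : ℝ) < 3 * XX Q ∧
      ((r : ℕ) : ZMod q) = a := by
  have h0 := h.pos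
  have hl := h.log_pos
  have hX1 : 10 ^ 70 ≤ XX Q := by nlinarith [h.XX_ge, h.Q_ge]
  have hX0 := h.XX_pos
  have hl1 : (1 : ℝ) ≤ Real.log Q := by linarith [h.one_le]
  set P : Finset Nat.Primes := (Ioc ⌊Q⌋₊ ⌊8 * Q⌋₊).subtype Nat.Prime with hPdef
  have hmem : ∀ q ∈ P, Q < ((q : ℕ) : ℝ) ∧ ((q : ℕ) : ℝ) ≤ 8 * Q := by
    intro q hq0
    have hq1 : (q : ℕ) ∈ Ioc ⌊Q⌋₊ ⌊8 * Q⌋₊ := Finset.mem_subtype.1 hq0
    have hq := mem_Ioc.1 hq1
    exact ⟨(Nat.floor_lt h0.le).1 hq.1, (Nat.le_floor_iff (by positivity)).1 hq.2⟩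
  have htot := h.total_le P fun q hq => (hmem q hq).2
  have hcard := h.many_primes
  have hP1 : (((Ioc ⌊Q⌋₊ ⌊8 * Q⌋₊).subtype Nat.Prime).card : ℝ) = (P.card : ℝ) := rfl
  rw [hP1] at hcard
  -- pigeonhole
  obtain ⟨q, hq, hqs⟩ : ∃ q ∈ P, ∑ χ ∈ univ.erase (1 : DirichletCharacter ℂ (q : ℕ)),
      ‖TT (XX Q) ⌈3 * XX Q⌉₊ ⟨q, χ⟩‖ ≤ 40 / 1000 * XX Q := by
    by_contra hc
    push Not at hc
    have h1 : ∑ x ∈ chars P, ‖TT (XX Q) ⌈3 * XX Q⌉₊ x‖ =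
        ∑ q ∈ P, ∑ χ ∈ univ.erase (1 : DirichletCharacter ℂ (q : ℕ)),
          ‖TT (XX Q) ⌈3 * XX Q⌉₊ ⟨q, χ⟩‖ := by
      rw [chars, Finset.sum_sigma]
    have h2 : P.card • (40 / 1000 * XX Q) ≤
        ∑ q ∈ P, ∑ χ ∈ univ.erase (1 : DirichletCharacter ℂ (q : ℕ)),
          ‖TT (XX Q) ⌈3 * XX Q⌉₊ ⟨q, χ⟩‖ :=
      Finset.card_nsmul_le_sum _ _ _ fun q hq => (hc q hq).le
    rw [← h1, nsmul_eq_mul] at h2
    have h3 := h2.trans htot
    have h4 : (P.card : ℝ) * Real.log Q * (40 / 1000 * XX Q) ≤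
        2 * 10 ^ 10 * Q ^ 3 * Real.log Q ^ 5 * Real.log Q := by
      nlinarith
    have h5 : 18 / 10 * Q * (40 / 1000 * XX Q) ≤
        2 * 10 ^ 10 * Q ^ 3 * Real.log Q ^ 5 * Real.log Q := by
      refine le_trans ?_ h4
      gcongr
    have h6 : 18 / 10 * Q * (40 / 1000 * XX Q) = 72 * 10 ^ 9 * (Q ^ 3 * Real.log Q ^ 6) := by
      unfold XX; ring
    have h7 : 2 * 10 ^ 10 * Q ^ 3 * Real.log Q ^ 5 * Real.log Q =
        20 * 10 ^ 9 * (Q ^ 3 * Real.log Q ^ 6) := by ring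
    rw [h6, h7] at h5
    have h8 : 0 < Q ^ 3 * Real.log Q ^ 6 := by positivity
    linarith
  obtain ⟨hq1, hq2⟩ := hmem q hq
  refine ⟨q, q.2, hq1, hq2, fun a ha => ?_⟩
  by_contra hc
  push Not at hc
  set N := ⌈3 * XX Q⌉₊ with hN
  have hNge : 3 * XX Q ≤ N := Nat.le_ceil _
  have hNle : (N : ℝ) ≤ 3 * XX Q + 1 := (Nat.ceil_lt_add_one (by positivity)).le
  have hN1 : 1 ≤ N := by exact_mod_cast (show (1 : ℝ) ≤ N by linarith)
  have hlogN : Real.log N ≤ 3 * Real.log Q := h.log_bound (by linarith) (by linarith)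
  have hlogN0 : 0 ≤ Real.log N := Real.log_nonneg (by exact_mod_cast hN1)
  have s1 := SS_le (X := XX Q) (by linarith) hN1 (q : ℕ) a (fun r hr h1 h2 => hc r hr h1 h2)
  have s2 := class_lower q ha (XX Q) N
  have s3 := TT_one_re q (XX Q) N
  have s4 := h.main_ge hNge
  -- multiples of q
  have s5 : ((N / (q : ℕ) : ℕ) : ℝ) * Real.log N ≤ 1 / 1000 * XX Q := by
    have h1 : ((N / (q : ℕ) : ℕ) : ℝ) ≤ (N : ℝ) / (q : ℕ) := Nat.cast_div_le
    have h2 : (N : ℝ) / (q : ℕ) ≤ 4 * XX Q / Q := by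
      apply div_le_div₀ (by positivity) (by linarith) h0 hq1.le
    have h3 : ((N / (q : ℕ) : ℕ) : ℝ) * Real.log N ≤ 4 * XX Q / Q * (3 * Real.log Q) := by
      gcongr
      exact h1.trans h2
    refine h3.trans ?_
    have h4 := h.log_le
    rw [div_mul_eq_mul_div, div_le_iff₀ h0]
    have h5 : 12 * Real.log Q ≤ 1 / 1000 * Q := by linarith
    nlinarith
  have s6 : 82 / 1000 * XX Q ≤ ((q : ℕ).totient : ℝ) * SS (XX Q) N q a := by
    have : (q : Nat.Primes) = q := rfl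
    linarith
  have s7 : ((q : ℕ).totient : ℝ) ≤ 8 * Q := by
    have : (((q : ℕ).totient : ℕ) : ℝ) ≤ ((q : ℕ) : ℝ) := by exact_mod_cast Nat.totient_le _
    linarith
  have s8 : √(N : ℝ) ≤ 2 * √(XX Q) := by
    rw [Real.sqrt_le_left (by positivity), mul_pow, Real.sq_sqrt hX0.le]
    linarith
  have s9 : SS (XX Q) N q a ≤ 2 * (2 * √(XX Q)) * (3 * Real.log Q) := by
    refine s1.trans ?_
    gcongr
  have s10 : ((q : ℕ).totient : ℝ) * SS (XX Q) N q a ≤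
      8 * Q * (2 * (2 * √(XX Q)) * (3 * Real.log Q)) := by
    by_cases hS : 0 ≤ SS (XX Q) N q a
    · gcongr
    · have : ((q : ℕ).totient : ℝ) * SS (XX Q) N q a ≤ 0 :=
        mul_nonpos_of_nonneg_of_nonpos (by positivity) (by linarith)
      refine this.trans (by positivity)
  have s11 := s6.trans s10
  rw [h.sqrt_XX] at s11
  have s12 : 8 * Q * (2 * (2 * (10 ^ 6 * Q * Real.log Q ^ 3)) * (3 * Real.log Q)) =
      96 * 10 ^ 6 * (Q ^ 2 * Real.log Q ^ 4) := by ring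
  have s13 : 82 / 1000 * XX Q = 82 * 10 ^ 9 * (Q ^ 2 * Real.log Q ^ 4) * Real.log Q ^ 2 := by
    unfold XX; ring
  rw [s12, s13] at s11
  have s14 : 0 < Q ^ 2 * Real.log Q ^ 4 := by positivity
  have s15 : (1 : ℝ) ≤ Real.log Q ^ 2 := one_le_pow₀ hl1
  nlinarith

end Pool.Agent.H27.LS
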