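import Mathlib

/-!
# Vaughan's identity and convolution sums
-/

set_option autoImplicit false

namespace Pool.Agent.H27.LS

open Finset ArithmeticFunction
open scoped ArithmeticFunction.Moebius ArithmeticFunction.zeta

/-- restriction to `n ≤ U` -/
noncomputable def cut (U : ℕ) (f : ArithmeticFunction ℝ) : ArithmeticFunction ℝ :=
  ⟨fun n => if n ≤ U then f n else 0, by simp⟩

lemma cut_apply (U : ℕ) (f : ArithmeticFunction ℝ) (n : ℕ) :
    cut U f n = if n ≤ U then f n else 0 := rfl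

/-- the coefficient function `∑_{c ∣ l, c > U} Λ(c)` -/
noncomputable def gam (U : ℕ) : ArithmeticFunction ℝ := (Λ - cut U Λ) * (ζ : ArithmeticFunction ℝ)

/-- `μ` restricted to `n > V` -/
noncomputable def muGT (V : ℕ) : ArithmeticFunction ℝ :=
  (μ : ArithmeticFunction ℝ) - cut V (μ : ArithmeticFunction ℝ)

/-- Vaughan's identity -/
theorem vaughan (U V : ℕ) :
    Λ = cut U Λ + cut V (μ : ArithmeticFunction ℝ) * ArithmeticFunction.log
      - (cut V (μ : ArithmeticFunction ℝ) * cut U Λ) * (ζ : ArithmeticFunction ℝ)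
      + muGT V * gam U := by
  have h1 : (μ : ArithmeticFunction ℝ) * (ζ : ArithmeticFunction ℝ) = 1 :=
    ArithmeticFunction.coe_moebius_mul_coe_zeta
  have h2 : Λ * (ζ : ArithmeticFunction ℝ) = ArithmeticFunction.log :=
    ArithmeticFunction.vonMangoldt_mul_zeta
  rw [muGT, gam, ← h2]
  have h3 : ((μ : ArithmeticFunction ℝ) - cut V (μ : ArithmeticFunction ℝ)) *
      ((Λ - cut U Λ) * (ζ : ArithmeticFunction ℝ)) =
      (Λ - cut U Λ) * ((μ : ArithmeticFunction ℝ) * (ζ : ArithmeticFunction ℝ)) -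
        cut V (μ : ArithmeticFunction ℝ) * ((Λ - cut U Λ) * (ζ : ArithmeticFunction ℝ)) := by
    ring
  rw [h3, h1]
  ring

/-- summing a convolution against a function supported on `[0, N]` -/
lemma sum_conv (f h : ArithmeticFunction ℝ) (g : ℕ → ℂ) (N : ℕ) (hg : ∀ n, N < n → g n = 0) :
    ∑ n ∈ Icc 1 N, (((f * h) n : ℝ) : ℂ) * g n =
      ∑ m ∈ range (N + 1), ∑ l ∈ range (N + 1), (f m : ℂ) * (h l : ℂ) * g (m * l) := by
  classical
  have h1 : ∀ n ∈ Icc 1 N, (((f * h) n : ℝ) : ℂ) * g n =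
      ∑ x ∈ (Icc 1 N ×ˢ Icc 1 N).filter (fun x => x.1 * x.2 = n),
        (f x.1 : ℂ) * (h x.2 : ℂ) * g (x.1 * x.2) := by
    intro n hn
    rw [mem_Icc] at hn
    rw [ArithmeticFunction.mul_apply, Complex.ofReal_sum, Finset.sum_mul]
    refine Finset.sum_congr ?_ ?_
    · ext ⟨m, l⟩
      simp only [Nat.mem_divisorsAntidiagonal, mem_filter, mem_product, mem_Icc]
      constructor
      · rintro ⟨rfl, h0⟩
        have hm : 0 < m := Nat.pos_of_ne_zero (by rintro rfl; simp at h0)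
        have hl : 0 < l := Nat.pos_of_ne_zero (by rintro rfl; simp at h0)
        refine ⟨⟨⟨hm, ?_⟩, ⟨hl, ?_⟩⟩, rfl⟩
        · exact (Nat.le_mul_of_pos_right m hl).trans hn.2
        · exact (Nat.le_mul_of_pos_left l hm).trans hn.2
      · rintro ⟨_, rfl⟩
        exact ⟨rfl, by omega⟩
    · intro x hx
      rw [mem_filter] at hx
      rw [hx.2]
      push_cast
      ring
  rw [Finset.sum_congr rfl h1]
  have h2 : ∑ n ∈ Icc 1 N, ∑ x ∈ (Icc 1 N ×ˢ Icc 1 N).filter (fun x => x.1 * x.2 = n),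
        (f x.1 : ℂ) * (h x.2 : ℂ) * g (x.1 * x.2) =
      ∑ x ∈ (Icc 1 N ×ˢ Icc 1 N).filter (fun x => x.1 * x.2 ≤ N),
        (f x.1 : ℂ) * (h x.2 : ℂ) * g (x.1 * x.2) := by
    rw [← Finset.sum_fiberwise_of_maps_to (s := (Icc 1 N ×ˢ Icc 1 N).filter
      (fun x => x.1 * x.2 ≤ N)) (t := Icc 1 N) (g := fun x => x.1 * x.2)]
    · refine Finset.sum_congr rfl fun n hn => Finset.sum_congr ?_ fun _ _ => rfl
      ext x
      simp only [mem_filter]
      rw [mem_Icc] at hn
      constructor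
      · rintro ⟨h1, h2⟩; exact ⟨⟨h1, h2 ▸ hn.2⟩, h2⟩
      · rintro ⟨⟨h1, _⟩, h2⟩; exact ⟨h1, h2⟩
    · intro x hx
      simp only [mem_filter, mem_product, mem_Icc] at hx ⊢
      exact ⟨Nat.mul_pos hx.1.1.1 hx.1.2.1, hx.2⟩
  rw [h2]
  have h3 : ∑ x ∈ (Icc 1 N ×ˢ Icc 1 N).filter (fun x => x.1 * x.2 ≤ N),
        (f x.1 : ℂ) * (h x.2 : ℂ) * g (x.1 * x.2) =
      ∑ x ∈ range (N + 1) ×ˢ range (N + 1), (f x.1 : ℂ) * (h x.2 : ℂ) * g (x.1 * x.2) := by
    refine Finset.sum_subset ?_ ?_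
    · intro x hx
      simp only [mem_filter, mem_product, mem_Icc, mem_range] at hx ⊢
      omega
    · rintro ⟨m, l⟩ hx hx'
      simp only [mem_filter, mem_product, mem_Icc, mem_range] at hx hx' ⊢
      by_cases hm : m = 0
      · simp [hm]
      by_cases hl : l = 0
      · simp [hl]
      rw [hg (m * l), mul_zero]
      by_contra h4
      exact hx' ⟨by omega, by omega⟩
  rw [h3, Finset.sum_product]

lemma gam_apply (U : ℕ) (l : ℕ) : gam U l = ∑ c ∈ l.divisors, (Λ c - cut U Λ c) := by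
  rw [gam, ArithmeticFunction.coe_mul_zeta_apply]
  rfl

lemma gam_nonneg (U l : ℕ) : 0 ≤ gam U l := by
  rw [gam_apply]
  refine Finset.sum_nonneg fun c _ => ?_
  rw [cut_apply]
  split_ifs
  · simp
  · simpa using vonMangoldt_nonneg

lemma gam_le_log (U l : ℕ) : gam U l ≤ Real.log l := by
  rw [gam_apply, ← vonMangoldt_sum]
  refine Finset.sum_le_sum fun c _ => ?_
  rw [cut_apply]
  split_ifs
  · simpa using vonMangoldt_nonneg
  · simp

lemma gam_eq_zero {U l : ℕ} (h : l ≤ U) : gam U l = 0 := by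
  rw [gam_apply]
  refine Finset.sum_eq_zero fun c hc => ?_
  rw [cut_apply, if_pos ((Nat.divisor_le hc).trans h), sub_self]

lemma muGT_eq_zero {V m : ℕ} (h : m ≤ V) : muGT V m = 0 := by
  have : muGT V m = (μ : ArithmeticFunction ℝ) m - cut V (μ : ArithmeticFunction ℝ) m := rfl
  rw [this, cut_apply, if_pos h, sub_self]

lemma abs_moebius_le (m : ℕ) : |(μ : ArithmeticFunction ℝ) m| ≤ 1 := by
  rw [ArithmeticFunction.intCoe_apply]
  exact_mod_cast ArithmeticFunction.abs_moebius_le_one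

lemma abs_muGT_le (V m : ℕ) : |muGT V m| ≤ 1 := by
  have : muGT V m = (μ : ArithmeticFunction ℝ) m - cut V (μ : ArithmeticFunction ℝ) m := rfl
  rw [this, cut_apply]
  split_ifs
  · simp
  · simpa using abs_moebius_le m

lemma abs_cut_moebius_le (V m : ℕ) : |cut V (μ : ArithmeticFunction ℝ) m| ≤ 1 := by
  rw [cut_apply]
  split_ifs
  · exact abs_moebius_le m
  · simp

lemma cut_eq_zero {V m : ℕ} (h : V < m) (f : ArithmeticFunction ℝ) : cut V f m = 0 := by
  rw [cut_apply, if_neg (by omega)]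

lemma conv_eq_zero {U V d : ℕ} (h : V * U < d) :
    (cut V (μ : ArithmeticFunction ℝ) * cut U Λ) d = 0 := by
  rw [ArithmeticFunction.mul_apply]
  refine Finset.sum_eq_zero fun x hx => ?_
  rw [Nat.mem_divisorsAntidiagonal] at hx
  by_cases h1 : x.1 ≤ V
  · by_cases h2 : x.2 ≤ U
    · exfalso
      have := Nat.mul_le_mul h1 h2
      omega
    · rw [cut_eq_zero (not_le.1 h2), mul_zero]
  · rw [cut_eq_zero (not_le.1 h1), zero_mul]

lemma abs_conv_le (U V d : ℕ) :
    |(cut V (μ : ArithmeticFunction ℝ) * cut U Λ) d| ≤ Real.log d := by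
  rw [ArithmeticFunction.mul_apply, ← vonMangoldt_sum]
  calc |∑ x ∈ d.divisorsAntidiagonal, cut V (μ : ArithmeticFunction ℝ) x.1 * cut U Λ x.2|
      ≤ ∑ x ∈ d.divisorsAntidiagonal, |cut V (μ : ArithmeticFunction ℝ) x.1 * cut U Λ x.2| :=
        Finset.abs_sum_le_sum_abs _ _
    _ ≤ ∑ x ∈ d.divisorsAntidiagonal, Λ x.2 := by
        refine Finset.sum_le_sum fun x _ => ?_
        rw [abs_mul]
        have h1 := abs_cut_moebius_le V x.1
        have h2 : |cut U Λ x.2| ≤ Λ x.2 := by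
          rw [cut_apply]
          split_ifs
          · rw [abs_of_nonneg vonMangoldt_nonneg]
          · simpa using vonMangoldt_nonneg
        calc |cut V (μ : ArithmeticFunction ℝ) x.1| * |cut U Λ x.2| ≤ 1 * Λ x.2 :=
              mul_le_mul h1 h2 (abs_nonneg _) zero_le_one
          _ = Λ x.2 := one_mul _
    _ = ∑ i ∈ d.divisors, Λ i := by
        rw [Nat.sum_divisorsAntidiagonal' (f := fun _ j => Λ j)]

end Pool.Agent.H27.LS
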