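import Pool.Agent.H27.LS.TypeTwo
import Pool.Agent.H27.LS.Vaughan

/-!
# The bilinear part of Vaughan's identity
-/

set_option autoImplicit false

namespace Pool.Agent.H27.LS

open Finset

/-- `log 3 ≥ 1` -/
lemma one_le_log_three : 1 ≤ Real.log 3 := by
  rw [Real.le_log_iff_exp_le (by norm_num)]
  have := Real.exp_one_lt_d9
  linarith

lemma hat_log_eq_zero_of_ge {X y : ℝ} (hX : 0 < X) (h : 3 * X ≤ y) :
    hat (Real.log (y / X)) = 0 := by
  apply hat_eq_zero
  have h1 : Real.log 3 ≤ Real.log (y / X) := by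
    apply Real.log_le_log (by norm_num)
    rwa [le_div_iff₀ hX]
  exact (one_le_log_three.trans h1).trans (le_abs_self _)

lemma hat_log_eq_zero_of_le {X y : ℝ} (hX : 0 < X) (hy : 0 < y) (h : 3 * y ≤ X) :
    hat (Real.log (y / X)) = 0 := by
  apply hat_eq_zero
  have h1 : Real.log (y / X) ≤ Real.log (3⁻¹) := by
    apply Real.log_le_log (by positivity)
    rw [div_le_iff₀ hX]
    linarith
  rw [Real.log_inv] at h1
  have := one_le_log_three
  refine le_trans ?_ (neg_le_abs _)
  linarith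

/-- the part of `muGT` in the dyadic block `j` -/
noncomputable def aj (U j m : ℕ) : ℂ := if Nat.log 2 m = j then (muGT U m : ℂ) else 0

/-- the matching part of `gam` -/
noncomputable def bj (U j : ℕ) (X : ℝ) (l : ℕ) : ℂ :=
  if X / 6 ≤ 2 ^ j * l ∧ 2 ^ j * l ≤ 3 * X then (gam U l : ℂ) else 0

lemma norm_aj_le (U j m : ℕ) : ‖aj U j m‖ ≤ 1 := by
  unfold aj
  split_ifs
  · rw [Complex.norm_real]; exact abs_muGT_le U m
  · simp

lemma norm_bj_le (U j : ℕ) {X : ℝ} (hX : 0 < X) (l : ℕ) : ‖bj U j X l‖ ≤ Real.log (3 * X + 1) := by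
  unfold bj
  split_ifs with h
  · rw [Complex.norm_real, Real.norm_of_nonneg (gam_nonneg U l)]
    refine (gam_le_log U l).trans ?_
    rcases Nat.eq_zero_or_pos l with rfl | hl
    · simp only [Nat.cast_zero, Real.log_zero]
      exact Real.log_nonneg (by linarith)
    · apply Real.log_le_log (by positivity)
      have h1 : (1 : ℝ) ≤ 2 ^ j := one_le_pow₀ (by norm_num)
      have h2 : (0 : ℝ) ≤ l := by positivity
      nlinarith [h.2]
  · rw [norm_zero]
    exact Real.log_nonneg (by linarith)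

/-- length of the second variable -/
noncomputable def Nj (X : ℝ) (j : ℕ) : ℕ := ⌊3 * X / 2 ^ j⌋₊ + 1

variable (w : ℕ → ℕ → ℂ)

lemma inner_eq (U : ℕ) {X : ℝ} (hX : 0 < X) {N : ℕ} (hN : 3 * X ≤ N)
    (hw : ∀ m l : ℕ, 0 < m → 0 < l → (3 * X ≤ m * l ∨ 3 * (m * l : ℝ) ≤ X) → w m l = 0) (m : ℕ) :
    ∑ l ∈ range (Nj X (Nat.log 2 m)),
      aj U (Nat.log 2 m) m * bj U (Nat.log 2 m) X l * w m l =
    ∑ l ∈ range (N + 1), (muGT U m : ℂ) * (gam U l : ℂ) * w m l := by
  rcases Nat.eq_zero_or_pos m with rfl | hm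
  · have : muGT U 0 = 0 := (muGT U).map_zero
    simp [aj, this]
  set j := Nat.log 2 m with hj
  have hj1 : 2 ^ j ≤ m := Nat.pow_log_le_self 2 hm.ne'
  have hj2 : m < 2 ^ (j + 1) := Nat.lt_pow_succ_log_self (by norm_num) m
  have hj1' : (2 : ℝ) ^ j ≤ m := by exact_mod_cast hj1
  have hj2' : (m : ℝ) < 2 ^ (j + 1) := by exact_mod_cast hj2
  have ha : aj U j m = (muGT U m : ℂ) := by rw [aj, if_pos rfl]
  have hp : (0 : ℝ) < 2 ^ j := by positivity
  have h1 : ∀ l : ℕ, bj U j X l * w m l = (gam U l : ℂ) * w m l := by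
    intro l
    unfold bj
    split_ifs with h
    · rfl
    · rcases Nat.eq_zero_or_pos l with rfl | hl
      · have : gam U 0 = 0 := (gam U).map_zero
        simp [this]
      · have hl' : (0 : ℝ) < l := by exact_mod_cast hl
        rw [hw m l hm hl, mul_zero, mul_zero]
        rw [not_and_or, not_le, not_le] at h
        rcases h with h | h
        · right
          have h2 : (m : ℝ) * l < 2 ^ (j + 1) * l := by gcongr
          rw [pow_succ] at h2
          nlinarith
        · left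
          nlinarith
  have h2 : ∀ l ∈ range (Nj X j), aj U j m * bj U j X l * w m l =
      (muGT U m : ℂ) * (gam U l : ℂ) * w m l := by
    intro l _
    rw [ha, mul_assoc, h1, mul_assoc]
  rw [Finset.sum_congr rfl h2]
  refine Finset.sum_subset ?_ ?_
  · apply Finset.range_mono
    unfold Nj
    have h3 : ⌊3 * X / 2 ^ j⌋₊ ≤ N := by
      apply Nat.floor_le_of_le
      rw [div_le_iff₀ hp]
      have : (1 : ℝ) ≤ 2 ^ j := one_le_pow₀ (by norm_num)
      have hN0 : (0 : ℝ) ≤ N := by positivity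
      nlinarith
    omega
  · intro l _ hl
    rw [Finset.mem_range, not_lt] at hl
    unfold Nj at hl
    have h3 : 3 * X / 2 ^ j < l := (Nat.lt_floor_add_one _).trans_le (by exact_mod_cast hl)
    have hl0 : 0 < l := by omega
    have hl' : (0 : ℝ) < l := by exact_mod_cast hl0
    rw [div_lt_iff₀ hp] at h3
    rw [hw m l hm hl0 (Or.inl (by nlinarith)), mul_zero]

lemma outer_eq (U : ℕ) {X : ℝ} (hX : 0 < X) {N : ℕ} (hN : 3 * X ≤ N)
    (hw : ∀ m l : ℕ, 0 < m → 0 < l → (3 * X ≤ m * l ∨ 3 * (m * l : ℝ) ≤ X) → w m l = 0) :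
    ∑ m ∈ range (N + 1), ∑ l ∈ range (N + 1), (muGT U m : ℂ) * (gam U l : ℂ) * w m l =
    ∑ j ∈ range (Nat.log 2 N + 1), ∑ m ∈ range (2 ^ (j + 1)), ∑ l ∈ range (Nj X j),
      aj U j m * bj U j X l * w m l := by
  set G : ℕ → ℂ := fun m => ∑ l ∈ range (N + 1), (muGT U m : ℂ) * (gam U l : ℂ) * w m l with hG
  have hG0 : ∀ m, N < m → G m = 0 := by
    intro m hm
    refine Finset.sum_eq_zero fun l _ => ?_
    rcases Nat.eq_zero_or_pos l with rfl | hl
    · have : gam U 0 = 0 := (gam U).map_zero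
      simp [this]
    · have h1 : (N : ℝ) < m := by exact_mod_cast hm
      have h2 : (1 : ℝ) ≤ l := by exact_mod_cast hl
      have h3 : (0 : ℝ) ≤ m := by positivity
      rw [hw m l (by omega) hl (Or.inl (by nlinarith)), mul_zero]
  have h1 : ∀ j ∈ range (Nat.log 2 N + 1),
      ∑ m ∈ range (2 ^ (j + 1)), ∑ l ∈ range (Nj X j), aj U j m * bj U j X l * w m l =
      ∑ m ∈ range (2 ^ (Nat.log 2 N + 1)), if Nat.log 2 m = j then G m else 0 := by
    intro j hj
    rw [Finset.mem_range] at hj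
    have h2 : ∀ m, ∑ l ∈ range (Nj X j), aj U j m * bj U j X l * w m l =
        if Nat.log 2 m = j then G m else 0 := by
      intro m
      split_ifs with h
      · subst h
        exact inner_eq w U hX hN hw m
      · exact Finset.sum_eq_zero fun l _ => by rw [aj, if_neg h, zero_mul, zero_mul]
    rw [Finset.sum_congr rfl fun m _ => h2 m]
    refine Finset.sum_subset ?_ ?_
    · apply Finset.range_mono
      exact Nat.pow_le_pow_right (by norm_num) (by omega)
    · intro m _ hm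
      rw [Finset.mem_range, not_lt] at hm
      rw [if_neg]
      intro h
      have := Nat.lt_pow_succ_log_self (b := 2) (by norm_num) m
      rw [h] at this
      omega
  rw [Finset.sum_congr rfl h1]
  conv_rhs => rw [Finset.sum_comm]
  have h3 : ∀ m ∈ range (2 ^ (Nat.log 2 N + 1)),
      (∑ j ∈ range (Nat.log 2 N + 1), if Nat.log 2 m = j then G m else 0) = G m := by
    intro m hm
    rw [Finset.sum_ite_eq, if_pos]
    rw [Finset.mem_range] at hm ⊢
    rcases Nat.eq_zero_or_pos m with rfl | hm0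
    · simp
    · exact Nat.log_lt_of_lt_pow hm0.ne' hm
  rw [Finset.sum_congr rfl h3]
  refine Finset.sum_subset ?_ ?_
  · apply Finset.range_mono
    exact Nat.lt_pow_succ_log_self (by norm_num) N
  · intro m _ hm
    rw [Finset.mem_range, not_lt] at hm
    exact hG0 m (by omega)

/-- the weight attached to a character -/
noncomputable def wt (X : ℝ) (x : CH) (m l : ℕ) : ℂ :=
  x.2 ((m * l : ℕ) : ZMod (x.1 : ℕ)) * (hat (Real.log (m * l / X)) : ℝ)

lemma wt_eq_zero {X : ℝ} (hX : 0 < X) (x : CH) (m l : ℕ) (hm : 0 < m) (hl : 0 < l)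
    (h : 3 * X ≤ m * l ∨ 3 * (m * l : ℝ) ≤ X) : wt X x m l = 0 := by
  unfold wt
  rcases h with h | h
  · rw [hat_log_eq_zero_of_ge hX h]; simp
  · rw [hat_log_eq_zero_of_le hX (by positivity) h]; simp

lemma sum_norm_aj (U j : ℕ) : ∑ n ∈ range (2 ^ (j + 1)), ‖aj U j n‖ ^ 2 ≤ 2 ^ (j + 1) := by
  calc ∑ n ∈ range (2 ^ (j + 1)), ‖aj U j n‖ ^ 2 ≤ ∑ n ∈ range (2 ^ (j + 1)), (1 : ℝ) := by
        refine Finset.sum_le_sum fun n _ => ?_
        have := norm_aj_le U j n
        exact pow_le_one₀ (norm_nonneg _) this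
    _ = 2 ^ (j + 1) := by simp

lemma sum_norm_bj (U j : ℕ) {X : ℝ} (hX : 0 < X) :
    ∑ n ∈ range (Nj X j), ‖bj U j X n‖ ^ 2 ≤ Nj X j * Real.log (3 * X + 1) ^ 2 := by
  calc ∑ n ∈ range (Nj X j), ‖bj U j X n‖ ^ 2
      ≤ ∑ n ∈ range (Nj X j), Real.log (3 * X + 1) ^ 2 := by
        refine Finset.sum_le_sum fun n _ => ?_
        exact pow_le_pow_left₀ (norm_nonneg _) (norm_bj_le U j hX n) 2
    _ = _ := by simp

/-- the bound for one dyadic block -/
lemma block_bound {K : ℝ} (hK : 0 ≤ K) {U : ℕ} (hU : 1 ≤ U) (j : ℕ) {X : ℝ} (hX : 1 ≤ X) :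
    √((K ^ 2 + 4 * Real.pi * (2 ^ (j + 1) : ℕ)) * ∑ n ∈ range (2 ^ (j + 1)), ‖aj U j n‖ ^ 2) *
      √((K ^ 2 + 4 * Real.pi * Nj X j) * ∑ n ∈ range (Nj X j), ‖bj U j X n‖ ^ 2) ≤
    4 * √X * Real.log (3 * X + 1) * (K ^ 2 + 16 * K * √(X / U) + 44 * √X) := by
  have hX0 : 0 < X := by linarith
  have hU0 : (0 : ℝ) < U := by exact_mod_cast hU
  set L := Real.log (3 * X + 1) with hL
  have hL0 : 0 ≤ L := Real.log_nonneg (by linarith)
  have hR : 0 ≤ 4 * √X * L * (K ^ 2 + 16 * K * √(X / U) + 44 * √X) := by positivity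
  by_cases ha : ∀ n ∈ range (2 ^ (j + 1)), aj U j n = 0
  · have : ∑ n ∈ range (2 ^ (j + 1)), ‖aj U j n‖ ^ 2 = 0 :=
      Finset.sum_eq_zero fun n hn => by rw [ha n hn]; simp
    rw [this, mul_zero, Real.sqrt_zero, zero_mul]
    exact hR
  by_cases hb : ∀ n ∈ range (Nj X j), bj U j X n = 0
  · have : ∑ n ∈ range (Nj X j), ‖bj U j X n‖ ^ 2 = 0 :=
      Finset.sum_eq_zero fun n hn => by rw [hb n hn]; simp
    rw [this, mul_zero, Real.sqrt_zero, mul_zero]
    exact hR
  push Not at ha hb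
  obtain ⟨m, hm, ha⟩ := ha
  obtain ⟨l, hl, hb⟩ := hb
  have hm1 : U < m := by
    by_contra h
    apply ha
    unfold aj
    split_ifs
    · rw [muGT_eq_zero (not_lt.1 h)]; simp
    · rfl
  have hm2 : m < 2 ^ (j + 1) := Finset.mem_range.1 hm
  have hl1 : U < l := by
    by_contra h
    apply hb
    unfold bj
    split_ifs
    · rw [gam_eq_zero (not_lt.1 h)]; simp
    · rfl
  have hl2 : (2 : ℝ) ^ j * l ≤ 3 * X := by
    by_contra h
    apply hb
    unfold bj
    rw [if_neg (fun h' => h h'.2)]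
  set M : ℝ := 2 ^ j with hM
  have hM0 : 0 < M := by positivity
  have hmM : (U : ℝ) < 2 * M := by
    have h1 : (U : ℝ) < m := by exact_mod_cast hm1
    have h2 : (m : ℝ) < 2 ^ (j + 1) := by exact_mod_cast hm2
    rw [pow_succ] at h2
    linarith
  have hlM : M * U ≤ 3 * X := by
    have h1 : (U : ℝ) < l := by exact_mod_cast hl1
    nlinarith
  have hM3 : M ≤ 3 * X := by
    have : (1 : ℝ) ≤ U := by exact_mod_cast hU
    nlinarith
  have hN1 : ((2 ^ (j + 1) : ℕ) : ℝ) = 2 * M := by rw [hM]; push_cast; ring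
  have hN2 : (Nj X j : ℝ) ≤ 6 * X / M := by
    unfold Nj
    push_cast
    have h1 : (⌊3 * X / 2 ^ j⌋₊ : ℝ) ≤ 3 * X / M := Nat.floor_le (by positivity)
    have h2 : 1 ≤ 3 * X / M := by rwa [one_le_div hM0]
    have h3 : 6 * X / M = 3 * X / M + 3 * X / M := by ring
    rw [h3]
    linarith
  have hN2' : (Nj X j : ℝ) ≤ 12 * (X / U) := by
    refine hN2.trans ?_
    rw [div_le_iff₀ hM0]
    have : 12 * (X / U) * M = 6 * X * (2 * M) / U := by field_simp; ring
    rw [this, le_div_iff₀ hU0]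
    nlinarith
  have hN1' : 2 * M ≤ 6 * (X / U) := by
    have : 6 * (X / U) = 2 * (3 * X) / U := by ring
    rw [this, le_div_iff₀ hU0]
    nlinarith
  have hN12 : 2 * M * (Nj X j : ℝ) ≤ 12 * X := by
    calc 2 * M * (Nj X j : ℝ) ≤ 2 * M * (6 * X / M) := by gcongr
      _ = 12 * X := by field_simp; ring
  have hpi : Real.pi < 3.15 := Real.pi_lt_d2
  have hpi0 := Real.pi_pos
  rw [← Real.sqrt_mul (by positivity)]
  apply Real.sqrt_le_iff.2
  refine ⟨hR, ?_⟩
  have hA := sum_norm_aj U j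
  have hB := sum_norm_bj U j (X := X) hX0
  rw [← hL] at hB
  have hA' : ∑ n ∈ range (2 ^ (j + 1)), ‖aj U j n‖ ^ 2 ≤ 2 * M := by
    have h9 : (2 : ℝ) ^ (j + 1) = 2 * M := by rw [hM, pow_succ]; ring
    linarith
  set N2 : ℝ := (Nj X j : ℝ) with hN2def
  have hN20 : 0 ≤ N2 := by positivity
  have hsX : √X ^ 2 = X := Real.sq_sqrt hX0.le
  have hsU : √(X / U) ^ 2 = X / U := Real.sq_sqrt (by positivity)
  calc (K ^ 2 + 4 * Real.pi * (2 ^ (j + 1) : ℕ)) * (∑ n ∈ range (2 ^ (j + 1)), ‖aj U j n‖ ^ 2) *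
        ((K ^ 2 + 4 * Real.pi * N2) * ∑ n ∈ range (Nj X j), ‖bj U j X n‖ ^ 2)
      ≤ (K ^ 2 + 4 * Real.pi * (2 * M)) * (2 * M) * ((K ^ 2 + 4 * Real.pi * N2) * (N2 * L ^ 2)) := by
        rw [hN1]
        gcongr
    _ = (2 * M * N2) * L ^ 2 * (K ^ 4 + 4 * Real.pi * K ^ 2 * (2 * M + N2) +
          16 * Real.pi ^ 2 * (2 * M * N2)) := by ring
    _ ≤ (12 * X) * L ^ 2 * (K ^ 4 + 4 * Real.pi * K ^ 2 * (6 * (X / U) + 12 * (X / U)) +
          16 * Real.pi ^ 2 * (12 * X)) := by
        gcongr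
    _ ≤ (16 * X) * L ^ 2 * (K ^ 4 + 256 * K ^ 2 * (X / U) + 1936 * X) := by
        have h1 : 4 * Real.pi * K ^ 2 * (6 * (X / U) + 12 * (X / U)) ≤ 256 * K ^ 2 * (X / U) := by
          have : 4 * Real.pi * K ^ 2 * (6 * (X / U) + 12 * (X / U)) =
              (72 * Real.pi) * (K ^ 2 * (X / U)) := by ring
          rw [this]
          have h2 : 0 ≤ K ^ 2 * (X / U) := by positivity
          nlinarith
        have h2 : 16 * Real.pi ^ 2 * (12 * X) ≤ 1936 * X := by
          have : Real.pi ^ 2 ≤ 9.9225 := by nlinarith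
          nlinarith
        gcongr
        norm_num
    _ ≤ (4 * √X * L * (K ^ 2 + 16 * K * √(X / U) + 44 * √X)) ^ 2 := by
        have h3 : (4 * √X * L * (K ^ 2 + 16 * K * √(X / U) + 44 * √X)) ^ 2 =
            16 * √X ^ 2 * L ^ 2 * (K ^ 2 + 16 * K * √(X / U) + 44 * √X) ^ 2 := by ring
        rw [h3, hsX]
        have h4 : K ^ 4 + 256 * K ^ 2 * (X / U) + 1936 * X ≤
            (K ^ 2 + 16 * K * √(X / U) + 44 * √X) ^ 2 := by
          have h5 : (K ^ 2 + 16 * K * √(X / U) + 44 * √X) ^ 2 =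
              K ^ 4 + 256 * K ^ 2 * √(X / U) ^ 2 + 1936 * √X ^ 2 +
                (32 * K ^ 3 * √(X / U) + 88 * K ^ 2 * √X + 1408 * K * √(X / U) * √X) := by ring
          rw [h5, hsX, hsU]
          have : 0 ≤ 32 * K ^ 3 * √(X / U) + 88 * K ^ 2 * √X + 1408 * K * √(X / U) * √X := by
            positivity
          linarith
        gcongr

/-- the bilinear part of Vaughan's identity, summed over all characters -/
theorem sum_bilinear_le (P : Finset Nat.Primes) {K : ℝ} (hK0 : 0 ≤ K)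
    (hK : ∀ q ∈ P, ((q : ℕ) : ℝ) ≤ K) {U : ℕ} (hU : 1 ≤ U) {X : ℝ} (hX : 1 ≤ X) {N : ℕ}
    (hN : 3 * X ≤ N) :
    ∑ x ∈ chars P, ‖∑ m ∈ range (N + 1), ∑ l ∈ range (N + 1),
      (muGT U m : ℂ) * (gam U l : ℂ) * wt X x m l‖ ≤
    (Nat.log 2 N + 1) *
      (4 * √X * Real.log (3 * X + 1) * (K ^ 2 + 16 * K * √(X / U) + 44 * √X)) := by
  have hX0 : 0 < X := by linarith
  calc _ ≤ ∑ x ∈ chars P, ∑ j ∈ range (Nat.log 2 N + 1),
        ‖∑ m ∈ range (2 ^ (j + 1)), ∑ l ∈ range (Nj X j), aj U j m * bj U j X l * wt X x m l‖ := by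
        refine Finset.sum_le_sum fun x _ => ?_
        rw [outer_eq (wt X x) U hX0 hN (wt_eq_zero hX0 x)]
        exact norm_sum_le _ _
    _ = ∑ j ∈ range (Nat.log 2 N + 1), ∑ x ∈ chars P,
        ‖∑ m ∈ range (2 ^ (j + 1)), ∑ l ∈ range (Nj X j), aj U j m * bj U j X l * wt X x m l‖ :=
        Finset.sum_comm
    _ ≤ ∑ j ∈ range (Nat.log 2 N + 1),
        (4 * √X * Real.log (3 * X + 1) * (K ^ 2 + 16 * K * √(X / U) + 44 * √X)) := by
        refine Finset.sum_le_sum fun j _ => ?_
        refine le_trans ?_ (block_bound hK0 hU j hX)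
        have h := type_two P hK (aj U j) (bj U j X) (2 ^ (j + 1)) (Nj X j) hX0 ?_
        · refine le_trans (le_of_eq ?_) h
          refine Finset.sum_congr rfl fun x _ => ?_
          congr 1
          refine Finset.sum_congr rfl fun m _ => Finset.sum_congr rfl fun l _ => ?_
          rw [wt]
          ring
        · intro m hm l hl ha hb
          have hm0 : 0 < m := by
            rcases Nat.eq_zero_or_pos m with rfl | h
            · exfalso; apply ha
              have : muGT U 0 = 0 := (muGT U).map_zero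
              simp [aj, this]
            · exact h
          have hl0 : 0 < l := by
            rcases Nat.eq_zero_or_pos l with rfl | h
            · exfalso; apply hb
              have : gam U 0 = 0 := (gam U).map_zero
              simp [bj, this]
            · exact h
          refine ⟨hm0, hl0, ?_⟩
          have hj : Nat.log 2 m = j := by
            by_contra h
            exact ha (if_neg h)
          have hbc : X / 6 ≤ 2 ^ j * l ∧ 2 ^ j * l ≤ 3 * X := by
            by_contra h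
            exact hb (if_neg h)
          have hj1 : 2 ^ j ≤ m := by rw [← hj]; exact Nat.pow_log_le_self 2 hm0.ne'
          have hj2 : m < 2 ^ (j + 1) := by
            rw [← hj]; exact Nat.lt_pow_succ_log_self (by norm_num) m
          have hj1' : (2 : ℝ) ^ j ≤ m := by exact_mod_cast hj1
          have hj2' : (m : ℝ) < 2 ^ (j + 1) := by exact_mod_cast hj2
          rw [pow_succ] at hj2'
          have hl' : (0 : ℝ) < l := by exact_mod_cast hl0
          have hm' : (0 : ℝ) < m := by exact_mod_cast hm0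
          have h1 : X / 6 ≤ m * l := hbc.1.trans (by gcongr)
          have h2 : (m : ℝ) * l ≤ 6 * X := by nlinarith [hbc.2]
          have hl6 : Real.log 6 ≤ 5 := by
            have := Real.log_le_sub_one_of_pos (x := 6) (by norm_num)
            linarith
          rw [abs_le]
          constructor
          · have h3 : Real.log (6⁻¹) ≤ Real.log (m * l / X) := by
              apply Real.log_le_log (by norm_num)
              rw [le_div_iff₀ hX0]
              linarith
            rw [Real.log_inv] at h3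
            linarith
          · have h3 : Real.log (m * l / X) ≤ Real.log 6 := by
              apply Real.log_le_log (by positivity)
              rwa [div_le_iff₀ hX0]
            linarith
    _ = _ := by simp

end Pool.Agent.H27.LS
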