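import Pool.Agent.H27.LS.Mean

/-!
# Primes in all residue classes of some modulus
-/

set_option autoImplicit false

namespace Pool.Agent.H27.LS

open Finset ArithmeticFunction
open scoped ArithmeticFunction.Moebius ArithmeticFunction.zeta

/-- weighted prime power sum over a residue class -/
noncomputable def SS (X : ℝ) (N : ℕ) (q : ℕ) (a : ZMod q) : ℝ :=
  ∑ n ∈ (Icc 1 N).filter (fun n => ((n : ℕ) : ZMod q) = a), Λ n * hat (Real.log (n / X))

lemma class_identity (q : Nat.Primes) {a : ZMod (q : ℕ)} (ha : a ≠ 0) (X : ℝ) (N : ℕ) :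
    ((q : ℕ).totient : ℂ) * (SS X N q a : ℂ) =
      ∑ χ : DirichletCharacter ℂ (q : ℕ), χ a⁻¹ * TT X N ⟨q, χ⟩ := by
  have := Fact.mk q.2
  have hu : IsUnit a := ha.isUnit
  have h1 : ∀ χ : DirichletCharacter ℂ (q : ℕ), χ a⁻¹ * TT X N ⟨q, χ⟩ =
      ∑ n ∈ Icc 1 N, (Λ n : ℂ) * (hat (Real.log (n / X)) : ℝ) * (χ a⁻¹ * χ (n : ZMod (q : ℕ))) := by
    intro χ
    rw [TT, Finset.mul_sum]
    refine Finset.sum_congr rfl fun n _ => ?_
    ring
  rw [Finset.sum_congr rfl fun χ _ => h1 χ, Finset.sum_comm]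
  have h2 : ∀ n ∈ Icc 1 N, ∑ χ : DirichletCharacter ℂ (q : ℕ),
      (Λ n : ℂ) * (hat (Real.log (n / X)) : ℝ) * (χ a⁻¹ * χ (n : ZMod (q : ℕ))) =
      if ((n : ℕ) : ZMod (q : ℕ)) = a then
        ((q : ℕ).totient : ℂ) * ((Λ n * hat (Real.log (n / X)) : ℝ) : ℂ) else 0 := by
    intro n _
    rw [← Finset.mul_sum, DirichletCharacter.sum_char_inv_mul_char_eq ℂ hu]
    by_cases h : ((n : ℕ) : ZMod (q : ℕ)) = a
    · rw [if_pos h.symm, if_pos h]
      push_cast
      ring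
    · rw [if_neg (fun h' => h h'.symm), if_neg h, mul_zero]
  rw [Finset.sum_congr rfl h2, ← Finset.sum_filter, ← Finset.mul_sum, SS]
  push_cast
  rfl

open Classical in
lemma class_lower (q : Nat.Primes) {a : ZMod (q : ℕ)} (ha : a ≠ 0) (X : ℝ) (N : ℕ) :
    (TT X N ⟨q, 1⟩).re - ∑ χ ∈ univ.erase (1 : DirichletCharacter ℂ (q : ℕ)), ‖TT X N ⟨q, χ⟩‖ ≤
      ((q : ℕ).totient : ℝ) * SS X N q a := by
  have h1 := congrArg Complex.re (class_identity q ha X N)
  have hsplit : ∑ χ : DirichletCharacter ℂ (q : ℕ), χ a⁻¹ * TT X N ⟨q, χ⟩ =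
      (1 : DirichletCharacter ℂ (q : ℕ)) a⁻¹ * TT X N ⟨q, 1⟩ +
      ∑ χ ∈ univ.erase (1 : DirichletCharacter ℂ (q : ℕ)), χ a⁻¹ * TT X N ⟨q, χ⟩ :=
    (Finset.add_sum_erase _ _ (Finset.mem_univ (1 : DirichletCharacter ℂ (q : ℕ)))).symm
  rw [hsplit, Complex.add_re] at h1
  have h2 : (((q : ℕ).totient : ℂ) * (SS X N q a : ℂ)).re = ((q : ℕ).totient : ℝ) * SS X N q a := by
    rw [← Complex.ofReal_natCast, ← Complex.ofReal_mul, Complex.ofReal_re]
  have h3 : (1 : DirichletCharacter ℂ (q : ℕ)) a⁻¹ = 1 := by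
    have := Fact.mk q.2
    exact MulChar.one_apply (inv_ne_zero ha).isUnit
  rw [h2, h3, one_mul] at h1
  rw [h1]
  have h4 : |(∑ χ ∈ univ.erase (1 : DirichletCharacter ℂ (q : ℕ)), χ a⁻¹ * TT X N ⟨q, χ⟩).re| ≤
      ∑ χ ∈ univ.erase (1 : DirichletCharacter ℂ (q : ℕ)), ‖TT X N ⟨q, χ⟩‖ := by
    refine (Complex.abs_re_le_norm _).trans ((norm_sum_le _ _).trans ?_)
    refine Finset.sum_le_sum fun χ _ => ?_
    rw [norm_mul]
    exact mul_le_of_le_one_left (norm_nonneg _) (DirichletCharacter.norm_le_one χ _)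
  have h5 := neg_abs_le
    (∑ χ ∈ univ.erase (1 : DirichletCharacter ℂ (q : ℕ)), χ a⁻¹ * TT X N ⟨q, χ⟩).re
  linarith

lemma TT_one_re (q : Nat.Primes) (X : ℝ) (N : ℕ) :
    ∑ n ∈ Icc 1 N, Λ n * hat (Real.log (n / X)) - (N / (q : ℕ) : ℕ) * Real.log N ≤
      (TT X N ⟨q, 1⟩).re := by
  have := Fact.mk q.2
  have h1 : TT X N ⟨q, 1⟩ = ((∑ n ∈ Icc 1 N, (Λ n * hat (Real.log (n / X)) -
      if (q : ℕ) ∣ n then Λ n * hat (Real.log (n / X)) else 0) : ℝ) : ℂ) := by
    rw [TT]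
    push_cast
    refine Finset.sum_congr rfl fun n _ => ?_
    by_cases h : (q : ℕ) ∣ n
    · have h2 : ((n : ℕ) : ZMod (q : ℕ)) = 0 := (ZMod.natCast_eq_zero_iff n q).2 h
      simp only [if_pos h]
      rw [h2, MulChar.map_zero]
      simp
    · have h2 : ((n : ℕ) : ZMod (q : ℕ)) ≠ 0 := fun h' => h ((ZMod.natCast_eq_zero_iff n q).1 h')
      simp only [if_neg h]
      rw [MulChar.one_apply h2.isUnit]
      simp
  rw [h1, Complex.ofReal_re, Finset.sum_sub_distrib, ← Finset.sum_filter]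
  have h3 : ∑ n ∈ (Icc 1 N).filter (fun n => (q : ℕ) ∣ n), Λ n * hat (Real.log (n / X)) ≤
      ((Icc 1 N).filter (fun n => (q : ℕ) ∣ n)).card • Real.log N := by
    refine Finset.sum_le_card_nsmul _ _ _ fun n hn => ?_
    rw [mem_filter, mem_Icc] at hn
    have h4 : Λ n ≤ Real.log n := vonMangoldt_le_log
    have h5 : Real.log n ≤ Real.log N :=
      Real.log_le_log (by exact_mod_cast hn.1.1) (by exact_mod_cast hn.1.2)
    have h6 := hat_le_one (Real.log (n / X))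
    have h7 := hat_nonneg (Real.log (n / X))
    have h8 : 0 ≤ Λ n := vonMangoldt_nonneg
    calc Λ n * hat (Real.log (n / X)) ≤ Λ n * 1 := by gcongr
      _ ≤ _ := by linarith
  have h9 : ((Icc 1 N).filter (fun n => (q : ℕ) ∣ n)).card = N / (q : ℕ) := by
    have := Nat.Ioc_filter_dvd_card_eq_div N (q : ℕ)
    rw [← this]
    congr 1
  rw [h9, nsmul_eq_mul] at h3
  linarith

open Chebyshev in
/-- the main term -/
lemma main_sum_ge {X : ℝ} (hX : 1 ≤ X) {N : ℕ} (hN : 3 * X ≤ N) :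
    3 / 10 * (psi (8 / 5 * X) - psi (X / 2)) ≤ ∑ n ∈ Icc 1 N, Λ n * hat (Real.log (n / X)) := by
  have hX0 : 0 < X := by linarith
  have hle : ⌊X / 2⌋₊ ≤ ⌊8 / 5 * X⌋₊ := Nat.floor_le_floor (by linarith)
  have h1 : psi (8 / 5 * X) - psi (X / 2) = ∑ n ∈ Ioc ⌊X / 2⌋₊ ⌊8 / 5 * X⌋₊, Λ n := by
    rw [psi, psi, sub_eq_iff_eq_add]
    rw [← Finset.sum_Ioc_consecutive _ (Nat.zero_le _) hle]
    ring
  rw [h1, Finset.mul_sum]
  refine (Finset.sum_le_sum (g := fun n => Λ n * hat (Real.log (n / X))) fun n hn => ?_).trans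
    (Finset.sum_le_sum_of_subset_of_nonneg ?_ fun n _ _ => ?_)
  · rw [mem_Ioc] at hn
    have h2 : X / 2 < n := (Nat.floor_lt (by positivity)).1 hn.1
    have h3 : (n : ℝ) ≤ 8 / 5 * X := (Nat.le_floor_iff (by positivity)).1 hn.2
    have hn0 : (0 : ℝ) < n := lt_trans (by positivity) h2
    have hn' : 0 < n / X := by positivity
    have hl2 : Real.log 2 < 0.6931471808 := Real.log_two_lt_d9
    have h4 : Real.log (n / X) ≤ Real.log 2 := by
      apply Real.log_le_log hn'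
      rw [div_le_iff₀ hX0]
      linarith
    have h5 : -Real.log 2 ≤ Real.log (n / X) := by
      rw [← Real.log_inv]
      apply Real.log_le_log (by norm_num)
      rw [le_div_iff₀ hX0]
      linarith
    have h6 : |Real.log (n / X)| ≤ Real.log 2 := abs_le.2 ⟨h5, h4⟩
    have h7 := @hat_ge (Real.log (n / X))
    have h8 : 0 ≤ Λ n := vonMangoldt_nonneg
    have h9 : 3 / 10 ≤ hat (Real.log (n / X)) := by
      norm_num at hl2 ⊢
      linarith
    calc 3 / 10 * Λ n ≤ hat (Real.log (n / X)) * Λ n := by gcongr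
      _ = _ := mul_comm _ _
  · intro n hn
    rw [mem_Ioc] at hn
    rw [mem_Icc]
    constructor
    · omega
    · have h3 : (n : ℝ) ≤ 8 / 5 * X := (Nat.le_floor_iff (by positivity)).1 hn.2
      have : (n : ℝ) ≤ N := by linarith
      exact_mod_cast this
  · exact mul_nonneg vonMangoldt_nonneg (hat_nonneg _)

open Chebyshev in
/-- the number of primes in a class -/
lemma SS_le {X : ℝ} (hX : 1 ≤ X) {N : ℕ} (hN : 1 ≤ N) (q : ℕ) (a : ZMod q)
    (h : ∀ r : ℕ, r.Prime → X / 3 < r → (r : ℝ) < 3 * X → ((r : ℕ) : ZMod q) ≠ a) :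
    SS X N q a ≤ 2 * √(N : ℝ) * Real.log N := by
  have hX0 : 0 < X := by linarith
  refine le_trans ?_ (psi_sub_theta_le (x := (N : ℝ)) (by exact_mod_cast hN))
  rw [psi_sub_theta_eq_sum_not_prime, Nat.floor_natCast, SS, Finset.sum_filter, Finset.sum_filter]
  have h0 : Icc 1 N = Ioc 0 N := rfl
  rw [h0]
  refine Finset.sum_le_sum fun n hn => ?_
  rw [mem_Ioc] at hn
  have h8 : 0 ≤ Λ n := vonMangoldt_nonneg
  have h6 := hat_le_one (Real.log (n / X))
  by_cases hp : n.Prime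
  · rw [if_neg (not_not.2 hp)]
    by_cases ha : ((n : ℕ) : ZMod q) = a
    · rw [if_pos ha]
      have h9 : hat (Real.log (n / X)) = 0 := by
        by_contra hc
        have h10 : X / 3 < n := by
          by_contra h'
          exact hc (hat_log_eq_zero_of_le hX0 (by exact_mod_cast hp.pos) (by linarith))
        have h11 : (n : ℝ) < 3 * X := by
          by_contra h'
          exact hc (hat_log_eq_zero_of_ge hX0 (by linarith))
        exact h n hp h10 h11 ha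
      rw [h9, mul_zero]
    · rw [if_neg ha]
  · rw [if_pos hp]
    split_ifs with ha
    · calc Λ n * hat (Real.log (n / X)) ≤ Λ n * 1 := by gcongr
        _ = Λ n := mul_one _
    · exact h8

end Pool.Agent.H27.LS
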