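import Pool.Agent.H27.LS.WRED
import Pool.Agent.H27.LS.Chi

/-!
The transplantation kernel as a one dimensional inverse Fourier transform (local smoothing, helper83).
-/

set_option autoImplicit false

namespace Pool.Agent.H83.LS.H27

open MeasureTheory Set FourierTransform
open scoped ENNReal NNReal

lemma continuous_jn (m : ℕ) : Continuous (jn m) := by
  unfold jn
  apply intervalIntegral.continuous_parametric_intervalIntegral_of_continuous'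
  fun_prop

/-- the frequency side of the transplantation kernel -/
noncomputable def gx (m : ℕ) (χ : ℝ → ℝ) (Lam ρ s : ℝ) : ℝ :=
  χ (s / Lam) * (|ρ * s| ^ (((m : ℝ) - 1) / 2) * jn m (ρ * s))

lemma gx_pos (m : ℕ) (χ : ℝ → ℝ) (Lam ρ s : ℝ) (hρ : 0 ≤ ρ) (hs : 0 ≤ s) :
    gx m χ Lam ρ s = χ (s / Lam) * bj m (ρ * s) := by
  unfold gx bj
  rw [abs_of_nonneg (mul_nonneg hρ hs)]

lemma gx_neg (m : ℕ) (χ : ℝ → ℝ) (hχ : ∀ s, χ s ≠ 0 → 1 / 8 ≤ s ∧ s ≤ 8) (Lam ρ s : ℝ)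
    (hL : 0 < Lam) (hs : s ≤ 0) : gx m χ Lam ρ s = 0 := by
  unfold gx
  have : χ (s / Lam) = 0 := by
    by_contra h
    have h1 := (hχ _ h).1
    have h2 : s / Lam ≤ 0 := div_nonpos_of_nonpos_of_nonneg hs hL.le
    linarith
  rw [this, zero_mul]

lemma continuous_gx (m : ℕ) (hm : 2 ≤ m) (χ : ℝ → ℝ) (hc : Continuous χ) (Lam ρ : ℝ) :
    Continuous (gx m χ Lam ρ) := by
  unfold gx
  have hm' : (2 : ℝ) ≤ m := by exact_mod_cast hm
  apply Continuous.mul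
  · exact hc.comp (continuous_id.div_const _)
  · apply Continuous.mul
    · apply Continuous.rpow_const
      · exact (continuous_const.mul continuous_id).abs
      · intro x; right; linarith
    · exact (continuous_jn m).comp (continuous_const.mul continuous_id)

lemma measurable_gx (m : ℕ) (hm : 2 ≤ m) (χ : ℝ → ℝ) (hc : Continuous χ) (Lam : ℝ) :
    Continuous (fun q : ℝ × ℝ => gx m χ Lam q.1 q.2) := by
  unfold gx
  have hm' : (2 : ℝ) ≤ m := by exact_mod_cast hm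
  apply Continuous.mul
  · exact hc.comp (continuous_snd.div_const _)
  · apply Continuous.mul
    · apply Continuous.rpow_const
      · exact (continuous_fst.mul continuous_snd).abs
      · intro x; right; linarith
    · exact (continuous_jn m).comp (continuous_fst.mul continuous_snd)

lemma supp_gx (m : ℕ) (χ : ℝ → ℝ) (hχ : ∀ s, χ s ≠ 0 → 1 / 8 ≤ s ∧ s ≤ 8) (Lam ρ s : ℝ)
    (hL : 0 < Lam) (hs : gx m χ Lam ρ s ≠ 0) : s ∈ Icc 0 (8 * Lam) := by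
  unfold gx at hs
  have h1 := hχ _ (left_ne_zero_of_mul hs)
  constructor
  · by_contra h
    push Not at h
    have : s / Lam < 0 := div_neg_of_neg_of_pos h hL
    linarith
  · have := (div_le_iff₀ hL).mp h1.2
    linarith

lemma compact_gx (m : ℕ) (χ : ℝ → ℝ) (hχ : ∀ s, χ s ≠ 0 → 1 / 8 ≤ s ∧ s ≤ 8) (Lam ρ : ℝ)
    (hL : 0 < Lam) : HasCompactSupport (gx m χ Lam ρ) := by
  apply HasCompactSupport.intro (isCompact_Icc : IsCompact (Icc 0 (8 * Lam)))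
  intro s hs
  by_contra h
  exact hs (supp_gx m χ hχ Lam ρ s hL h)

/-- the kernel as an integral over the whole line -/
noncomputable def kc (m : ℕ) (χ : ℝ → ℝ) (Lam x ρ : ℝ) : ℂ :=
  ∫ s : ℝ, e (x * s) * ((gx m χ Lam ρ s : ℝ) : ℂ)

lemma kc_eq (m : ℕ) (χ : ℝ → ℝ) (hχ : ∀ s, χ s ≠ 0 → 1 / 8 ≤ s ∧ s ≤ 8) (Lam x ρ : ℝ)
    (hL : 0 < Lam) (hρ : 0 ≤ ρ) :
    (Lam : ℂ) * kp m (fun σ => ((χ σ : ℝ) : ℂ)) (Lam * x) (Lam * ρ) = kc m χ Lam x ρ := by
  have h := Measure.integral_comp_mul_left (fun s : ℝ => e (x * s) * ((gx m χ Lam ρ s : ℝ) : ℂ)) Lam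
  have h2 : kp m (fun σ => ((χ σ : ℝ) : ℂ)) (Lam * x) (Lam * ρ) =
      ∫ s : ℝ, e (x * (Lam * s)) * ((gx m χ Lam ρ (Lam * s) : ℝ) : ℂ) := by
    unfold kp
    rw [← integral_indicator measurableSet_Ioi]
    congr 1
    ext s
    by_cases hs : s ∈ Ioi (0 : ℝ)
    · have hs' : 0 < s := hs
      rw [indicator_of_mem hs, gx_pos m χ Lam ρ _ hρ (by positivity)]
      have h3 : Lam * s / Lam = s := by field_simp
      rw [h3, show x * (Lam * s) = Lam * x * s by ring, show ρ * (Lam * s) = Lam * ρ * s by ring]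
      push_cast
      ring
    · rw [indicator_of_notMem hs, gx_neg m χ hχ Lam ρ _ hL]
      · simp
      · simp only [mem_Ioi, not_lt] at hs
        exact mul_nonpos_of_nonneg_of_nonpos hL.le hs
  rw [h2, h, abs_of_pos (inv_pos.mpr hL)]
  unfold kc
  rw [Complex.real_smul, ← mul_assoc]
  push_cast
  rw [mul_inv_cancel₀ (by exact_mod_cast hL.ne'), one_mul]

lemma kc_fourier (m : ℕ) (χ : ℝ → ℝ) (Lam x ρ : ℝ) :
    kc m χ Lam x ρ = 𝓕⁻ (fun s : ℝ => ((gx m χ Lam ρ s : ℝ) : ℂ)) x := by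
  unfold kc
  rw [Real.fourierInv_eq']
  congr 1

/-- decay of `kc`, uniform for `ρ` in a compact set -/
lemma kc_dom (h : T_KAP) (m : ℕ) (hm : 2 ≤ m) (χ : ℝ → ℝ)
    (hχ : ∀ s, χ s ≠ 0 → 1 / 8 ≤ s ∧ s ≤ 8)
    (hB : ∀ M, ∃ B : ℝ, 0 ≤ B ∧ CB M B (fun σ => ((χ σ : ℝ) : ℂ))) (Lam R : ℝ) (hL : 0 < Lam) :
    ∃ C : ℝ, 0 ≤ C ∧ ∀ x ρ : ℝ, 0 ≤ ρ → ρ ≤ R →
      ‖kc m χ Lam x ρ‖ ≤ C * ((1 + |x|) ^ 2)⁻¹ := by
  obtain ⟨C, hC, hk⟩ := kp_bound h m 2 hm χ hB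
  obtain ⟨D, hD⟩ : ∃ D, D = (1 + Lam * |R|) * (1 + Lam⁻¹) := ⟨_, rfl⟩
  have hDp : 0 < D := by rw [hD]; positivity
  refine ⟨Lam * (C * (2 * D ^ 2)), by positivity, fun x ρ hρ hR => ?_⟩
  rw [← kc_eq m χ hχ Lam x ρ hL hρ, norm_mul, Complex.norm_real, Real.norm_eq_abs, abs_of_pos hL]
  have h1 := hk (Lam * x) (Lam * ρ) (by positivity)
  have key : ∀ y : ℝ, |Lam * x| ≤ |y| + Lam * ρ → ((1 + |y|) ^ 2)⁻¹ ≤ D ^ 2 * ((1 + |x|) ^ 2)⁻¹ := by
    intro y hy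
    have h2 : 1 + |x| ≤ D * (1 + |y|) := by
      rw [abs_mul, abs_of_pos hL] at hy
      have h3 : |x| ≤ Lam⁻¹ * (|y| + Lam * ρ) := by
        rw [inv_mul_eq_div, le_div_iff₀ hL]; linarith
      have h4 : ρ ≤ |R| := hR.trans (le_abs_self R)
      have h5 : Lam * ρ ≤ Lam * |R| := mul_le_mul_of_nonneg_left h4 hL.le
      have h6 : 0 ≤ |y| := abs_nonneg y
      have h7 : 0 < Lam⁻¹ := inv_pos.mpr hL
      have h8 : |y| + Lam * ρ ≤ (1 + Lam * |R|) * (1 + |y|) := by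
        have : 0 ≤ Lam * |R| * |y| := by positivity
        nlinarith
      have h9 : 1 ≤ (1 + Lam * |R|) * (1 + |y|) := by
        have : 0 ≤ Lam * |R| * |y| := by positivity
        have : 0 ≤ Lam * |R| := by positivity
        nlinarith
      calc 1 + |x| ≤ (1 + Lam * |R|) * (1 + |y|) + Lam⁻¹ * ((1 + Lam * |R|) * (1 + |y|)) := by
            refine add_le_add h9 (h3.trans ?_)
            exact mul_le_mul_of_nonneg_left h8 h7.le
        _ = D * (1 + |y|) := by rw [hD]; ring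
    have h10 : (1 + |x|) ^ 2 ≤ D ^ 2 * (1 + |y|) ^ 2 := by
      rw [← mul_pow]
      exact pow_le_pow_left₀ (by positivity) h2 2
    rw [← div_eq_mul_inv, le_div_iff₀ (by positivity), inv_mul_eq_div, div_le_iff₀ (by positivity)]
    exact h10
  have h3 : |Lam * x| ≤ |Lam * x - Lam * ρ| + Lam * ρ := by
    have := abs_add_le (Lam * x - Lam * ρ) (Lam * ρ)
    rw [abs_of_nonneg (mul_nonneg hL.le hρ)] at this
    simpa using this
  have h4 : |Lam * x| ≤ |Lam * x + Lam * ρ| + Lam * ρ := by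
    have := abs_sub (Lam * x + Lam * ρ) (Lam * ρ)
    rw [abs_of_nonneg (mul_nonneg hL.le hρ)] at this
    simpa using this
  have h5 := key _ h3
  have h6 := key _ h4
  calc Lam * ‖kp m (fun σ => ((χ σ : ℝ) : ℂ)) (Lam * x) (Lam * ρ)‖
      ≤ Lam * (C * (D ^ 2 * ((1 + |x|) ^ 2)⁻¹ + D ^ 2 * ((1 + |x|) ^ 2)⁻¹)) := by
        refine mul_le_mul_of_nonneg_left (h1.trans ?_) hL.le
        exact mul_le_mul_of_nonneg_left (add_le_add h5 h6) hC
    _ = _ := by ring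

lemma integrable_w2 : Integrable (fun x : ℝ => ((1 + |x|) ^ 2)⁻¹) := by
  have h := integrable_one_add_norm (E := ℝ) (μ := volume) (r := 2) (by simp)
  refine h.congr (Filter.Eventually.of_forall (fun v => ?_))
  simp only
  rw [Real.norm_eq_abs, Real.rpow_neg (by positivity)]
  congr 1
  norm_cast

lemma measurable_kc (m : ℕ) (hm : 2 ≤ m) (χ : ℝ → ℝ) (hc : Continuous χ) (Lam : ℝ) :
    Measurable (fun q : ℝ × ℝ => kc m χ Lam q.1 q.2) := by
  have h : Measurable (fun q : (ℝ × ℝ) × ℝ => e (q.1.1 * q.2) *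
      ((gx m χ Lam q.1.2 q.2 : ℝ) : ℂ)) := by
    apply Measurable.mul
    · exact measurable_e.comp (by fun_prop)
    · apply Complex.measurable_ofReal.comp
      exact (measurable_gx m hm χ hc Lam).measurable.comp
        ((measurable_snd.comp measurable_fst).prodMk measurable_snd)
  exact (StronglyMeasurable.integral_prod_right' (ν := volume) h.stronglyMeasurable).measurable

lemma integrable_kc (h : T_KAP) (m : ℕ) (hm : 2 ≤ m) (χ : ℝ → ℝ) (hc : Continuous χ)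
    (hχ : ∀ s, χ s ≠ 0 → 1 / 8 ≤ s ∧ s ≤ 8)
    (hB : ∀ M, ∃ B : ℝ, 0 ≤ B ∧ CB M B (fun σ => ((χ σ : ℝ) : ℂ))) (Lam ρ : ℝ) (hL : 0 < Lam)
    (hρ : 0 ≤ ρ) : Integrable (fun x => kc m χ Lam x ρ) := by
  obtain ⟨C, hC, hk⟩ := kc_dom h m hm χ hχ hB Lam ρ hL
  refine (integrable_w2.const_mul C).mono' ?_ (Filter.Eventually.of_forall (fun x => ?_))
  · exact ((measurable_kc m hm χ hc Lam).comp
      (measurable_id.prodMk measurable_const)).aestronglyMeasurable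
  · exact hk x ρ hρ le_rfl

/-- Fourier inversion for `kc` -/
lemma kc_inv (h : T_KAP) (m : ℕ) (hm : 2 ≤ m) (χ : ℝ → ℝ) (hc : Continuous χ)
    (hχ : ∀ s, χ s ≠ 0 → 1 / 8 ≤ s ∧ s ≤ 8)
    (hB : ∀ M, ∃ B : ℝ, 0 ≤ B ∧ CB M B (fun σ => ((χ σ : ℝ) : ℂ))) (Lam ρ s : ℝ) (hL : 0 < Lam)
    (hρ : 0 ≤ ρ) : ∫ x : ℝ, e (-(x * s)) * kc m χ Lam x ρ = ((gx m χ Lam ρ s : ℝ) : ℂ) := by
  obtain ⟨g, hg⟩ : ∃ g : ℝ → ℂ, g = fun s => ((gx m χ Lam ρ s : ℝ) : ℂ) := ⟨_, rfl⟩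
  have hgc : Continuous g := by
    rw [hg]; exact Complex.continuous_ofReal.comp (continuous_gx m hm χ hc Lam ρ)
  have hgs : HasCompactSupport g := by
    rw [hg]; exact (compact_gx m χ hχ Lam ρ hL).comp_left (g := fun x : ℝ => (x : ℂ)) (by simp)
  have hgi : Integrable g := hgc.integrable_of_hasCompactSupport hgs
  have h1 : (fun x => kc m χ Lam x ρ) = 𝓕⁻ g := by
    ext x; rw [hg]; exact kc_fourier m χ Lam x ρ
  have h2 : Integrable (𝓕⁻ g) := by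
    rw [← h1]; exact integrable_kc h m hm χ hc hχ hB Lam ρ hL hρ
  have h3 : Integrable (𝓕 g) := by
    have h4 : 𝓕 g = fun x => 𝓕⁻ g (-x) := by
      ext x; rw [Real.fourierInv_eq_fourier_neg, neg_neg]
    rw [h4]
    exact h2.comp_neg
  have h5 := hgc.fourier_fourierInv_eq hgi h3
  have h6 : 𝓕 (𝓕⁻ g) s = g s := by rw [h5]
  rw [← h1, Real.fourier_real_eq_integral_exp_smul] at h6
  rw [hg] at h6
  beta_reduce at h6
  rw [← h6]
  congr 1
  ext x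
  rw [smul_eq_mul]
  congr 1
  unfold e
  congr 2
  push_cast
  ring

/-- the conjugate version -/
lemma kc_inv' (h : T_KAP) (m : ℕ) (hm : 2 ≤ m) (χ : ℝ → ℝ) (hc : Continuous χ)
    (hχ : ∀ s, χ s ≠ 0 → 1 / 8 ≤ s ∧ s ≤ 8)
    (hB : ∀ M, ∃ B : ℝ, 0 ≤ B ∧ CB M B (fun σ => ((χ σ : ℝ) : ℂ))) (Lam ρ s : ℝ) (hL : 0 < Lam)
    (hρ : 0 ≤ ρ) : ∫ x : ℝ, (starRingEnd ℂ) (kc m χ Lam x ρ) * e (x * s) =
      ((gx m χ Lam ρ s : ℝ) : ℂ) := by
  have h1 := kc_inv h m hm χ hc hχ hB Lam ρ s hL hρ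
  have h2 := congrArg (starRingEnd ℂ) h1
  rw [← integral_conj, Complex.conj_ofReal] at h2
  rw [← h2]
  congr 1
  ext x
  rw [map_mul, conj_e, neg_neg, mul_comm]

end Pool.Agent.H83.LS.H27
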