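import Pool.Agent.H27.LS.Dyadic
import Pool.Agent.H27.LS.TypeOne

/-!
# The mean value theorem for prime moduli
-/

set_option autoImplicit false

namespace Pool.Agent.H27.LS

open Finset ArithmeticFunction
open scoped ArithmeticFunction.Moebius ArithmeticFunction.zeta

/-- weighted sum of `Λ(n) χ(n)` -/
noncomputable def TT (X : ℝ) (N : ℕ) (x : CH) : ℂ :=
  ∑ n ∈ Icc 1 N, (Λ n : ℂ) * (x.2 (n : ZMod (x.1 : ℕ)) * (hat (Real.log (n / X)) : ℝ))

/-- the Pólya–Vinogradov bound -/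
noncomputable def pv (q : ℝ) : ℝ := √q * (1 + Real.log q)

lemma pv_nonneg {q : ℝ} (hq : 1 ≤ q) : 0 ≤ pv q := by
  have := Real.log_nonneg hq
  unfold pv
  positivity

lemma pv_mono {q K : ℝ} (hq : 1 ≤ q) (h : q ≤ K) : pv q ≤ pv K := by
  have h1 := Real.log_nonneg hq
  have h2 := Real.log_le_log (by linarith) h
  have h3 := Real.sqrt_le_sqrt h
  unfold pv
  gcongr

lemma exp_one_mul_le {X : ℝ} (hX : 0 ≤ X) {N : ℕ} (hN : 3 * X ≤ N) : Real.exp 1 * X ≤ N := by
  have := Real.exp_one_lt_d9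
  nlinarith

lemma norm_S2_le {X : ℝ} (hX : 0 < X) {N : ℕ} (hN : 3 * X ≤ N) (U : ℕ) (x : CH) (hx : x.2 ≠ 1) :
    ‖∑ m ∈ range (N + 1), ∑ l ∈ range (N + 1),
      (cut U (μ : ArithmeticFunction ℝ) m : ℂ) * (ArithmeticFunction.log l : ℂ) * wt X x m l‖ ≤
      U * (3 * Real.log (N + 1) * pv (x.1 : ℕ)) := by
  have hpv : 0 ≤ pv (x.1 : ℕ) := pv_nonneg (by exact_mod_cast x.1.2.one_le)
  have := Fact.mk x.1.2
  have hL : 0 ≤ Real.log (N + 1) := Real.log_nonneg (by linarith [Nat.cast_nonneg (α := ℝ) N])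
  have h1 : ∀ m, ‖∑ l ∈ range (N + 1),
      (cut U (μ : ArithmeticFunction ℝ) m : ℂ) * (ArithmeticFunction.log l : ℂ) * wt X x m l‖ ≤
      if m ∈ Icc 1 U then 3 * Real.log (N + 1) * pv (x.1 : ℕ) else 0 := by
    intro m
    split_ifs with hm
    · rw [mem_Icc] at hm
      have h2 : ∑ l ∈ range (N + 1),
          (cut U (μ : ArithmeticFunction ℝ) m : ℂ) * (ArithmeticFunction.log l : ℂ) * wt X x m l =
          (cut U (μ : ArithmeticFunction ℝ) m : ℂ) * x.2 m * ∑ l ∈ range (N + 1),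
            x.2 (l : ZMod (x.1 : ℕ)) * ((Real.log l * hat (Real.log (m * l / X)) : ℝ) : ℂ) := by
        rw [Finset.mul_sum]
        refine Finset.sum_congr rfl fun l _ => ?_
        rw [wt, Nat.cast_mul, map_mul, ArithmeticFunction.log_apply]
        push_cast
        ring
      rw [h2, norm_mul, norm_mul, Complex.norm_real]
      have h3 := type_one_b (x.1 : ℕ) (polya_vinogradov (x.1 : ℕ) hx) hm.1 hX
        (exp_one_mul_le hX.le hN)
      have h4 : ‖cut U (μ : ArithmeticFunction ℝ) m‖ * ‖x.2 m‖ ≤ 1 := by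
        have h5 := abs_cut_moebius_le U m
        have h6 := DirichletCharacter.norm_le_one x.2 (m : ZMod (x.1 : ℕ))
        rw [Real.norm_eq_abs]
        exact mul_le_one₀ h5 (norm_nonneg _) h6
      calc _ ≤ 1 * (3 * Real.log (N + 1) * pv (x.1 : ℕ)) :=
            mul_le_mul h4 h3 (norm_nonneg _) zero_le_one
        _ = _ := one_mul _
    · have h2 : cut U (μ : ArithmeticFunction ℝ) m = 0 := by
        rw [mem_Icc, not_and_or] at hm
        rcases hm with hm | hm
        · have : m = 0 := by omega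
          subst this
          exact ArithmeticFunction.map_zero
        · exact cut_eq_zero (by omega) _
      rw [h2]
      simp
  refine (norm_sum_le _ _).trans ((Finset.sum_le_sum fun m _ => h1 m).trans ?_)
  rw [← Finset.sum_filter, Finset.sum_const, nsmul_eq_mul]
  gcongr
  calc ((range (N + 1)).filter (fun m => m ∈ Icc 1 U)).card ≤ (Icc 1 U).card :=
        Finset.card_le_card fun m hm => (mem_filter.1 hm).2
    _ = U := by simp

lemma norm_S3_le {X : ℝ} (hX : 0 < X) {N : ℕ} (hN : 3 * X ≤ N) (U : ℕ) (x : CH) (hx : x.2 ≠ 1) :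
    ‖∑ m ∈ range (N + 1), ∑ l ∈ range (N + 1),
      ((cut U (μ : ArithmeticFunction ℝ) * cut U Λ) m : ℂ) *
        ((ζ : ArithmeticFunction ℝ) l : ℂ) * wt X x m l‖ ≤
      (U * U : ℕ) * (Real.log (N + 1) * (2 * pv (x.1 : ℕ))) := by
  have hpv : 0 ≤ pv (x.1 : ℕ) := pv_nonneg (by exact_mod_cast x.1.2.one_le)
  have := Fact.mk x.1.2
  have hL : 0 ≤ Real.log (N + 1) := Real.log_nonneg (by linarith [Nat.cast_nonneg (α := ℝ) N])
  have h1 : ∀ m ∈ range (N + 1), ‖∑ l ∈ range (N + 1),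
      ((cut U (μ : ArithmeticFunction ℝ) * cut U Λ) m : ℂ) *
        ((ζ : ArithmeticFunction ℝ) l : ℂ) * wt X x m l‖ ≤
      if m ∈ Icc 1 (U * U) then Real.log (N + 1) * (2 * pv (x.1 : ℕ)) else 0 := by
    intro m hmN
    split_ifs with hm
    · rw [mem_Icc] at hm
      have h2 : ∑ l ∈ range (N + 1),
          ((cut U (μ : ArithmeticFunction ℝ) * cut U Λ) m : ℂ) *
            ((ζ : ArithmeticFunction ℝ) l : ℂ) * wt X x m l =
          ((cut U (μ : ArithmeticFunction ℝ) * cut U Λ) m : ℂ) * x.2 m * ∑ l ∈ range (N + 1),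
            x.2 (l : ZMod (x.1 : ℕ)) * (hat (Real.log (m * l / X)) : ℝ) := by
        rw [Finset.mul_sum]
        refine Finset.sum_congr rfl fun l _ => ?_
        rw [wt, Nat.cast_mul, map_mul]
        rcases Nat.eq_zero_or_pos l with rfl | hl
        · have : x.2 ((0 : ℕ) : ZMod (x.1 : ℕ)) = 0 := by simpa using MulChar.map_zero x.2
          rw [this]; simp
        · have : ((ζ : ArithmeticFunction ℝ) l) = 1 := by
            rw [ArithmeticFunction.natCoe_apply, ArithmeticFunction.zeta_apply, if_neg hl.ne']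
            simp
          rw [this]
          push_cast
          ring
      rw [h2, norm_mul, norm_mul, Complex.norm_real]
      have h3 := type_one_a (x.1 : ℕ) (polya_vinogradov (x.1 : ℕ) hx) hm.1 hX
        (exp_one_mul_le hX.le hN)
      have h4 : ‖(cut U (μ : ArithmeticFunction ℝ) * cut U Λ) m‖ * ‖x.2 m‖ ≤
          Real.log (N + 1) := by
        have h5 := abs_conv_le U U m
        have h6 := DirichletCharacter.norm_le_one x.2 (m : ZMod (x.1 : ℕ))
        rw [Real.norm_eq_abs]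
        have h7 : Real.log m ≤ Real.log (N + 1) := by
          apply Real.log_le_log (by exact_mod_cast hm.1)
          exact_mod_cast (mem_range.1 hmN).le
        calc _ ≤ Real.log (N + 1) * 1 :=
              mul_le_mul (h5.trans h7) h6 (norm_nonneg _) hL
          _ = _ := mul_one _
      exact mul_le_mul h4 h3 (norm_nonneg _) hL
    · have h2 : (cut U (μ : ArithmeticFunction ℝ) * cut U Λ) m = 0 := by
        rw [mem_Icc, not_and_or] at hm
        rcases hm with hm | hm
        · have : m = 0 := by omega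
          subst this
          exact ArithmeticFunction.map_zero
        · exact conv_eq_zero (by omega)
      rw [h2]
      simp
  refine (norm_sum_le _ _).trans ((Finset.sum_le_sum h1).trans ?_)
  rw [← Finset.sum_filter, Finset.sum_const, nsmul_eq_mul]
  gcongr
  calc ((range (N + 1)).filter (fun m => m ∈ Icc 1 (U * U))).card ≤ (Icc 1 (U * U)).card :=
        Finset.card_le_card fun m hm => (mem_filter.1 hm).2
    _ = U * U := by simp

/-- Vaughan's identity for `TT` -/
lemma TT_eq {X : ℝ} (hX : 0 < X) {N : ℕ} (hN : 3 * X ≤ N) {U : ℕ} (hU : 3 * (U : ℝ) ≤ X)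
    (x : CH) :
    TT X N x =
      (∑ m ∈ range (N + 1), ∑ l ∈ range (N + 1),
        (cut U (μ : ArithmeticFunction ℝ) m : ℂ) * (ArithmeticFunction.log l : ℂ) * wt X x m l)
      - (∑ m ∈ range (N + 1), ∑ l ∈ range (N + 1),
        ((cut U (μ : ArithmeticFunction ℝ) * cut U Λ) m : ℂ) *
          ((ζ : ArithmeticFunction ℝ) l : ℂ) * wt X x m l)
      + ∑ m ∈ range (N + 1), ∑ l ∈ range (N + 1),
        (muGT U m : ℂ) * (gam U l : ℂ) * wt X x m l := by
  set g : ℕ → ℂ := fun n => x.2 (n : ZMod (x.1 : ℕ)) * (hat (Real.log (n / X)) : ℝ) with hg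
  have hg0 : ∀ n, N < n → g n = 0 := by
    intro n hn
    have h1 : (N : ℝ) ≤ n := by exact_mod_cast hn.le
    rw [hg]
    simp only []
    rw [hat_log_eq_zero_of_ge hX (hN.trans h1)]
    simp
  have hgw : ∀ m l : ℕ, g (m * l) = wt X x m l := by
    intro m l
    rw [hg, wt]
    push_cast
    rfl
  have h1 : TT X N x = ∑ n ∈ Icc 1 N, (Λ n : ℂ) * g n := rfl
  have h2 : ∀ n, (Λ n : ℂ) * g n = (cut U Λ n : ℂ) * g n +
      (((cut U (μ : ArithmeticFunction ℝ) * ArithmeticFunction.log) n : ℝ) : ℂ) * g n -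
      ((((cut U (μ : ArithmeticFunction ℝ) * cut U Λ) * (ζ : ArithmeticFunction ℝ)) n : ℝ) : ℂ) * g n
      + (((muGT U * gam U) n : ℝ) : ℂ) * g n := by
    intro n
    have hs : ∀ (f h : ArithmeticFunction ℝ) (n : ℕ), (f - h) n = f n - h n := fun _ _ _ => rfl
    conv_lhs => rw [vaughan U U]
    simp only [ArithmeticFunction.add_apply, hs]
    push_cast
    ring
  have h3 : ∑ n ∈ Icc 1 N, (cut U Λ n : ℂ) * g n = 0 := by
    refine Finset.sum_eq_zero fun n hn => ?_
    rw [mem_Icc] at hn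
    by_cases hnU : n ≤ U
    · have h4 : hat (Real.log (n / X)) = 0 := by
        apply hat_log_eq_zero_of_le hX (by exact_mod_cast hn.1)
        have : (n : ℝ) ≤ U := by exact_mod_cast hnU
        linarith
      rw [hg]
      simp [h4]
    · rw [cut_eq_zero (by omega)]
      simp
  rw [h1, Finset.sum_congr rfl fun n _ => h2 n, Finset.sum_add_distrib, Finset.sum_sub_distrib,
    Finset.sum_add_distrib, h3, zero_add, sum_conv _ _ g N hg0, sum_conv _ _ g N hg0,
    sum_conv _ _ g N hg0]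
  simp only [hgw]

lemma card_le_of_primes (P : Finset Nat.Primes) {K : ℝ} (hK0 : 0 ≤ K)
    (hK : ∀ q ∈ P, ((q : ℕ) : ℝ) ≤ K) : (P.card : ℝ) ≤ K := by
  have h1 : P.card ≤ (Icc 1 ⌊K⌋₊).card := by
    refine Finset.card_le_card_of_injOn (fun q => (q : ℕ)) ?_ ?_
    · intro q hq
      rw [Finset.coe_Icc, Set.mem_Icc]
      exact ⟨q.2.pos, Nat.le_floor (hK q hq)⟩
    · intro a _ b _ h
      exact Subtype.ext h
  have h2 : (P.card : ℝ) ≤ ⌊K⌋₊ := by
    have : P.card ≤ ⌊K⌋₊ := by simpa using h1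
    exact_mod_cast this
  exact h2.trans (Nat.floor_le hK0)

open Classical in
lemma ne_one_of_mem_chars {P : Finset Nat.Primes} {x : CH} (hx : x ∈ chars P) : x.2 ≠ 1 := by
  rw [chars, Finset.mem_sigma] at hx
  exact Finset.ne_of_mem_erase hx.2

lemma sum_chars_mul_le (P : Finset Nat.Primes) {K : ℝ} (hK0 : 1 ≤ K)
    (hK : ∀ q ∈ P, ((q : ℕ) : ℝ) ≤ K) {c : ℝ} (hc : 0 ≤ c) :
    ∑ x ∈ chars P, c * pv ((x.1 : ℕ) : ℝ) ≤ c * (K ^ 2 * pv K) := by
  have hpv := pv_nonneg hK0
  rw [chars, Finset.sum_sigma]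
  refine (Finset.sum_le_sum fun q hq => ?_).trans (b := ∑ _q ∈ P, c * (K * pv K)) ?_
  · have key : ∀ s : Finset (DirichletCharacter ℂ (q : ℕ)), (s.card : ℝ) ≤ (q : ℕ) := by
      intro s
      have : NeZero (q : ℕ) := ⟨q.2.ne_zero⟩
      have h4 : Fintype.card (DirichletCharacter ℂ (q : ℕ)) = (q : ℕ).totient := by
        rw [← Nat.card_eq_fintype_card]
        exact DirichletCharacter.card_eq_totient_of_hasEnoughRootsOfUnity ℂ (q : ℕ)
      have h5 : (q : ℕ).totient ≤ (q : ℕ) := Nat.totient_le _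
      exact_mod_cast (Finset.card_le_univ s).trans (h4 ▸ h5)
    have hqK := hK q hq
    refine (Finset.sum_le_card_nsmul _ _ (c * pv K) (fun _ _ => mul_le_mul_of_nonneg_left
      (pv_mono (by exact_mod_cast q.2.one_le) hqK) hc)).trans ?_
    rw [nsmul_eq_mul]
    calc _ ≤ K * (c * pv K) := by
          gcongr
          exact (key _).trans hqK
      _ = c * (K * pv K) := by ring
  · rw [Finset.sum_const, nsmul_eq_mul]
    have := card_le_of_primes P (by linarith) hK
    calc (P.card : ℝ) * (c * (K * pv K)) ≤ K * (c * (K * pv K)) := by gcongr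
      _ = c * (K ^ 2 * pv K) := by ring

/-- The mean value theorem. -/
theorem mean_value (P : Finset Nat.Primes) {K : ℝ} (hK0 : 1 ≤ K)
    (hK : ∀ q ∈ P, ((q : ℕ) : ℝ) ≤ K) {U : ℕ} (hU : 1 ≤ U) {X : ℝ} (hX : 1 ≤ X) {N : ℕ}
    (hN : 3 * X ≤ N) (hUX : 3 * (U : ℝ) ≤ X) :
    ∑ x ∈ chars P, ‖TT X N x‖ ≤
      5 * (U * U : ℝ) * Real.log (N + 1) * (K ^ 2 * pv K) +
      (Nat.log 2 N + 1) *
        (4 * √X * Real.log (3 * X + 1) * (K ^ 2 + 16 * K * √(X / U) + 44 * √X)) := by
  have hX0 : 0 < X := by linarith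
  have hL : 0 ≤ Real.log (N + 1) := Real.log_nonneg (by linarith [Nat.cast_nonneg (α := ℝ) N])
  have hU1 : (1 : ℝ) ≤ U := by exact_mod_cast hU
  have h1 : ∀ x ∈ chars P, ‖TT X N x‖ ≤
      (5 * (U * U : ℝ) * Real.log (N + 1)) * pv ((x.1 : ℕ) : ℝ) +
      ‖∑ m ∈ range (N + 1), ∑ l ∈ range (N + 1),
        (muGT U m : ℂ) * (gam U l : ℂ) * wt X x m l‖ := by
    intro x hx
    have hx1 : x.2 ≠ 1 := ne_one_of_mem_chars hx
    rw [TT_eq hX0 hN hUX x]
    refine (norm_add_le _ _).trans ?_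
    refine add_le_add ((norm_sub_le _ _).trans ?_) le_rfl
    have h2 := norm_S2_le hX0 hN U x hx1
    have h3 := norm_S3_le hX0 hN U x hx1
    refine (add_le_add h2 h3).trans ?_
    have hpv : 0 ≤ pv (x.1 : ℕ) := pv_nonneg (by exact_mod_cast x.1.2.one_le)
    have h4 : (U : ℝ) * (3 * Real.log (N + 1) * pv (x.1 : ℕ)) ≤
        (U * U) * (3 * Real.log (N + 1) * pv (x.1 : ℕ)) := by
      apply mul_le_mul_of_nonneg_right _ (by positivity)
      nlinarith
    push_cast
    nlinarith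
  refine (Finset.sum_le_sum h1).trans ?_
  rw [Finset.sum_add_distrib]
  refine add_le_add (sum_chars_mul_le P hK0 hK (by positivity)) ?_
  exact sum_bilinear_le P (by linarith) hK hU hX hN

end Pool.Agent.H27.LS
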