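import Pool.Agent.H27.LS.Additive

/-!
# The multiplicative large sieve for prime moduli
-/

set_option autoImplicit false

namespace Pool.Agent.H27.LS

open Finset Complex

section prime

variable (p : ℕ) [hp : Fact p.Prime]

/-- Parseval for characters. -/
lemma sum_norm_sq_char (z : ZMod p → ℂ) :
    ∑ χ : DirichletCharacter ℂ p, ‖∑ b, χ b * z b‖ ^ 2 =
      (p - 1 : ℝ) * ∑ b ∈ univ.erase (0 : ZMod p), ‖z b‖ ^ 2 := by
  classical
  have h1 : ∀ χ : DirichletCharacter ℂ p, ((‖∑ b, χ b * z b‖ ^ 2 : ℝ) : ℂ) =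
      ∑ b, ∑ b', (χ b * χ⁻¹ b') * (z b * (starRingEnd ℂ) (z b')) := by
    intro χ
    rw [← Complex.normSq_eq_norm_sq, ← Complex.mul_conj, map_sum, Finset.sum_mul_sum]
    refine Finset.sum_congr rfl fun b _ => Finset.sum_congr rfl fun b' _ => ?_
    rw [map_mul, starRingEnd_apply (χ b'), MulChar.star_apply']
    ring
  have h2 : ∀ b b' : ZMod p, ∑ χ : DirichletCharacter ℂ p, χ b * χ⁻¹ b' =
      if b = b' ∧ b ≠ 0 then ((p - 1 : ℝ) : ℂ) else 0 := by
    intro b b'
    by_cases hb' : b' = 0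
    · subst hb'
      rw [Finset.sum_eq_zero (fun χ _ => by rw [MulChar.map_zero, mul_zero]), if_neg]
      rintro ⟨h, h'⟩; exact h' h
    · have h3 : ∀ χ : DirichletCharacter ℂ p, χ b * χ⁻¹ b' = χ b'⁻¹ * χ b := by
        intro χ
        rw [MulChar.inv_apply', mul_comm]
      rw [Finset.sum_congr rfl fun χ _ => h3 χ,
        DirichletCharacter.sum_char_inv_mul_char_eq ℂ (isUnit_iff_ne_zero.2 hb') b]
      by_cases h : b = b'
      · subst h
        rw [if_pos rfl, if_pos ⟨rfl, hb'⟩, Nat.totient_prime hp.out]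
        push_cast [Nat.cast_sub hp.out.one_le]
        rfl
      · rw [if_neg (fun e => h e.symm), if_neg (fun e => h e.1)]
  have h4 : ((∑ χ : DirichletCharacter ℂ p, ‖∑ b, χ b * z b‖ ^ 2 : ℝ) : ℂ) =
      (((p - 1 : ℝ) * ∑ b ∈ univ.erase (0 : ZMod p), ‖z b‖ ^ 2 : ℝ) : ℂ) := by
    rw [Complex.ofReal_sum, Finset.sum_congr rfl fun χ _ => h1 χ, Finset.sum_comm]
    have h5 : ∀ b : ZMod p, ∑ χ : DirichletCharacter ℂ p, ∑ b', (χ b * χ⁻¹ b') *
        (z b * (starRingEnd ℂ) (z b')) = if b ≠ 0 then ((p - 1 : ℝ) : ℂ) * ((‖z b‖ ^ 2 : ℝ) : ℂ)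
          else 0 := by
      intro b
      rw [Finset.sum_comm]
      have h6 : ∀ b' : ZMod p, ∑ χ : DirichletCharacter ℂ p, (χ b * χ⁻¹ b') *
          (z b * (starRingEnd ℂ) (z b')) =
          (if b = b' ∧ b ≠ 0 then ((p - 1 : ℝ) : ℂ) else 0) * (z b * (starRingEnd ℂ) (z b')) := by
        intro b'
        rw [← Finset.sum_mul, h2]
      rw [Finset.sum_congr rfl fun b' _ => h6 b']
      rw [Finset.sum_eq_single b]
      · by_cases hb : b = 0
        · simp [hb]
        · rw [if_pos ⟨rfl, hb⟩, if_pos hb, Complex.mul_conj, Complex.normSq_eq_norm_sq]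
      · intro b' _ hbb'
        rw [if_neg (fun e => hbb' e.1.symm), zero_mul]
      · intro h; exact absurd (Finset.mem_univ _) h
    rw [Finset.sum_congr rfl fun b _ => h5 b, ← Finset.sum_filter, Complex.ofReal_mul,
      Complex.ofReal_sum, Finset.mul_sum]
    refine Finset.sum_congr ?_ fun _ _ => rfl
    ext b; simp
  exact_mod_cast h4

/-- The Gauss sum of a nontrivial character has absolute value `√p`. -/
lemma norm_gaussSum_sq {χ : DirichletCharacter ℂ p} (hχ : χ ≠ 1) :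
    ‖gaussSum χ (ZMod.stdAddChar (N := p))‖ ^ 2 = p := by
  have h1 := gaussSum_mul_gaussSum_eq_card hχ (ZMod.isPrimitive_stdAddChar p)
  rw [← star_gaussSum_eq] at h1
  have h2 : ((‖gaussSum χ (ZMod.stdAddChar (N := p))‖ ^ 2 : ℝ) : ℂ) = ((p : ℝ) : ℂ) := by
    rw [← Complex.normSq_eq_norm_sq, ← Complex.mul_conj]
    simpa [ZMod.card] using h1
  exact_mod_cast h2

lemma gaussSum_shift {χ : DirichletCharacter ℂ p} (hχ : χ ≠ 1) (n : ZMod p) :
    ∑ b, χ b * ZMod.stdAddChar (b * n) =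
      χ⁻¹ n * gaussSum χ (ZMod.stdAddChar (N := p)) := by
  by_cases hn : n = 0
  · subst hn
    rw [MulChar.map_zero, zero_mul]
    simpa using MulChar.sum_eq_zero_of_ne_one hχ
  · have h := gaussSum_mulShift_eq χ (ZMod.stdAddChar (N := p)) (Units.mk0 n hn)
    rw [Units.val_mk0] at h
    rw [← h, gaussSum]
    refine Finset.sum_congr rfl fun b _ => ?_
    rw [AddChar.mulShift_apply, mul_comm b n]

/-- large sieve for one prime modulus -/
lemma sum_char_le (a : ℕ → ℂ) (N : ℕ) :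
    ∑ χ ∈ univ.erase (1 : DirichletCharacter ℂ p), ‖∑ n ∈ range N, a n * χ n‖ ^ 2 ≤
      ∑ b ∈ Ico 1 p, ‖trig a N (b / p)‖ ^ 2 := by
  classical
  have hp0 : (0 : ℝ) < p := by exact_mod_cast hp.out.pos
  set S : ZMod p → ℂ := fun b => ∑ n ∈ range N, a n * ZMod.stdAddChar (b * (n : ZMod p)) with hS
  have h1 : ∀ χ : DirichletCharacter ℂ p, χ ≠ 1 →
      (p : ℝ) * ‖∑ n ∈ range N, a n * χ n‖ ^ 2 = ‖∑ b, χ⁻¹ b * S b‖ ^ 2 := by
    intro χ hχ
    have hχ' : χ⁻¹ ≠ 1 := by simpa using hχ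
    have h2 : ∑ b, χ⁻¹ b * S b =
        (∑ n ∈ range N, a n * χ n) * gaussSum χ⁻¹ (ZMod.stdAddChar (N := p)) := by
      have h3 : ∀ b : ZMod p, χ⁻¹ b * S b =
          ∑ n ∈ range N, a n * (χ⁻¹ b * ZMod.stdAddChar (b * (n : ZMod p))) := by
        intro b
        rw [hS, Finset.mul_sum]
        refine Finset.sum_congr rfl fun n _ => ?_
        ring
      rw [Finset.sum_congr rfl fun b _ => h3 b, Finset.sum_comm, Finset.sum_mul]
      refine Finset.sum_congr rfl fun n _ => ?_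
      rw [← Finset.mul_sum, gaussSum_shift p hχ', inv_inv]
      ring
    rw [h2, norm_mul, mul_pow, norm_gaussSum_sq p hχ']
    ring
  have h4 : (p : ℝ) * ∑ χ ∈ univ.erase (1 : DirichletCharacter ℂ p),
      ‖∑ n ∈ range N, a n * χ n‖ ^ 2 ≤ (p : ℝ) * ∑ b ∈ univ.erase (0 : ZMod p), ‖S b‖ ^ 2 := by
    calc (p : ℝ) * ∑ χ ∈ univ.erase (1 : DirichletCharacter ℂ p), ‖∑ n ∈ range N, a n * χ n‖ ^ 2
        = ∑ χ ∈ univ.erase (1 : DirichletCharacter ℂ p), ‖∑ b, χ⁻¹ b * S b‖ ^ 2 := by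
          rw [Finset.mul_sum]
          exact Finset.sum_congr rfl fun χ hχ => h1 χ (Finset.ne_of_mem_erase hχ)
      _ ≤ ∑ χ : DirichletCharacter ℂ p, ‖∑ b, χ⁻¹ b * S b‖ ^ 2 :=
          Finset.sum_le_sum_of_subset_of_nonneg (Finset.erase_subset _ _)
            fun _ _ _ => by positivity
      _ = ∑ χ : DirichletCharacter ℂ p, ‖∑ b, χ b * S b‖ ^ 2 :=
          Fintype.sum_equiv (Equiv.inv _) _ _ fun χ => rfl
      _ = (p - 1 : ℝ) * ∑ b ∈ univ.erase (0 : ZMod p), ‖S b‖ ^ 2 := sum_norm_sq_char p S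
      _ ≤ (p : ℝ) * ∑ b ∈ univ.erase (0 : ZMod p), ‖S b‖ ^ 2 := by
          gcongr
          linarith
  have h5 := le_of_mul_le_mul_left h4 hp0
  refine h5.trans (le_of_eq ?_)
  symm
  refine Finset.sum_bij (fun (b : ℕ) _ => (b : ZMod p)) ?_ ?_ ?_ ?_
  · intro b hb
    rw [Finset.mem_Ico] at hb
    refine Finset.mem_erase.2 ⟨?_, Finset.mem_univ _⟩
    rw [Ne, ZMod.natCast_eq_zero_iff]
    exact Nat.not_dvd_of_pos_of_lt hb.1 hb.2
  · intro b hb c hc h
    rw [Finset.mem_Ico] at hb hc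
    have := (ZMod.natCast_eq_natCast_iff' b c p).1 h
    rwa [Nat.mod_eq_of_lt hb.2, Nat.mod_eq_of_lt hc.2] at this
  · intro b hb
    have hb' := Finset.ne_of_mem_erase hb
    refine ⟨b.val, ?_, ?_⟩
    · rw [Finset.mem_Ico]
      exact ⟨Nat.one_le_iff_ne_zero.2 (fun h => hb' ((ZMod.val_eq_zero b).1 h)), ZMod.val_lt b⟩
    · simp
  · intro b _
    rw [hS, trig]
    congr 2
    refine Finset.sum_congr rfl fun n _ => ?_
    congr 1
    have h6 : ((b : ZMod p) * (n : ZMod p)) = (((b * n : ℕ) : ℤ) : ZMod p) := by push_cast; rfl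
    rw [h6, ZMod.stdAddChar_coe]
    congr 1
    push_cast
    ring

end prime

/-- The large sieve for the nontrivial characters modulo the primes of a finite set. -/
theorem large_sieve (P : Finset Nat.Primes) {K : ℝ} (hK : ∀ q ∈ P, ((q : ℕ) : ℝ) ≤ K)
    (a : ℕ → ℂ) (N : ℕ) :
    ∑ q ∈ P, (haveI := Fact.mk q.2
      ∑ χ ∈ univ.erase (1 : DirichletCharacter ℂ q), ‖∑ n ∈ range N, a n * χ n‖ ^ 2) ≤
      (K ^ 2 + 4 * Real.pi * N) * ∑ n ∈ range N, ‖a n‖ ^ 2 := by
  classical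
  rcases P.eq_empty_or_nonempty with rfl | ⟨q0, hq0⟩
  · simp only [Finset.sum_empty]
    positivity
  have hK2 : 2 ≤ K := le_trans (by exact_mod_cast q0.2.two_le) (hK q0 hq0)
  have hK0 : 0 < K := by linarith
  calc _ ≤ ∑ q ∈ P, ∑ b ∈ Ico 1 (q : ℕ), ‖trig a N (b / (q : ℕ))‖ ^ 2 :=
        Finset.sum_le_sum fun q _ => by
          haveI := Fact.mk q.2
          exact sum_char_le q a N
    _ = ∑ x ∈ P.sigma (fun q => Ico 1 (q : ℕ)), ‖trig a N ((x.2 : ℝ) / ((x.1 : ℕ) : ℝ))‖ ^ 2 := by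
        rw [Finset.sum_sigma]
    _ ≤ ((K ^ 2)⁻¹⁻¹ + 4 * Real.pi * N) * ∑ n ∈ range N, ‖a n‖ ^ 2 := by
        refine additive_large_sieve a N (by positivity) _
          (fun x : (_ : Nat.Primes) × ℕ => (x.2 : ℝ) / ((x.1 : ℕ) : ℝ)) ?_ ?_
        · rintro ⟨q, b⟩ h
          simp only [Finset.mem_sigma, Finset.mem_Ico] at h ⊢
          have hq : (2 : ℝ) ≤ (q : ℕ) := by exact_mod_cast q.2.two_le
          have hqK := hK q h.1
          have hb : (1 : ℝ) ≤ b := by exact_mod_cast h.2.1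
          have hb' : (b : ℝ) + 1 ≤ (q : ℕ) := by exact_mod_cast h.2.2
          have h1 : (K ^ 2)⁻¹ / 2 ≤ 1 / ((q : ℕ) : ℝ) := by
            rw [div_eq_mul_inv, ← mul_inv, one_div]
            apply inv_anti₀ (by linarith)
            nlinarith
          constructor
          · refine h1.trans ?_
            gcongr
          · have h2 : (b : ℝ) / (q : ℕ) ≤ 1 - 1 / (q : ℕ) := by
              rw [div_le_iff₀ (by linarith)]
              have : (1 - 1 / ((q : ℕ) : ℝ)) * (q : ℕ) = (q : ℕ) - 1 := by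
                field_simp
              rw [this]
              linarith
            linarith
        · rintro ⟨q, b⟩ h ⟨q', b'⟩ h' hne
          simp only [Finset.mem_sigma, Finset.mem_Ico] at h h' ⊢
          have hq : (2 : ℝ) ≤ (q : ℕ) := by exact_mod_cast q.2.two_le
          have hq' : (2 : ℝ) ≤ (q' : ℕ) := by exact_mod_cast q'.2.two_le
          have hqK := hK q h.1
          have hqK' := hK q' h'.1
          have h1 : (b : ℝ) / (q : ℕ) - b' / (q' : ℕ) =
              ((b * (q' : ℕ) - b' * (q : ℕ) : ℤ) : ℝ) / ((q : ℕ) * (q' : ℕ)) := by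
            push_cast
            field_simp
          have h2 : (b * (q' : ℕ) - b' * (q : ℕ) : ℤ) ≠ 0 := by
            intro h0
            have h3 : b * (q' : ℕ) = b' * (q : ℕ) := by
              have := sub_eq_zero.1 h0
              exact_mod_cast this
            have h4 : (q : ℕ) ∣ b * (q' : ℕ) := ⟨b', by rw [h3]; ring⟩
            rcases (Nat.Prime.dvd_mul q.2).1 h4 with h5 | h5
            · exact Nat.not_dvd_of_pos_of_lt h.2.1 h.2.2 h5
            · have h6 : q = q' := by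
                apply Subtype.ext
                exact (Nat.prime_dvd_prime_iff_eq q.2 q'.2).1 h5
              subst h6
              have h7 : b = b' := Nat.eq_of_mul_eq_mul_right q.2.pos h3
              subst h7
              exact hne rfl
          rw [h1, abs_div]
          have h3 : (1 : ℝ) ≤ |((b * (q' : ℕ) - b' * (q : ℕ) : ℤ) : ℝ)| := by
            rw [← Int.cast_abs]
            exact_mod_cast Int.one_le_abs h2
          have h4 : |((q : ℕ) : ℝ) * (q' : ℕ)| = (q : ℕ) * (q' : ℕ) := abs_of_pos (by positivity)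
          rw [h4, inv_eq_one_div]
          have h5 : ((q : ℕ) : ℝ) * (q' : ℕ) ≤ K ^ 2 := by
            rw [pow_two]
            gcongr
          gcongr
    _ = _ := by rw [inv_inv]

end Pool.Agent.H27.LS
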