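import Pool.Agent.H27.LS.Chi

/-!
Module PC0 of the local smoothing proof (helper83): unweighted piece.
-/

set_option autoImplicit false

namespace Pool.Agent.H83.LS.H27

open MeasureTheory Set
open scoped ENNReal NNReal

/-- pointwise bound of the profile evolution -/
lemma PU_le (h1 : T_RED2) (n : ℕ) (hn : 2 ≤ n) (C0 : ℝ) (hC0 : 0 ≤ C0)
    (hk : ∀ x ρ : ℝ, 0 ≤ ρ → ‖kp n (fun σ => ((chis σ : ℝ) : ℂ)) x ρ‖ ≤
      C0 * (((1 + |x - ρ|) ^ 4)⁻¹ + ((1 + |x + ρ|) ^ 4)⁻¹))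
    (lam Lam t A : ℝ) (F : ℝ × ℝ → ℂ) (hlam : 0 < lam) (hLam : 0 < Lam) (hF : PF A F)
    (r z : ℝ) (hr : 0 < r) :
    ‖PU n lam Lam t F (r, z)‖ₑ ≤ ENNReal.ofReal C0 * ∫⁻ x₁ : ℝ, ENNReal.ofReal
      (Lam * (((1 + |Lam * x₁ - Lam * r|) ^ 4)⁻¹ + ((1 + |Lam * x₁ + Lam * r|) ^ 4)⁻¹)) *
      ‖cv (KK t lam Lam) (GG n Lam F) (x₁, z)‖ₑ := by
  rw [h1 n lam Lam t A F hn hlam hLam hF r z hr]
  refine (enorm_integral_le_lintegral_enorm _).trans ?_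
  rw [← lintegral_const_mul' _ _ ENNReal.ofReal_ne_top]
  apply lintegral_mono
  intro x₁
  simp only
  rw [enorm_mul, ← mul_assoc]
  gcongr
  rw [← ENNReal.ofReal_mul hC0, ← ofReal_norm]
  apply ENNReal.ofReal_le_ofReal
  rw [RCLike.norm_conj, norm_mul, Complex.norm_real, Real.norm_eq_abs, abs_of_pos hLam]
  have := hk (Lam * x₁) (Lam * r) (by positivity)
  calc Lam * ‖kp n (fun σ => ((chis σ : ℝ) : ℂ)) (Lam * x₁) (Lam * r)‖ ≤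
      Lam * (C0 * (((1 + |Lam * x₁ - Lam * r|) ^ 4)⁻¹ + ((1 + |Lam * x₁ + Lam * r|) ^ 4)⁻¹)) :=
        mul_le_mul_of_nonneg_left this hLam.le
    _ = _ := by ring

/-- weighted bound of the profile evolution at a fixed time -/
lemma PU_weighted (h1 : T_RED2) (h4 : T_WRED) (h5 : T_KAP) (n : ℕ) (hn : 2 ≤ n) (p β : ℝ)
    (hp : 1 ≤ p) (hβ0 : 0 ≤ β) (hβ : β < 1) : ∃ C : ℝ≥0, ∀ (lam Lam t A : ℝ) (F : ℝ × ℝ → ℂ),
    0 < lam → 0 < Lam → PF A F → Measurable (GG n Lam F) →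
    ∫⁻ z : ℝ, ∫⁻ r in Ioi (0 : ℝ), ‖PU n lam Lam t F (r, z)‖ₑ ^ p * ENNReal.ofReal (r ^ (-β)) ≤
      C * ∫⁻ x : ℝ × ℝ, ‖cv (KK t lam Lam) (GG n Lam F) x‖ₑ ^ p *
        ENNReal.ofReal ((|x.1| + 1 / Lam) ^ (-β)) := by
  obtain ⟨C0, hC0, hk⟩ := kp_bound h5 n 4 hn chis CB_chis
  obtain ⟨Cw, hw⟩ := h4 p β hp hβ0 hβ
  refine ⟨(ENNReal.ofReal C0 ^ p).toNNReal * Cw, fun lam Lam t A F hlam hLam hF hG => ?_⟩
  have htop : ENNReal.ofReal C0 ^ p ≠ ∞ :=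
    ENNReal.rpow_ne_top_of_nonneg (by linarith) ENNReal.ofReal_ne_top
  have hV : Measurable (fun x => ‖cv (KK t lam Lam) (GG n Lam F) x‖ₑ) :=
    (measurable_cv _ _ (measurable_KK t lam Lam) hG).enorm
  have h6 := hw Lam (fun x => ‖cv (KK t lam Lam) (GG n Lam F) x‖ₑ) hLam hV
  calc
    _ ≤ ∫⁻ z : ℝ, ∫⁻ r in Ioi (0 : ℝ), ENNReal.ofReal C0 ^ p * ((∫⁻ x₁ : ℝ, ENNReal.ofReal
      (Lam * (((1 + |Lam * x₁ - Lam * r|) ^ 4)⁻¹ + ((1 + |Lam * x₁ + Lam * r|) ^ 4)⁻¹)) *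
      ‖cv (KK t lam Lam) (GG n Lam F) (x₁, z)‖ₑ) ^ p * ENNReal.ofReal (r ^ (-β))) := by
        apply lintegral_mono
        intro z
        apply setLIntegral_mono' measurableSet_Ioi
        intro r hr
        rw [← mul_assoc, ← ENNReal.mul_rpow_of_nonneg _ _ (by linarith)]
        gcongr
        exact PU_le h1 n hn C0 hC0 hk lam Lam t A F hlam hLam hF r z hr
    _ = ENNReal.ofReal C0 ^ p * ∫⁻ z : ℝ, ∫⁻ r in Ioi (0 : ℝ), (∫⁻ x₁ : ℝ, ENNReal.ofReal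
      (Lam * (((1 + |Lam * x₁ - Lam * r|) ^ 4)⁻¹ + ((1 + |Lam * x₁ + Lam * r|) ^ 4)⁻¹)) *
      ‖cv (KK t lam Lam) (GG n Lam F) (x₁, z)‖ₑ) ^ p * ENNReal.ofReal (r ^ (-β)) := by
        rw [← lintegral_const_mul' _ _ htop]
        apply lintegral_congr
        intro z
        rw [lintegral_const_mul' _ _ htop]
    _ ≤ ENNReal.ofReal C0 ^ p * _ := mul_le_mul_right h6 _
    _ = _ := by
        rw [ENNReal.coe_mul, ENNReal.coe_toNNReal htop, mul_assoc]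

/-- PC0 -/
theorem pc0 (h1 : T_RED2) (h2 : T_GB) (h3 : T_S2D) (h4 : T_WRED) (h5 : T_KAP) : T_PC0 := by
  intro n p η hn hp2 hp3 hη
  obtain ⟨C1, hC1⟩ := PU_weighted h1 h4 h5 n hn p 0 (by linarith) le_rfl one_pos
  obtain ⟨Cs, hs⟩ := h3 p η hp2 hp3 hη
  obtain ⟨Cg, hCg, hg⟩ := (h2 n hn).1
  refine ⟨C1 * Cs * (Real.toNNReal (Cg ^ (p - 2) * Cg)), fun lam Lam A F hlam hLam hLl hF => ?_⟩
  obtain ⟨hG1, hG2, hG3, hG4⟩ := hg Lam A F hLam hF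
  have hA := PF.nonneg hF
  have h6 := (hs lam Lam (GG n Lam F) (Cg * A) hlam hLam hLl hG1 hG2 hG3).1
  have h7 : ∀ t, ∫⁻ z : ℝ, ∫⁻ r in Ioi (0 : ℝ), ‖PU n lam Lam t F (r, z)‖ₑ ^ p ≤
      C1 * ∫⁻ x : ℝ × ℝ, ‖cv (KK t lam Lam) (GG n Lam F) x‖ₑ ^ p := by
    intro t
    have h8 := hC1 lam Lam t A F (by linarith) hLam hF hG1
    simpa using h8
  calc
    _ ≤ ∫⁻ t in Icc (1 : ℝ) 2, C1 * ∫⁻ x : ℝ × ℝ, ‖cv (KK t lam Lam) (GG n Lam F) x‖ₑ ^ p :=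
        lintegral_mono (fun t => h7 t)
    _ = C1 * ∫⁻ t in Icc (1 : ℝ) 2, ∫⁻ x : ℝ × ℝ, ‖cv (KK t lam Lam) (GG n Lam F) x‖ₑ ^ p :=
        lintegral_const_mul' _ _ ENNReal.coe_ne_top
    _ ≤ C1 * (Cs * ENNReal.ofReal (lam ^ η * (Cg * A) ^ (p - 2)) *
        (ENNReal.ofReal Cg * ∫⁻ y, ‖F y‖ₑ ^ 2)) := by
        refine mul_le_mul_right (h6.trans ?_) _
        exact mul_le_mul_right hG4 _
    _ = _ := by
        have h9 : ENNReal.ofReal (lam ^ η * (Cg * A) ^ (p - 2)) * ENNReal.ofReal Cg =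
            ENNReal.ofReal (Cg ^ (p - 2) * Cg) * ENNReal.ofReal (lam ^ η * A ^ (p - 2)) := by
          rw [← ENNReal.ofReal_mul (by positivity), ← ENNReal.ofReal_mul (by positivity),
            Real.mul_rpow hCg hA]
          congr 1
          ring
        have h10 : ((Real.toNNReal (Cg ^ (p - 2) * Cg) : ℝ≥0) : ℝ≥0∞) =
            ENNReal.ofReal (Cg ^ (p - 2) * Cg) := rfl
        rw [ENNReal.coe_mul, ENNReal.coe_mul, h10]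
        calc C1 * (Cs * ENNReal.ofReal (lam ^ η * (Cg * A) ^ (p - 2)) *
            (ENNReal.ofReal Cg * ∫⁻ y, ‖F y‖ₑ ^ 2)) =
            C1 * Cs * (ENNReal.ofReal (lam ^ η * (Cg * A) ^ (p - 2)) * ENNReal.ofReal Cg) *
              ∫⁻ y, ‖F y‖ₑ ^ 2 := by ring
          _ = _ := by rw [h9]; ring

end Pool.Agent.H83.LS.H27
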