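import Pool.Agent.H27.LS.Kc

/-!
Module RED2 of the local smoothing proof (helper83): from profiles to the plane.
-/

set_option autoImplicit false

namespace Pool.Agent.H83.LS.H27

open MeasureTheory Set FourierTransform
open scoped ENNReal NNReal

lemma hchi : ∀ s, chi s ≠ 0 → 1 / 8 ≤ s ∧ s ≤ 8 := fun s h =>
  ⟨by have := (chi_supp h).1; linarith, by have := (chi_supp h).2; linarith⟩

lemma hchis : ∀ s, chis s ≠ 0 → 1 / 8 ≤ s ∧ s ≤ 8 := fun s h =>
  ⟨by have := (chis_supp h).1; linarith, by have := (chis_supp h).2; linarith⟩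

lemma GG_eq (n : ℕ) (Lam A : ℝ) (F : ℝ × ℝ → ℂ) (hL : 0 < Lam) (hF : PF A F) (x : ℝ × ℝ) :
    GG n Lam F x = ∫ ρ : ℝ, kc n chi Lam x.1 ρ * F (ρ, x.2) := by
  unfold GG
  rw [← integral_indicator measurableSet_Ioi]
  congr 1
  ext ρ
  by_cases hρ : ρ ∈ Ioi (0 : ℝ)
  · have hρ' : 0 < ρ := hρ
    rw [indicator_of_mem hρ, kc_eq n chi hchi Lam x.1 ρ hL hρ'.le]
  · rw [indicator_of_notMem hρ]
    have : F (ρ, x.2) = 0 := by
      by_contra h
      exact hρ (hF.2.2.1 _ h)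
    rw [this, mul_zero]

lemma bound_integrable {G : ℝ × ℝ → ℂ} (hG : Measurable G) (B R : ℝ)
    (h1 : ∀ y, ‖G y‖ ≤ B) (h2 : ∀ y, R < ‖y‖ → G y = 0) : Integrable G := by
  have hi : Integrable ((Metric.closedBall (0 : ℝ × ℝ) R).indicator (fun _ => B)) := by
    rw [integrable_indicator_iff Metric.isClosed_closedBall.measurableSet]
    exact integrableOn_const (isCompact_closedBall (0 : ℝ × ℝ) R).measure_lt_top.ne
  refine hi.mono' hG.aestronglyMeasurable (Filter.Eventually.of_forall (fun y => ?_))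
  by_cases hy : y ∈ Metric.closedBall (0 : ℝ × ℝ) R
  · rw [indicator_of_mem hy]; exact h1 y
  · rw [indicator_of_notMem hy]
    rw [mem_closedBall_zero_iff, not_le] at hy
    rw [h2 y hy, norm_zero]

lemma slice (h : T_KAP) (n : ℕ) (hn : 2 ≤ n) (Lam A : ℝ) (F : ℝ × ℝ → ℂ) (hL : 0 < Lam)
    (hF : PF A F) (ζ : ℝ × ℝ) (y₂ : ℝ) :
    ∫ y₁ : ℝ, e (-(y₁ * ζ.1 + y₂ * ζ.2)) * (∫ ρ : ℝ, kc n chi Lam y₁ ρ * F (ρ, y₂)) =
      ∫ ρ : ℝ, e (-(y₂ * ζ.2)) * F (ρ, y₂) * ((gx n chi Lam ρ ζ.1 : ℝ) : ℂ) := by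
  obtain ⟨R, hR⟩ := hF.2.2.2
  obtain ⟨C, hC, hk⟩ := kc_dom h n hn chi hchi CB_chi Lam R hL
  have hFm : Measurable (fun ρ : ℝ => F (ρ, y₂)) := hF.1.comp (measurable_id.prodMk measurable_const)
  have hFi : Integrable (fun ρ : ℝ => F (ρ, y₂)) := by
    have hi : Integrable ((Icc (-R) R).indicator (fun _ => A)) := by
      rw [integrable_indicator_iff measurableSet_Icc]
      exact integrableOn_const isCompact_Icc.measure_lt_top.ne
    refine hi.mono' hFm.aestronglyMeasurable (Filter.Eventually.of_forall (fun ρ => ?_))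
    by_cases hρ : ρ ∈ Icc (-R) R
    · rw [indicator_of_mem hρ]; exact hF.2.1 _
    · rw [indicator_of_notMem hρ]
      have : R < ‖((ρ, y₂) : ℝ × ℝ)‖ := by
        have h1 : |ρ| ≤ ‖((ρ, y₂) : ℝ × ℝ)‖ := norm_fst_le (ρ, y₂)
        refine lt_of_lt_of_le ?_ h1
        by_contra h2
        push Not at h2
        exact hρ (abs_le.mp h2)
      rw [hR _ this, norm_zero]
  have hint : Integrable (fun q : ℝ × ℝ => e (-(q.1 * ζ.1 + y₂ * ζ.2)) *
      (kc n chi Lam q.1 q.2 * F (q.2, y₂))) := by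
    have h1 : Integrable (fun q : ℝ × ℝ => (C * ((1 + |q.1|) ^ 2)⁻¹) * ‖F (q.2, y₂)‖) :=
      (integrable_w2.const_mul C).mul_prod hFi.norm
    refine h1.mono' ?_ (Filter.Eventually.of_forall (fun q => ?_))
    · apply Measurable.aestronglyMeasurable
      apply Measurable.mul
      · exact measurable_e.comp (by fun_prop)
      · apply Measurable.mul
        · exact measurable_kc n hn chi continuous_chi Lam
        · exact hFm.comp measurable_snd
    · rw [norm_mul, norm_e, one_mul, norm_mul]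
      by_cases hz : F (q.2, y₂) = 0
      · rw [hz, norm_zero, mul_zero, mul_zero]
      · apply mul_le_mul_of_nonneg_right _ (norm_nonneg _)
        apply hk
        · exact (hF.2.2.1 _ hz).le
        · by_contra h2
          push Not at h2
          apply hz
          apply hR
          exact h2.trans_le ((le_abs_self _).trans (norm_fst_le (q.2, y₂)))
  calc
    _ = ∫ y₁ : ℝ, ∫ ρ : ℝ, e (-(y₁ * ζ.1 + y₂ * ζ.2)) * (kc n chi Lam y₁ ρ * F (ρ, y₂)) := by
        congr 1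
        ext y₁
        rw [integral_const_mul]
    _ = ∫ ρ : ℝ, ∫ y₁ : ℝ, e (-(y₁ * ζ.1 + y₂ * ζ.2)) * (kc n chi Lam y₁ ρ * F (ρ, y₂)) :=
        integral_integral_swap hint
    _ = _ := by
        congr 1
        ext ρ
        by_cases hz : F (ρ, y₂) = 0
        · simp [hz]
        · have hρ : 0 < ρ := hF.2.2.1 _ hz
          have h3 := kc_inv h n hn chi continuous_chi hchi CB_chi Lam ρ ζ.1 hL hρ.le
          rw [← h3, ← integral_const_mul]
          congr 1
          ext y₁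
          rw [neg_add, e_add]
          ring

lemma Ff_GG (h : T_KAP) (n : ℕ) (hn : 2 ≤ n) (Lam A : ℝ) (F : ℝ × ℝ → ℂ) (hL : 0 < Lam)
    (hF : PF A F) (hG : Integrable (GG n Lam F)) (ζ : ℝ × ℝ) :
    Ff (GG n Lam F) ζ = if 0 < ζ.1 then ((chi (ζ.1 / Lam) : ℝ) : ℂ) * PH n F ζ else 0 := by
  obtain ⟨R, hR⟩ := hF.2.2.2
  have h1 : Ff (GG n Lam F) ζ = ∫ y₂ : ℝ, ∫ y₁ : ℝ, e (-(y₁ * ζ.1 + y₂ * ζ.2)) *
      GG n Lam F (y₁, y₂) := by
    unfold Ff
    have hi : Integrable (fun y : ℝ × ℝ => e (-(y.1 * ζ.1 + y.2 * ζ.2)) * GG n Lam F y) := by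
      apply hG.bdd_mul (c := 1)
      · exact (continuous_e.comp (by fun_prop)).aestronglyMeasurable
      · exact Filter.Eventually.of_forall (fun ζ => (norm_e _).le)
    rw [Measure.volume_eq_prod] at hi ⊢
    rw [integral_prod_symm _ hi]
  have h2 : Ff (GG n Lam F) ζ = ∫ y₂ : ℝ, ∫ ρ : ℝ, e (-(y₂ * ζ.2)) * F (ρ, y₂) *
      ((gx n chi Lam ρ ζ.1 : ℝ) : ℂ) := by
    rw [h1]
    congr 1
    ext y₂
    rw [← slice h n hn Lam A F hL hF ζ y₂]
    congr 1
    ext y₁
    rw [GG_eq n Lam A F hL hF]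
  obtain ⟨M, hM⟩ : ∃ M : ℝ, ∀ ρ ∈ Icc (-R) R, |gx n chi Lam ρ ζ.1| ≤ M := by
    have hc : Continuous (fun ρ => gx n chi Lam ρ ζ.1) :=
      (measurable_gx n hn chi continuous_chi Lam).comp (continuous_id.prodMk continuous_const)
    obtain ⟨M, hM⟩ := isCompact_Icc.exists_bound_of_continuousOn (s := Icc (-R) R) hc.continuousOn
    exact ⟨M, hM⟩
  have hA := PF.nonneg hF
  have h3 : Integrable (fun y : ℝ × ℝ => e (-(y.2 * ζ.2)) * F y * ((gx n chi Lam y.1 ζ.1 : ℝ) : ℂ)) := by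
    apply bound_integrable (B := A * |M|) (R := R)
    · apply Measurable.mul
      · apply Measurable.mul
        · exact measurable_e.comp (by fun_prop)
        · exact hF.1
      · apply Complex.measurable_ofReal.comp
        exact (measurable_gx n hn chi continuous_chi Lam).measurable.comp
          (measurable_fst.prodMk measurable_const)
    · intro y
      rw [norm_mul, norm_mul, norm_e, one_mul, Complex.norm_real, Real.norm_eq_abs]
      by_cases hy : R < ‖y‖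
      · rw [hR y hy, norm_zero, zero_mul]; positivity
      · push Not at hy
        refine mul_le_mul (hF.2.1 y) ?_ (abs_nonneg _) hA
        refine (hM y.1 ?_).trans (le_abs_self M)
        exact abs_le.mp ((norm_fst_le y).trans hy)
    · intro y hy
      rw [hR y hy]; simp
  have h4 : Ff (GG n Lam F) ζ = ∫ y : ℝ × ℝ, e (-(y.2 * ζ.2)) * F y *
      ((gx n chi Lam y.1 ζ.1 : ℝ) : ℂ) := by
    rw [h2]
    rw [Measure.volume_eq_prod] at h3 ⊢
    rw [integral_prod_symm _ h3]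
  rw [h4]
  by_cases hζ : 0 < ζ.1
  · rw [if_pos hζ]
    unfold PH
    rw [← integral_const_mul]
    congr 1
    ext y
    by_cases hz : F y = 0
    · simp [hz]
    · rw [gx_pos n chi Lam y.1 ζ.1 (hF.2.2.1 _ hz).le hζ.le]
      push_cast
      ring
  · rw [if_neg hζ]
    push Not at hζ
    have : ∀ y : ℝ × ℝ, e (-(y.2 * ζ.2)) * F y * ((gx n chi Lam y.1 ζ.1 : ℝ) : ℂ) = 0 := by
      intro y
      rw [gx_neg n chi hchi Lam y.1 ζ.1 hL hζ]
      simp
    simp [this]

/-- the symbol of `KK` without the oscillating factor -/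
noncomputable def aa (lam Lam : ℝ) (ξ : ℝ × ℝ) : ℂ :=
  ((chi (Real.sqrt (ξ.1 ^ 2 + ξ.2 ^ 2) / lam) * chis (ξ.1 / Lam) : ℝ) : ℂ)

lemma measurable_aa (lam Lam : ℝ) : Measurable (aa lam Lam) := by
  unfold aa
  apply Complex.measurable_ofReal.comp
  apply Measurable.mul
  · exact continuous_chi.measurable.comp (by fun_prop)
  · exact continuous_chis.measurable.comp (by fun_prop)

lemma integrable_aa (lam Lam : ℝ) (hlam : 0 < lam) : Integrable (aa lam Lam) := by
  apply bound_integrable (measurable_aa lam Lam) (B := 1) (R := 2 * lam)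
  · intro y
    unfold aa
    rw [Complex.norm_real, Real.norm_eq_abs, abs_mul]
    calc _ ≤ 1 * 1 := mul_le_mul (abs_chi_le _) (abs_chis_le _) (abs_nonneg _) zero_le_one
      _ = 1 := by ring
  · intro y hy
    unfold aa
    have h1 : chi (Real.sqrt (y.1 ^ 2 + y.2 ^ 2) / lam) = 0 := by
      by_contra h
      have h2 := (chi_supp h).2
      rw [div_lt_iff₀ hlam] at h2
      have h3 : ‖y‖ ≤ Real.sqrt (y.1 ^ 2 + y.2 ^ 2) := by
        rw [Prod.norm_def]
        apply max_le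
        · rw [Real.norm_eq_abs, ← Real.sqrt_sq_eq_abs]
          apply Real.sqrt_le_sqrt
          nlinarith [sq_nonneg y.2]
        · rw [Real.norm_eq_abs, ← Real.sqrt_sq_eq_abs]
          apply Real.sqrt_le_sqrt
          nlinarith [sq_nonneg y.1]
      linarith
    rw [h1]; simp

lemma cv_eq (t lam Lam : ℝ) (hlam : 0 < lam) (g : ℝ × ℝ → ℂ) (hg : Integrable g) (x : ℝ × ℝ) :
    cv (KK t lam Lam) g x = ∫ ξ : ℝ × ℝ,
      e (x.1 * ξ.1 + x.2 * ξ.2 + t * Real.sqrt (ξ.1 ^ 2 + ξ.2 ^ 2)) * (aa lam Lam ξ * Ff g ξ) := by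
  have hint : Integrable (fun q : (ℝ × ℝ) × (ℝ × ℝ) =>
      e ((x.1 - q.1.1) * q.2.1 + (x.2 - q.1.2) * q.2.2 + t * Real.sqrt (q.2.1 ^ 2 + q.2.2 ^ 2)) *
        (g q.1 * aa lam Lam q.2)) := by
    apply (hg.mul_prod (integrable_aa lam Lam hlam)).bdd_mul (c := 1)
    · exact (measurable_e.comp (by fun_prop)).aestronglyMeasurable
    · exact Filter.Eventually.of_forall (fun ζ => (norm_e _).le)
  calc
    _ = ∫ y : ℝ × ℝ, ∫ ξ : ℝ × ℝ, e ((x.1 - y.1) * ξ.1 + (x.2 - y.2) * ξ.2 +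
        t * Real.sqrt (ξ.1 ^ 2 + ξ.2 ^ 2)) * (g y * aa lam Lam ξ) := by
        unfold cv KK
        congr 1
        ext y
        rw [← integral_mul_const]
        congr 1
        ext ξ
        simp only [Prod.fst_sub, Prod.snd_sub]
        unfold aa
        ring
    _ = ∫ ξ : ℝ × ℝ, ∫ y : ℝ × ℝ, e ((x.1 - y.1) * ξ.1 + (x.2 - y.2) * ξ.2 +
        t * Real.sqrt (ξ.1 ^ 2 + ξ.2 ^ 2)) * (g y * aa lam Lam ξ) :=
        integral_integral_swap hint
    _ = _ := by
        congr 1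
        ext ξ
        unfold Ff
        rw [← mul_assoc, ← integral_const_mul]
        congr 1
        ext y
        rw [show (x.1 - y.1) * ξ.1 + (x.2 - y.2) * ξ.2 + t * Real.sqrt (ξ.1 ^ 2 + ξ.2 ^ 2) =
          (x.1 * ξ.1 + x.2 * ξ.2 + t * Real.sqrt (ξ.1 ^ 2 + ξ.2 ^ 2)) +
          (-(y.1 * ξ.1 + y.2 * ξ.2)) by ring, e_add]
        ring

/-- RED2 -/
theorem red2 (h1 : T_KAP) (h2 : T_GB) : T_RED2 := by
  intro n lam Lam t A F hn hlam hLam hF r z hr
  obtain ⟨Cg, hCg, hg⟩ := (h2 n hn).1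
  obtain ⟨hG1, hG2, hG3, hG4⟩ := hg Lam A F hLam hF
  obtain ⟨b, hb⟩ : ∃ b : ℝ × ℝ → ℂ, b = fun ξ => e (z * ξ.2 + t * Real.sqrt (ξ.1 ^ 2 + ξ.2 ^ 2)) *
    (aa lam Lam ξ * Ff (GG n Lam F) ξ) := ⟨_, rfl⟩
  have hFfm : Measurable (Ff (GG n Lam F)) := by
    have h : Measurable (fun q : (ℝ × ℝ) × (ℝ × ℝ) =>
        e (-(q.2.1 * q.1.1 + q.2.2 * q.1.2)) * GG n Lam F q.2) := by
      apply Measurable.mul
      · exact measurable_e.comp (by fun_prop)
      · exact hG1.comp measurable_snd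
    exact (StronglyMeasurable.integral_prod_right' (ν := volume) h.stronglyMeasurable).measurable
  have hFfb : ∀ ξ, ‖Ff (GG n Lam F) ξ‖ ≤ ∫ y, ‖GG n Lam F y‖ := by
    intro ξ
    unfold Ff
    refine (norm_integral_le_integral_norm _).trans (le_of_eq ?_)
    congr 1; ext y
    rw [norm_mul, norm_e, one_mul]
  have hbi : Integrable b := by
    rw [hb]
    have h3 : Integrable (fun ξ => aa lam Lam ξ * Ff (GG n Lam F) ξ) :=
      (integrable_aa lam Lam hlam).mul_bdd (c := ∫ y, ‖GG n Lam F y‖) hFfm.aestronglyMeasurable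
        (Filter.Eventually.of_forall hFfb)
    apply h3.bdd_mul (c := 1)
    · exact (continuous_e.comp (by fun_prop)).aestronglyMeasurable
    · exact Filter.Eventually.of_forall (fun ζ => (norm_e _).le)
  have hki := integrable_kc h1 n hn chis continuous_chis hchis CB_chis Lam r hLam hr.le
  have hki' : Integrable (fun x₁ => (starRingEnd ℂ) (kc n chis Lam x₁ r)) := by
    refine hki.norm.mono' ?_ (Filter.Eventually.of_forall (fun x => ?_))
    · exact (Complex.continuous_conj.measurable.comp ((measurable_kc n hn chis continuous_chis Lam).comp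
        (measurable_id.prodMk measurable_const))).aestronglyMeasurable
    · rw [RCLike.norm_conj]
  have hint : Integrable (fun q : ℝ × (ℝ × ℝ) => e (q.1 * q.2.1) *
      ((starRingEnd ℂ) (kc n chis Lam q.1 r) * b q.2)) := by
    apply (hki'.mul_prod hbi).bdd_mul (c := 1)
    · exact (measurable_e.comp (by fun_prop)).aestronglyMeasurable
    · exact Filter.Eventually.of_forall (fun ζ => (norm_e _).le)
  symm
  calc
    _ = ∫ x₁ : ℝ, ∫ ξ : ℝ × ℝ, e (x₁ * ξ.1) * ((starRingEnd ℂ) (kc n chis Lam x₁ r) * b ξ) := by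
        congr 1
        ext x₁
        rw [kc_eq n chis hchis Lam x₁ r hLam hr.le, cv_eq t lam Lam hlam _ hG2, ← integral_const_mul]
        congr 1
        ext ξ
        rw [hb]
        simp only
        rw [show x₁ * ξ.1 + z * ξ.2 + t * Real.sqrt (ξ.1 ^ 2 + ξ.2 ^ 2) =
          x₁ * ξ.1 + (z * ξ.2 + t * Real.sqrt (ξ.1 ^ 2 + ξ.2 ^ 2)) by ring, e_add]
        ring
    _ = ∫ ξ : ℝ × ℝ, ∫ x₁ : ℝ, e (x₁ * ξ.1) * ((starRingEnd ℂ) (kc n chis Lam x₁ r) * b ξ) :=
        integral_integral_swap hint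
    _ = ∫ ξ : ℝ × ℝ, ((gx n chis Lam r ξ.1 : ℝ) : ℂ) * b ξ := by
        congr 1
        ext ξ
        rw [← kc_inv' h1 n hn chis continuous_chis hchis CB_chis Lam r ξ.1 hLam hr.le,
          ← integral_mul_const]
        congr 1
        ext x₁
        ring
    _ = _ := by
        unfold PU
        rw [← integral_indicator (measurableSet_lt measurable_const measurable_fst)]
        congr 1
        ext ξ
        by_cases hξ : 0 < ξ.1
        · rw [indicator_of_mem (show ξ ∈ {ζ : ℝ × ℝ | 0 < ζ.1} from hξ)]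
          rw [gx_pos n chis Lam r ξ.1 hr.le hξ.le, hb]
          simp only
          rw [Ff_GG h1 n hn Lam A F hLam hF hG2 ξ, if_pos hξ]
          unfold aa
          have h5 := chis_sq_mul_chi (ξ.1 / Lam)
          have h6 : ((chis (ξ.1 / Lam) : ℝ) : ℂ) * ((chis (ξ.1 / Lam) : ℝ) : ℂ) *
              ((chi (ξ.1 / Lam) : ℝ) : ℂ) = ((chi (ξ.1 / Lam) : ℝ) : ℂ) := by exact_mod_cast h5
          push_cast
          linear_combination (((bj n (r * ξ.1) : ℝ) : ℂ) *
            e (z * ξ.2 + t * Real.sqrt (ξ.1 ^ 2 + ξ.2 ^ 2)) *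
            ((chi (Real.sqrt (ξ.1 ^ 2 + ξ.2 ^ 2) / lam) : ℝ) : ℂ) * PH n F ξ) * h6
        · rw [indicator_of_notMem (show ξ ∉ {ζ : ℝ × ℝ | 0 < ζ.1} from hξ)]
          push Not at hξ
          rw [gx_neg n chis hchis Lam r ξ.1 hLam hξ]
          simp

end Pool.Agent.H83.LS.H27
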