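import Mathlib

/-!
# The hat function and its cosine expansion on `[-5, 5]`
-/

set_option autoImplicit false

namespace Pool.Agent.H27.LS

open Finset Real

/-- hat function -/
noncomputable def hat (u : ℝ) : ℝ := max 0 (1 - |u|)

lemma hat_nonneg (u : ℝ) : 0 ≤ hat u := le_max_left _ _

lemma hat_le_one (u : ℝ) : hat u ≤ 1 := max_le zero_le_one (by linarith [abs_nonneg u])

lemma hat_eq_zero {u : ℝ} (h : 1 ≤ |u|) : hat u = 0 := max_eq_left (by linarith)

lemma abs_lt_one_of_hat_ne_zero {u : ℝ} (h : hat u ≠ 0) : |u| < 1 := by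
  by_contra h1
  exact h (hat_eq_zero (not_lt.1 h1))

lemma hat_ge {u : ℝ} : 1 - |u| ≤ hat u := le_max_right _ _

/-- clamp to `[-1, 1]` -/
noncomputable def clamp (u : ℝ) : ℝ := max (-1) (min 1 u)

lemma clamp_mono {u v : ℝ} (h : u ≤ v) : clamp u ≤ clamp v := by
  unfold clamp
  gcongr

lemma clamp_le (u : ℝ) : clamp u ≤ 1 := max_le (by norm_num) (min_le_left _ _)
lemma le_clamp (u : ℝ) : -1 ≤ clamp u := le_max_left _ _

lemma hat_clamp (u : ℝ) : hat u = 1 - |clamp u| := by
  unfold hat clamp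
  rcases le_total u (-1) with h | h
  · rw [min_eq_right (by linarith), max_eq_left h, abs_of_nonpos (by linarith : u ≤ 0),
      max_eq_left (by linarith)]
    norm_num
  · rcases le_total 1 u with h' | h'
    · rw [min_eq_left h', max_eq_right (by norm_num : (-1 : ℝ) ≤ 1),
        abs_of_nonneg (by linarith : 0 ≤ u), max_eq_left (by linarith)]
      norm_num
    · rw [min_eq_right h', max_eq_right h, max_eq_right]
      have := abs_le.2 ⟨h, h'⟩
      linarith

lemma abs_hat_sub_le {u v : ℝ} (h : u ≤ v) : |hat u - hat v| ≤ clamp v - clamp u := by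
  rw [hat_clamp, hat_clamp]
  have h1 : 1 - |clamp u| - (1 - |clamp v|) = |clamp v| - |clamp u| := by ring
  rw [h1]
  refine (abs_abs_sub_abs_le_abs_sub _ _).trans (le_of_eq ?_)
  rw [abs_of_nonneg]
  linarith [clamp_mono h]

/-- coefficients of the cosine expansion -/
noncomputable def cf (k : ℕ) : ℝ :=
  if k = 0 then 1 / 6 else 6 / π ^ 2 * (1 / (k : ℝ) ^ 2) * (1 - cos (π * k / 3))

lemma cf_nonneg (k : ℕ) : 0 ≤ cf k := by
  unfold cf
  split_ifs
  · norm_num
  · have := Real.cos_le_one (π * k / 3)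
    have h2 : 0 ≤ 1 - cos (π * k / 3) := by linarith
    positivity

lemma hasSum_B2 {x : ℝ} (hx : x ∈ Set.Icc (0 : ℝ) 1) :
    HasSum (fun n : ℕ => 1 / (n : ℝ) ^ 2 * Real.cos (2 * π * n * x)) (π ^ 2 * (x ^ 2 - x + 1 / 6)) := by
  have h := hasSum_one_div_nat_pow_mul_cos (k := 1) one_ne_zero hx
  have h1 : (Polynomial.map (algebraMap ℚ ℝ) (Polynomial.bernoulli (2 * 1))).eval x =
      x ^ 2 - x + 1 / 6 := by
    have h2 : (Polynomial.bernoulli (2 * 1)) =
        Polynomial.X ^ 2 - Polynomial.X + Polynomial.C (1 / 6 : ℚ) := by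
      have h0 : _root_.bernoulli 2 = 1 / 6 := by
        rw [bernoulli_eq_bernoulli'_of_ne_one (by norm_num), bernoulli'_two]
      rw [Polynomial.bernoulli]
      simp only [mul_one, Finset.sum_range_succ, Finset.sum_range_zero, zero_add,
        Nat.choose_zero_right, Nat.choose_self, _root_.bernoulli_zero, _root_.bernoulli_one, h0]
      norm_num [← Polynomial.C_mul_X_pow_eq_monomial]
      ring
    rw [h2]
    simp
  rw [h1] at h
  have h3 : (-1 : ℝ) ^ (1 + 1) * (2 * π) ^ (2 * 1) / 2 / ((2 * 1).factorial : ℝ) = π ^ 2 := by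
    norm_num [Nat.factorial]
    ring
  rw [h3] at h
  exact h

lemma hat_hasSum_aux {x : ℝ} (hx0 : 0 ≤ x) (hx : x ≤ 5 / 6) :
    HasSum (fun k : ℕ => cf k * Real.cos (2 * π * k * x)) (max 0 (1 - 6 * x)) := by
  have h1 := hasSum_B2 (x := x) ⟨hx0, by linarith⟩
  have h2 := hasSum_B2 (x := x + 1 / 6) ⟨by linarith, by linarith⟩
  have h3 := hasSum_B2 (x := |x - 1 / 6|) ⟨abs_nonneg _, by rw [abs_le]; constructor <;> linarith⟩
  have h4 := ((h1.sub (h2.mul_left (1 / 2))).sub (h3.mul_left (1 / 2))).mul_left (6 / π ^ 2)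
  have h5 : HasSum (fun k : ℕ => if k = 0 then (1 / 6 : ℝ) else 0) (1 / 6) := by
    simpa using hasSum_ite_eq (0 : ℕ) (1 / 6 : ℝ)
  have h6 := h5.add h4
  convert h6 using 1
  · funext k
    by_cases hk : k = 0
    · simp [cf, hk]
    · unfold cf
      rw [if_neg hk, if_neg hk]
      have h7 : Real.cos (2 * π * k * |x - 1 / 6|) = Real.cos (2 * π * k * x - π * k / 3) := by
        rcases abs_cases (x - 1 / 6) with h | h
        · rw [h.1]; congr 1; ring
        · rw [h.1, ← Real.cos_neg]; congr 1; ring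
      have h8 : Real.cos (2 * π * k * (x + 1 / 6)) = Real.cos (2 * π * k * x + π * k / 3) := by
        congr 1; ring
      rw [h7, h8, Real.cos_add, Real.cos_sub]
      ring
  · have hπ : π ^ 2 ≠ 0 := by positivity
    rcases le_total x (1 / 6) with h | h
    · rw [abs_of_nonpos (by linarith : x - 1 / 6 ≤ 0), max_eq_right (by linarith)]
      field_simp
      ring
    · rw [abs_of_nonneg (by linarith : 0 ≤ x - 1 / 6), max_eq_left (by linarith)]
      field_simp
      ring

/-- cosine expansion of the hat function -/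
theorem hat_hasSum {u : ℝ} (hu : |u| ≤ 5) :
    HasSum (fun k : ℕ => cf k * Real.cos (k * (π / 3 * u))) (hat u) := by
  have h := hat_hasSum_aux (x := |u| / 6) (by positivity) (by linarith)
  have h1 : (6 : ℝ) * (|u| / 6) = |u| := by ring
  rw [h1] at h
  have h2 : (fun k : ℕ => cf k * Real.cos (k * (π / 3 * u))) =
      fun k : ℕ => cf k * Real.cos (2 * π * k * (|u| / 6)) := by
    funext k
    congr 1
    rcases abs_cases u with h' | h'
    · rw [h'.1]; congr 1; ring
    · rw [h'.1, ← Real.cos_neg]; congr 1; ring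
  rw [h2]
  exact h

lemma cf_hasSum : HasSum cf 1 := by
  have h := hat_hasSum (u := 0) (by norm_num)
  simpa [hat] using h

end Pool.Agent.H27.LS
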