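import Pool.Agent.H27.LS.Mult
import Pool.Agent.H27.LS.Weight

/-!
# Bilinear sums over characters to prime moduli
-/

set_option autoImplicit false

namespace Pool.Agent.H27.LS

open Finset Complex

/-- pairs (prime modulus, character) -/
abbrev CH := (q : Nat.Primes) × DirichletCharacter ℂ (q : ℕ)

open Classical in
/-- the nontrivial characters modulo the primes of `P` -/
noncomputable def chars (P : Finset Nat.Primes) : Finset CH :=
  P.sigma fun q => univ.erase (1 : DirichletCharacter ℂ (q : ℕ))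

theorem large_sieve' (P : Finset Nat.Primes) {K : ℝ} (hK : ∀ q ∈ P, ((q : ℕ) : ℝ) ≤ K)
    (a : ℕ → ℂ) (N : ℕ) :
    ∑ x ∈ chars P, ‖∑ n ∈ range N, a n * x.2 n‖ ^ 2 ≤
      (K ^ 2 + 4 * Real.pi * N) * ∑ n ∈ range N, ‖a n‖ ^ 2 := by
  refine le_trans (le_of_eq ?_) (large_sieve P hK a N)
  rw [chars, Finset.sum_sigma]
  refine Finset.sum_congr rfl fun q _ => Finset.sum_congr ?_ fun _ _ => rfl
  congr
  exact Subsingleton.elim _ _

/-- twist by `n ↦ n ^ (iφ)` -/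
noncomputable def tw (φ : ℝ) (a : ℕ → ℂ) (n : ℕ) : ℂ := a n * exp ((φ * Real.log n : ℝ) * I)

lemma norm_tw (φ : ℝ) (a : ℕ → ℂ) (n : ℕ) : ‖tw φ a n‖ = ‖a n‖ := by
  rw [tw, norm_mul, Complex.norm_exp_ofReal_mul_I, mul_one]

/-- bilinear form with a cosine weight -/
noncomputable def bil (a b : ℕ → ℂ) (N1 N2 : ℕ) (X φ : ℝ) (x : CH) : ℂ :=
  ∑ m ∈ range N1, ∑ l ∈ range N2,
    a m * b l * x.2 ((m * l : ℕ) : ZMod (x.1 : ℕ)) * (Real.cos (φ * Real.log (m * l / X)) : ℝ)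

lemma norm_bil_le (a b : ℕ → ℂ) (N1 N2 : ℕ) {X : ℝ} (hX : 0 < X) (φ : ℝ)
    (h : ∀ m ∈ range N1, ∀ l ∈ range N2, a m ≠ 0 → b l ≠ 0 → 0 < m ∧ 0 < l) (x : CH) :
    ‖bil a b N1 N2 X φ x‖ ≤
      1 / 2 * (‖∑ m ∈ range N1, tw φ a m * x.2 m‖ * ‖∑ l ∈ range N2, tw φ b l * x.2 l‖) +
      1 / 2 * (‖∑ m ∈ range N1, tw (-φ) a m * x.2 m‖ *
        ‖∑ l ∈ range N2, tw (-φ) b l * x.2 l‖) := by
  have h1 : bil a b N1 N2 X φ x =
      exp ((-(φ * Real.log X) : ℝ) * I) / 2 *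
        ((∑ m ∈ range N1, tw φ a m * x.2 m) * (∑ l ∈ range N2, tw φ b l * x.2 l)) +
      exp ((φ * Real.log X : ℝ) * I) / 2 *
        ((∑ m ∈ range N1, tw (-φ) a m * x.2 m) * (∑ l ∈ range N2, tw (-φ) b l * x.2 l)) := by
    rw [bil, Finset.sum_mul_sum, Finset.sum_mul_sum, Finset.mul_sum, Finset.mul_sum,
      ← Finset.sum_add_distrib]
    refine Finset.sum_congr rfl fun m hm => ?_
    rw [Finset.mul_sum, Finset.mul_sum, ← Finset.sum_add_distrib]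
    refine Finset.sum_congr rfl fun l hl => ?_
    by_cases ha : a m = 0
    · simp [tw, ha]
    by_cases hb : b l = 0
    · simp [tw, hb]
    obtain ⟨hm0, hl0⟩ := h m hm l hl ha hb
    have hm1 : (m : ℝ) ≠ 0 := by positivity
    have hl1 : (l : ℝ) ≠ 0 := by positivity
    have h2 : Real.log (m * l / X) = Real.log m + Real.log l - Real.log X := by
      rw [Real.log_div (by positivity) hX.ne', Real.log_mul hm1 hl1]
    have h3 : ((Real.cos (φ * Real.log (m * l / X)) : ℝ) : ℂ) =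
        (exp ((-(φ * Real.log X) : ℝ) * I) * exp ((φ * Real.log m : ℝ) * I) *
          exp ((φ * Real.log l : ℝ) * I) +
        exp ((φ * Real.log X : ℝ) * I) * exp ((-φ * Real.log m : ℝ) * I) *
          exp ((-φ * Real.log l : ℝ) * I)) / 2 := by
      rw [h2, Complex.ofReal_cos, Complex.cos, ← Complex.exp_add, ← Complex.exp_add,
        ← Complex.exp_add, ← Complex.exp_add]
      congr 3
      · push_cast; ring
      · push_cast; ring
    rw [h3]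
    simp only [tw]
    rw [Nat.cast_mul, map_mul]
    ring
  rw [h1]
  refine (norm_add_le _ _).trans (le_of_eq ?_)
  rw [norm_mul, norm_mul, norm_mul, norm_mul, norm_div, norm_div,
    Complex.norm_exp_ofReal_mul_I, Complex.norm_exp_ofReal_mul_I]
  simp

lemma sum_bil_le (P : Finset Nat.Primes) {K : ℝ} (hK : ∀ q ∈ P, ((q : ℕ) : ℝ) ≤ K)
    (a b : ℕ → ℂ) (N1 N2 : ℕ) {X : ℝ} (hX : 0 < X) (φ : ℝ)
    (h : ∀ m ∈ range N1, ∀ l ∈ range N2, a m ≠ 0 → b l ≠ 0 → 0 < m ∧ 0 < l) :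
    ∑ x ∈ chars P, ‖bil a b N1 N2 X φ x‖ ≤
      √((K ^ 2 + 4 * Real.pi * N1) * ∑ n ∈ range N1, ‖a n‖ ^ 2) *
      √((K ^ 2 + 4 * Real.pi * N2) * ∑ n ∈ range N2, ‖b n‖ ^ 2) := by
  have h1 : ∀ φ' : ℝ, ∑ x ∈ chars P, ‖∑ m ∈ range N1, tw φ' a m * x.2 m‖ *
      ‖∑ l ∈ range N2, tw φ' b l * x.2 l‖ ≤
      √((K ^ 2 + 4 * Real.pi * N1) * ∑ n ∈ range N1, ‖a n‖ ^ 2) *
      √((K ^ 2 + 4 * Real.pi * N2) * ∑ n ∈ range N2, ‖b n‖ ^ 2) := by
    intro φ'
    refine (Real.sum_mul_le_sqrt_mul_sqrt _ _ _).trans ?_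
    have h2 := large_sieve' P hK (tw φ' a) N1
    have h3 := large_sieve' P hK (tw φ' b) N2
    simp only [norm_tw] at h2 h3
    gcongr
  calc _ ≤ ∑ x ∈ chars P, (1 / 2 * (‖∑ m ∈ range N1, tw φ a m * x.2 m‖ *
        ‖∑ l ∈ range N2, tw φ b l * x.2 l‖) +
      1 / 2 * (‖∑ m ∈ range N1, tw (-φ) a m * x.2 m‖ *
        ‖∑ l ∈ range N2, tw (-φ) b l * x.2 l‖)) :=
        Finset.sum_le_sum fun x _ => norm_bil_le a b N1 N2 hX φ h x
    _ = 1 / 2 * (∑ x ∈ chars P, ‖∑ m ∈ range N1, tw φ a m * x.2 m‖ *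
        ‖∑ l ∈ range N2, tw φ b l * x.2 l‖) +
      1 / 2 * (∑ x ∈ chars P, ‖∑ m ∈ range N1, tw (-φ) a m * x.2 m‖ *
        ‖∑ l ∈ range N2, tw (-φ) b l * x.2 l‖) := by
        rw [Finset.sum_add_distrib, Finset.mul_sum, Finset.mul_sum]
    _ ≤ _ := by
        have := h1 φ
        have := h1 (-φ)
        linarith

/-- Type II estimate with the hat weight. -/
theorem type_two (P : Finset Nat.Primes) {K : ℝ} (hK : ∀ q ∈ P, ((q : ℕ) : ℝ) ≤ K)
    (a b : ℕ → ℂ) (N1 N2 : ℕ) {X : ℝ} (hX : 0 < X)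
    (h : ∀ m ∈ range N1, ∀ l ∈ range N2, a m ≠ 0 → b l ≠ 0 →
      0 < m ∧ 0 < l ∧ |Real.log (m * l / X)| ≤ 5) :
    ∑ x ∈ chars P, ‖∑ m ∈ range N1, ∑ l ∈ range N2,
      a m * b l * x.2 ((m * l : ℕ) : ZMod (x.1 : ℕ)) * (hat (Real.log (m * l / X)) : ℝ)‖ ≤
      √((K ^ 2 + 4 * Real.pi * N1) * ∑ n ∈ range N1, ‖a n‖ ^ 2) *
      √((K ^ 2 + 4 * Real.pi * N2) * ∑ n ∈ range N2, ‖b n‖ ^ 2) := by
  set D := √((K ^ 2 + 4 * Real.pi * N1) * ∑ n ∈ range N1, ‖a n‖ ^ 2) *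
      √((K ^ 2 + 4 * Real.pi * N2) * ∑ n ∈ range N2, ‖b n‖ ^ 2) with hD
  have h0 : ∀ m ∈ range N1, ∀ l ∈ range N2, a m ≠ 0 → b l ≠ 0 → 0 < m ∧ 0 < l :=
    fun m hm l hl ha hb => ⟨(h m hm l hl ha hb).1, (h m hm l hl ha hb).2.1⟩
  set t : ℕ → CH → ℂ := fun k x => bil a b N1 N2 X (k * (Real.pi / 3)) x with ht
  have h1 : ∀ x : CH, HasSum (fun k : ℕ => (cf k : ℂ) * t k x)
      (∑ m ∈ range N1, ∑ l ∈ range N2,
      a m * b l * x.2 ((m * l : ℕ) : ZMod (x.1 : ℕ)) * (hat (Real.log (m * l / X)) : ℝ)) := by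
    intro x
    have h2 : (fun k : ℕ => (cf k : ℂ) * t k x) = fun k : ℕ => ∑ m ∈ range N1, ∑ l ∈ range N2,
        (cf k : ℂ) * (a m * b l * x.2 ((m * l : ℕ) : ZMod (x.1 : ℕ)) *
          (Real.cos (k * (Real.pi / 3) * Real.log (m * l / X)) : ℝ)) := by
      funext k
      simp only [ht, bil, Finset.mul_sum]
    rw [h2]
    refine hasSum_sum fun m hm => hasSum_sum fun l hl => ?_
    by_cases ha : a m = 0
    · simp [ha]
    by_cases hb : b l = 0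
    · simp [hb]
    obtain ⟨_, _, h5⟩ := h m hm l hl ha hb
    have h3 := (Complex.hasSum_ofReal (f := fun k : ℕ =>
      cf k * Real.cos (k * (Real.pi / 3 * Real.log (m * l / X))))).2 (hat_hasSum h5)
    have h4 := h3.mul_left (a m * b l * x.2 ((m * l : ℕ) : ZMod (x.1 : ℕ)))
    have h5 : (fun k : ℕ => (cf k : ℂ) * (a m * b l * x.2 ((m * l : ℕ) : ZMod (x.1 : ℕ)) *
        (Real.cos (k * (Real.pi / 3) * Real.log (m * l / X)) : ℝ))) =
        fun k : ℕ => a m * b l * x.2 ((m * l : ℕ) : ZMod (x.1 : ℕ)) *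
          ((cf k * Real.cos (k * (Real.pi / 3 * Real.log (m * l / X))) : ℝ) : ℂ) := by
      funext k
      rw [mul_assoc (k : ℝ), Complex.ofReal_mul (cf k)]
      ring
    rw [h5]
    exact h4
  set B : CH → ℝ := fun x => ∑ m ∈ range N1, ∑ l ∈ range N2,
    ‖a m * b l * x.2 ((m * l : ℕ) : ZMod (x.1 : ℕ))‖ with hB
  have h6 : ∀ x k, ‖t k x‖ ≤ B x := by
    intro x k
    simp only [ht, bil, hB]
    refine (norm_sum_le _ _).trans (Finset.sum_le_sum fun m _ => ?_)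
    refine (norm_sum_le _ _).trans (Finset.sum_le_sum fun l _ => ?_)
    rw [norm_mul]
    refine mul_le_of_le_one_right (norm_nonneg _) ?_
    rw [Complex.norm_real]
    exact Real.abs_cos_le_one _
  have h7 : ∀ x, Summable fun k => cf k * ‖t k x‖ := by
    intro x
    refine Summable.of_nonneg_of_le (fun k => mul_nonneg (cf_nonneg k) (norm_nonneg _))
      (fun k => mul_le_mul_of_nonneg_left (h6 x k) (cf_nonneg k)) (cf_hasSum.summable.mul_right _)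
  have h8 : ∀ x, ‖∑ m ∈ range N1, ∑ l ∈ range N2,
      a m * b l * x.2 ((m * l : ℕ) : ZMod (x.1 : ℕ)) * (hat (Real.log (m * l / X)) : ℝ)‖ ≤
      ∑' k, cf k * ‖t k x‖ := by
    intro x
    rw [← (h1 x).tsum_eq]
    have h9 : ∀ k, ‖(cf k : ℂ) * t k x‖ = cf k * ‖t k x‖ := by
      intro k
      rw [norm_mul, Complex.norm_real, Real.norm_of_nonneg (cf_nonneg k)]
    refine (norm_tsum_le_tsum_norm ?_).trans (le_of_eq ?_)
    · simpa only [h9] using h7 x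
    · exact tsum_congr h9
  calc _ ≤ ∑ x ∈ chars P, ∑' k, cf k * ‖t k x‖ := Finset.sum_le_sum fun x _ => h8 x
    _ = ∑' k, ∑ x ∈ chars P, cf k * ‖t k x‖ := (Summable.tsum_finsetSum fun x _ => h7 x).symm
    _ ≤ ∑' k, cf k * D := by
        refine Summable.tsum_le_tsum (fun k => ?_) ?_ (cf_hasSum.summable.mul_right _)
        · rw [← Finset.mul_sum]
          exact mul_le_mul_of_nonneg_left (sum_bil_le P hK a b N1 N2 hX _ h0) (cf_nonneg k)
        · exact summable_sum fun x _ => h7 x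
    _ = D := by rw [tsum_mul_right, cf_hasSum.tsum_eq, one_mul]

end Pool.Agent.H27.LS
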