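import Pool.Agent.H83.LS.Targets3

/-!
Module WRED of the local smoothing proof (helper83): weighted reduction.
-/

set_option autoImplicit false

namespace Pool.Agent.H83.LS.H27

open MeasureTheory Set
open scoped ENNReal NNReal

lemma lintegral_scale (a : ℝ) (ha : 0 < a) (f : ℝ → ℝ≥0∞) :
    ∫⁻ r, f (a * r) = ENNReal.ofReal (a⁻¹) * ∫⁻ r, f r := by
  have he : MeasurableEmbedding (fun r : ℝ => a * r) :=
    (Homeomorph.mulLeft₀ a ha.ne').measurableEmbedding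
  have h := Real.map_volume_mul_left (a := a) ha.ne'
  rw [← he.lintegral_map (μ := volume) f, h, lintegral_smul_measure,
    abs_of_pos (inv_pos.mpr ha), smul_eq_mul]

/-- Hölder in the form of Jensen's inequality -/
lemma jensen {α : Type*} [MeasurableSpace α] (μ : Measure α) (p : ℝ) (hp : 1 ≤ p)
    (k V : α → ℝ≥0∞) (hk : Measurable k) (hV : Measurable V) :
    (∫⁻ x, k x * V x ∂μ) ^ p ≤ (∫⁻ x, k x ∂μ) ^ (p - 1) * ∫⁻ x, k x * V x ^ p ∂μ := by
  rcases eq_or_lt_of_le hp with h1 | h1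
  · rw [← h1]; simp
  · have hpq : p.HolderConjugate (Real.conjExponent p) := Real.HolderConjugate.conjExponent h1
    have hp0 : 0 < p := by linarith
    have hq0 : 0 < Real.conjExponent p := hpq.symm.pos
    have h2 := ENNReal.lintegral_mul_le_Lp_mul_Lq μ hpq.symm
      (f := fun x => k x ^ (1 / Real.conjExponent p)) (g := fun x => k x ^ (1 / p) * V x)
      (hk.pow_const _).aemeasurable ((hk.pow_const _).mul hV).aemeasurable
    have h3 : ∀ x, ((fun x => k x ^ (1 / Real.conjExponent p)) * (fun x => k x ^ (1 / p) * V x)) x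
        = k x * V x := by
      intro x
      simp only [Pi.mul_apply]
      rw [← mul_assoc, ← ENNReal.rpow_add_of_nonneg _ _ (by positivity) (by positivity)]
      have : 1 / Real.conjExponent p + 1 / p = 1 := by
        have := hpq.symm.inv_add_inv_eq_one
        simpa [one_div] using this
      rw [this, ENNReal.rpow_one]
    have h4 : ∀ x, (k x ^ (1 / Real.conjExponent p)) ^ (Real.conjExponent p) = k x := by
      intro x
      rw [← ENNReal.rpow_mul, one_div, inv_mul_cancel₀ hq0.ne', ENNReal.rpow_one]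
    have h5 : ∀ x, (k x ^ (1 / p) * V x) ^ p = k x * V x ^ p := by
      intro x
      rw [ENNReal.mul_rpow_of_nonneg _ _ hp0.le, ← ENNReal.rpow_mul, one_div,
        inv_mul_cancel₀ hp0.ne', ENNReal.rpow_one]
    simp_rw [h3, h4, h5] at h2
    calc (∫⁻ x, k x * V x ∂μ) ^ p
        ≤ ((∫⁻ x, k x ∂μ) ^ (1 / Real.conjExponent p) *
          (∫⁻ x, k x * V x ^ p ∂μ) ^ (1 / p)) ^ p := ENNReal.rpow_le_rpow h2 hp0.le
      _ = _ := by
        rw [ENNReal.mul_rpow_of_nonneg _ _ hp0.le, ← ENNReal.rpow_mul, ← ENNReal.rpow_mul]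
        congr 2
        · have := hpq.symm.inv_add_inv_eq_one
          have h6 : (Real.conjExponent p)⁻¹ = 1 - p⁻¹ := by linarith
          rw [one_div, h6, sub_mul, inv_mul_cancel₀ hp0.ne', one_mul]
        · rw [one_div, inv_mul_cancel₀ hp0.ne', ENNReal.rpow_one]

lemma J_finite : ∫⁻ v : ℝ, ENNReal.ofReal (((1 + |v|) ^ 3)⁻¹) < ∞ := by
  have h := integrable_one_add_norm (E := ℝ) (μ := volume) (r := 3) (by simp)
  have h2 := h.lintegral_lt_top
  refine lt_of_le_of_lt (lintegral_mono (fun v => ?_)) h2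
  apply ENNReal.ofReal_le_ofReal
  rw [Real.norm_eq_abs, Real.rpow_neg (by positivity)]
  apply le_of_eq
  congr 1
  norm_cast

lemma B_finite (β : ℝ) (hβ : β < 1) :
    ∫⁻ s in Ioc (0 : ℝ) 1, ENNReal.ofReal (s ^ (-β)) < ∞ := by
  have h := intervalIntegral.intervalIntegrable_rpow' (a := 0) (b := 1) (r := -β) (by linarith)
  rw [intervalIntegrable_iff_integrableOn_Ioc_of_le zero_le_one] at h
  exact h.lintegral_lt_top

/-- the scaled weight integral -/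
lemma key (β : ℝ) (hβ0 : 0 ≤ β) (hβ : β < 1) (u s : ℝ) (hs : 0 < s) :
    (1 + |u|) ^ β * (s ^ (-β) * ((1 + |u - s|) ^ 4)⁻¹) ≤
      2 * ((1 + |u - s|) ^ 3)⁻¹ + (Ioc (0 : ℝ) 1).indicator (fun s => s ^ (-β)) s := by
  obtain ⟨D, hD⟩ : ∃ D, D = 1 + |u - s| := ⟨_, rfl⟩
  have hD1 : 1 ≤ D := by rw [hD]; have := abs_nonneg (u - s); linarith
  have h1 : 1 + |u| ≤ D * (1 + s) := by
    have h2 : |u| ≤ |u - s| + |s| := by
      have := abs_add_le (u - s) s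
      simpa using this
    rw [abs_of_pos hs] at h2
    rw [hD]
    have := mul_nonneg (abs_nonneg (u - s)) hs.le
    nlinarith
  have h2 : (1 + |u|) ^ β ≤ D ^ β * (1 + s) ^ β := by
    rw [← Real.mul_rpow (by linarith) (by linarith)]
    exact Real.rpow_le_rpow (by positivity) h1 hβ0
  have h3 : D ^ β ≤ D := by
    calc D ^ β ≤ D ^ (1 : ℝ) := Real.rpow_le_rpow_of_exponent_le hD1 hβ.le
      _ = D := Real.rpow_one D
  have h4 : (1 + s) ^ β * s ^ (-β) ≤ 1 + s ^ (-β) := by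
    have h5 : (1 + s) ^ β ≤ 1 ^ β + s ^ β :=
      Real.rpow_add_le_add_rpow zero_le_one hs.le hβ0 hβ.le
    rw [Real.one_rpow] at h5
    have h6 : s ^ β * s ^ (-β) = 1 := by
      rw [← Real.rpow_add hs]; simp
    have h7 : 0 ≤ s ^ (-β) := Real.rpow_nonneg hs.le _
    nlinarith
  have h8 : (1 + |u|) ^ β * (s ^ (-β) * (D ^ 4)⁻¹) ≤ (1 + s ^ (-β)) * (D ^ 3)⁻¹ := by
    have hDp : 0 < D := by linarith
    calc (1 + |u|) ^ β * (s ^ (-β) * (D ^ 4)⁻¹)
        ≤ (D ^ β * (1 + s) ^ β) * (s ^ (-β) * (D ^ 4)⁻¹) :=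
          mul_le_mul_of_nonneg_right h2 (by positivity)
      _ = D ^ β * ((1 + s) ^ β * s ^ (-β)) * (D ^ 4)⁻¹ := by ring
      _ ≤ D * (1 + s ^ (-β)) * (D ^ 4)⁻¹ := by gcongr
      _ = (1 + s ^ (-β)) * (D ^ 3)⁻¹ := by field_simp
  rw [← hD]
  refine h8.trans ?_
  have hD3 : 0 < (D ^ 3)⁻¹ := by positivity
  have hD3' : (D ^ 3)⁻¹ ≤ 1 := inv_le_one_of_one_le₀ (one_le_pow₀ hD1)
  have h7 : 0 ≤ s ^ (-β) := Real.rpow_nonneg hs.le _
  by_cases h9 : s ≤ 1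
  · rw [indicator_of_mem (show s ∈ Ioc (0 : ℝ) 1 from ⟨hs, h9⟩)]
    nlinarith
  · rw [indicator_of_notMem (fun h => h9 h.2)]
    have : s ^ (-β) ≤ 1 := Real.rpow_le_one_of_one_le_of_nonpos (by linarith) (by linarith)
    nlinarith

lemma key2 (β : ℝ) (hβ0 : 0 ≤ β) (hβ : β < 1) : ∃ C : ℝ≥0, ∀ u : ℝ,
    ∫⁻ s in Ioi (0 : ℝ), ENNReal.ofReal (s ^ (-β) * ((1 + |u - s|) ^ 4)⁻¹) ≤
      C * ENNReal.ofReal ((1 + |u|) ^ (-β)) := by
  refine ⟨(2 * (∫⁻ v : ℝ, ENNReal.ofReal (((1 + |v|) ^ 3)⁻¹)) +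
    ∫⁻ s in Ioc (0 : ℝ) 1, ENNReal.ofReal (s ^ (-β))).toNNReal, fun u => ?_⟩
  rw [ENNReal.coe_toNNReal (by
    have h1 := J_finite
    have h2 := B_finite β hβ
    exact ENNReal.add_ne_top.mpr ⟨ENNReal.mul_ne_top (by simp) h1.ne, h2.ne⟩)]
  have hu : 0 < (1 + |u|) ^ β := by positivity
  have h1 : ∀ s ∈ Ioi (0 : ℝ), ENNReal.ofReal (s ^ (-β) * ((1 + |u - s|) ^ 4)⁻¹) ≤
      (2 * ENNReal.ofReal (((1 + |u - s|) ^ 3)⁻¹) +
        (Ioc (0 : ℝ) 1).indicator (fun s => ENNReal.ofReal (s ^ (-β))) s) *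
        ENNReal.ofReal ((1 + |u|) ^ (-β)) := by
    intro s hs
    have h2 := key β hβ0 hβ u s hs
    have h3 : s ^ (-β) * ((1 + |u - s|) ^ 4)⁻¹ ≤
        (2 * ((1 + |u - s|) ^ 3)⁻¹ + (Ioc (0 : ℝ) 1).indicator (fun s => s ^ (-β)) s) *
          (1 + |u|) ^ (-β) := by
      have h5 : (1 + |u|) ^ (-β) = ((1 + |u|) ^ β)⁻¹ := Real.rpow_neg (by positivity) β
      rw [h5, le_mul_inv_iff₀ hu]
      linarith [mul_comm ((1 + |u|) ^ β) (s ^ (-β) * ((1 + |u - s|) ^ 4)⁻¹)]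
    refine (ENNReal.ofReal_le_ofReal h3).trans (le_of_eq ?_)
    have h4 : 0 ≤ (Ioc (0 : ℝ) 1).indicator (fun s => s ^ (-β)) s :=
      indicator_nonneg (fun x hx => Real.rpow_nonneg hx.1.le _) s
    rw [ENNReal.ofReal_mul (by positivity), ENNReal.ofReal_add (by positivity) h4,
      ENNReal.ofReal_mul (by norm_num)]
    congr 2
    · congr 1; simp
    · by_cases h9 : s ∈ Ioc (0 : ℝ) 1
      · rw [indicator_of_mem h9, indicator_of_mem h9]
      · rw [indicator_of_notMem h9, indicator_of_notMem h9, ENNReal.ofReal_zero]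
  calc ∫⁻ s in Ioi (0 : ℝ), ENNReal.ofReal (s ^ (-β) * ((1 + |u - s|) ^ 4)⁻¹)
      ≤ ∫⁻ s in Ioi (0 : ℝ), (2 * ENNReal.ofReal (((1 + |u - s|) ^ 3)⁻¹) +
        (Ioc (0 : ℝ) 1).indicator (fun s => ENNReal.ofReal (s ^ (-β))) s) *
        ENNReal.ofReal ((1 + |u|) ^ (-β)) := setLIntegral_mono' measurableSet_Ioi h1
    _ = (∫⁻ s in Ioi (0 : ℝ), (2 * ENNReal.ofReal (((1 + |u - s|) ^ 3)⁻¹) +
        (Ioc (0 : ℝ) 1).indicator (fun s => ENNReal.ofReal (s ^ (-β))) s)) *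
        ENNReal.ofReal ((1 + |u|) ^ (-β)) := lintegral_mul_const' _ _ ENNReal.ofReal_ne_top
    _ ≤ (∫⁻ s, (2 * ENNReal.ofReal (((1 + |u - s|) ^ 3)⁻¹) +
        (Ioc (0 : ℝ) 1).indicator (fun s => ENNReal.ofReal (s ^ (-β))) s)) *
        ENNReal.ofReal ((1 + |u|) ^ (-β)) := by
          gcongr
          exact Measure.restrict_le_self
    _ = _ := by
      congr 1
      rw [lintegral_add_left (by fun_prop), lintegral_indicator measurableSet_Ioc,
        lintegral_const_mul _ (by fun_prop)]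
      congr 2
      exact lintegral_sub_left_eq_self (fun v : ℝ => ENNReal.ofReal (((1 + |v|) ^ 3)⁻¹)) u

lemma kint (Lam : ℝ) (hL : 0 < Lam) (r : ℝ) : ∫⁻ x₁ : ℝ, ENNReal.ofReal
      (Lam * (((1 + |Lam * x₁ - Lam * r|) ^ 4)⁻¹ + ((1 + |Lam * x₁ + Lam * r|) ^ 4)⁻¹)) ≤
    2 * ∫⁻ v : ℝ, ENNReal.ofReal (((1 + |v|) ^ 3)⁻¹) := by
  have h := lintegral_scale Lam hL (fun x => ENNReal.ofReal
      (Lam * (((1 + |x - Lam * r|) ^ 4)⁻¹ + ((1 + |x + Lam * r|) ^ 4)⁻¹)))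
  rw [h]
  have h34 : ∀ y : ℝ, ((1 + |y|) ^ 4)⁻¹ ≤ ((1 + |y|) ^ 3)⁻¹ := by
    intro y
    apply inv_anti₀ (by positivity)
    exact pow_le_pow_right₀ (by linarith [abs_nonneg y]) (by norm_num)
  calc
    _ = ∫⁻ x : ℝ, ENNReal.ofReal Lam⁻¹ * ENNReal.ofReal
          (Lam * (((1 + |x - Lam * r|) ^ 4)⁻¹ + ((1 + |x + Lam * r|) ^ 4)⁻¹)) :=
        (lintegral_const_mul' _ _ ENNReal.ofReal_ne_top).symm
    _ ≤ ∫⁻ x, (ENNReal.ofReal (((1 + |x - Lam * r|) ^ 3)⁻¹) +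
        ENNReal.ofReal (((1 + |x + Lam * r|) ^ 3)⁻¹)) := by
      apply lintegral_mono
      intro x
      simp only
      rw [← ENNReal.ofReal_mul (by positivity), ← ENNReal.ofReal_add (by positivity) (by positivity),
        ← mul_assoc, inv_mul_cancel₀ hL.ne', one_mul]
      exact ENNReal.ofReal_le_ofReal (add_le_add (h34 _) (h34 _))
    _ = _ := by
      rw [lintegral_add_left (by fun_prop), two_mul]
      congr 1
      · exact lintegral_sub_right_eq_self (fun v : ℝ => ENNReal.ofReal (((1 + |v|) ^ 3)⁻¹)) (Lam * r)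
      · exact lintegral_add_right_eq_self (fun v : ℝ => ENNReal.ofReal (((1 + |v|) ^ 3)⁻¹)) (Lam * r)

lemma rint (β : ℝ) (hβ0 : 0 ≤ β) (hβ : β < 1) : ∃ C : ℝ≥0, ∀ (Lam x₁ : ℝ), 0 < Lam →
    ∫⁻ r in Ioi (0 : ℝ), ENNReal.ofReal
      (Lam * (((1 + |Lam * x₁ - Lam * r|) ^ 4)⁻¹ + ((1 + |Lam * x₁ + Lam * r|) ^ 4)⁻¹)) *
      ENNReal.ofReal (r ^ (-β)) ≤ C * ENNReal.ofReal ((|x₁| + 1 / Lam) ^ (-β)) := by
  obtain ⟨C, hC⟩ := key2 β hβ0 hβ
  refine ⟨2 * C, fun Lam x₁ hL => ?_⟩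
  obtain ⟨f, hf⟩ : ∃ f : ℝ → ℝ≥0∞, f = fun s => (Ioi (0 : ℝ)).indicator (fun s => ENNReal.ofReal
    (Lam ^ (1 + β) * ((s ^ (-β) * ((1 + |Lam * x₁ - s|) ^ 4)⁻¹) +
      (s ^ (-β) * ((1 + |-(Lam * x₁) - s|) ^ 4)⁻¹)))) s := ⟨_, rfl⟩
  have h1 : ∫⁻ r in Ioi (0 : ℝ), ENNReal.ofReal
      (Lam * (((1 + |Lam * x₁ - Lam * r|) ^ 4)⁻¹ + ((1 + |Lam * x₁ + Lam * r|) ^ 4)⁻¹)) *
      ENNReal.ofReal (r ^ (-β)) = ∫⁻ r, f (Lam * r) := by
    rw [← lintegral_indicator measurableSet_Ioi]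
    congr 1
    ext r
    rw [hf]
    by_cases hr : r ∈ Ioi (0 : ℝ)
    · have hr' : 0 < r := hr
      have hLr : Lam * r ∈ Ioi (0 : ℝ) := mul_pos hL hr'
      rw [indicator_of_mem hr]
      simp only
      rw [indicator_of_mem hLr, ← ENNReal.ofReal_mul (by positivity)]
      congr 1
      rw [Real.mul_rpow hL.le hr'.le, Real.rpow_add hL, Real.rpow_one]
      have h2 : Lam ^ β * Lam ^ (-β) = 1 := by
        rw [← Real.rpow_add hL]; simp
      have h3 : |-(Lam * x₁) - Lam * r| = |Lam * x₁ + Lam * r| := by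
        rw [← abs_neg]; congr 1; ring
      rw [h3]
      linear_combination (-(Lam * (((1 + |Lam * x₁ - Lam * r|) ^ 4)⁻¹ + ((1 + |Lam * x₁ + Lam * r|) ^ 4)⁻¹) * r ^ (-β))) * h2
    · have hLr : Lam * r ∉ Ioi (0 : ℝ) := by
        simp only [mem_Ioi, not_lt] at hr ⊢
        exact mul_nonpos_of_nonneg_of_nonpos hL.le hr
      rw [indicator_of_notMem hr]
      simp only
      rw [indicator_of_notMem hLr]
  rw [h1, lintegral_scale Lam hL f, hf]
  simp only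
  rw [lintegral_indicator measurableSet_Ioi]
  have h5 : ∫⁻ s in Ioi (0 : ℝ), ENNReal.ofReal
    (Lam ^ (1 + β) * ((s ^ (-β) * ((1 + |Lam * x₁ - s|) ^ 4)⁻¹) +
      (s ^ (-β) * ((1 + |-(Lam * x₁) - s|) ^ 4)⁻¹))) ≤
      ENNReal.ofReal (Lam ^ (1 + β)) * (2 * C * ENNReal.ofReal ((1 + |Lam * x₁|) ^ (-β))) := by
    calc
      _ = ∫⁻ s in Ioi (0 : ℝ), ENNReal.ofReal (Lam ^ (1 + β)) *
          (ENNReal.ofReal (s ^ (-β) * ((1 + |Lam * x₁ - s|) ^ 4)⁻¹) +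
          ENNReal.ofReal (s ^ (-β) * ((1 + |-(Lam * x₁) - s|) ^ 4)⁻¹)) := by
            apply setLIntegral_congr_fun measurableSet_Ioi
            intro s hs
            have hs' : 0 < s := hs
            simp only
            rw [← ENNReal.ofReal_add (by positivity) (by positivity),
              ← ENNReal.ofReal_mul (by positivity)]
      _ = ENNReal.ofReal (Lam ^ (1 + β)) * ((∫⁻ s in Ioi (0 : ℝ),
          ENNReal.ofReal (s ^ (-β) * ((1 + |Lam * x₁ - s|) ^ 4)⁻¹)) +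
          ∫⁻ s in Ioi (0 : ℝ),
          ENNReal.ofReal (s ^ (-β) * ((1 + |-(Lam * x₁) - s|) ^ 4)⁻¹)) := by
            rw [lintegral_const_mul' _ _ ENNReal.ofReal_ne_top, lintegral_add_left (by fun_prop)]
      _ ≤ _ := by
        gcongr
        have h6 := hC (Lam * x₁)
        have h7 := hC (-(Lam * x₁))
        rw [abs_neg] at h7
        calc _ ≤ _ := add_le_add h6 h7
          _ = _ := by ring
  refine (mul_le_mul_right h5 _).trans (le_of_eq ?_)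
  have h8 : (|x₁| + 1 / Lam) = Lam⁻¹ * (1 + |Lam * x₁|) := by
    rw [abs_mul, abs_of_pos hL]; field_simp; ring
  have h9 : ENNReal.ofReal Lam⁻¹ * ENNReal.ofReal (Lam ^ (1 + β)) * ENNReal.ofReal ((1 + |Lam * x₁|) ^ (-β)) =
      ENNReal.ofReal ((|x₁| + 1 / Lam) ^ (-β)) := by
    rw [← ENNReal.ofReal_mul (by positivity), ← ENNReal.ofReal_mul (by positivity), h8,
      Real.mul_rpow (by positivity) (by positivity)]
    congr 2
    rw [Real.inv_rpow hL.le, Real.rpow_neg hL.le, inv_inv, Real.rpow_add hL, Real.rpow_one,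
      ← mul_assoc, inv_mul_cancel₀ hL.ne', one_mul]
  rw [← h9]
  push_cast
  ring

/-- WRED -/
theorem wred : T_WRED := by
  intro p β hp hβ0 hβ
  obtain ⟨C1, hC1⟩ := rint β hβ0 hβ
  obtain ⟨J, hJ⟩ : ∃ J : ℝ≥0∞, J = 2 * ∫⁻ v : ℝ, ENNReal.ofReal (((1 + |v|) ^ 3)⁻¹) := ⟨_, rfl⟩
  have hJt : J ≠ ∞ := by rw [hJ]; exact ENNReal.mul_ne_top (by simp) J_finite.ne
  have hJp : J ^ (p - 1) ≠ ∞ := ENNReal.rpow_ne_top_of_nonneg (by linarith) hJt
  refine ⟨(J ^ (p - 1)).toNNReal * C1, fun Lam V hL hV => ?_⟩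
  obtain ⟨k, hk⟩ : ∃ k : ℝ → ℝ → ℝ≥0∞, k = fun r x₁ => ENNReal.ofReal
      (Lam * (((1 + |Lam * x₁ - Lam * r|) ^ 4)⁻¹ + ((1 + |Lam * x₁ + Lam * r|) ^ 4)⁻¹)) := ⟨_, rfl⟩
  have hkm : Measurable (fun q : ℝ × ℝ => k q.1 q.2) := by
    rw [hk]; fun_prop
  have h1 : ∀ z r, (∫⁻ x₁ : ℝ, k r x₁ * V (x₁, z)) ^ p ≤
      J ^ (p - 1) * ∫⁻ x₁ : ℝ, k r x₁ * V (x₁, z) ^ p := by
    intro z r
    refine (jensen volume p hp (k r) (fun x₁ => V (x₁, z)) ?_ ?_).trans ?_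
    · exact hkm.comp (measurable_const.prodMk measurable_id)
    · exact hV.comp (measurable_id.prodMk measurable_const)
    · gcongr
      rw [hk, hJ]
      exact kint Lam hL r
  have h2 : ∀ z, ∫⁻ r in Ioi (0 : ℝ), (∫⁻ x₁ : ℝ, k r x₁ * V (x₁, z)) ^ p * ENNReal.ofReal (r ^ (-β))
      ≤ J ^ (p - 1) * (C1 * ∫⁻ x₁ : ℝ, V (x₁, z) ^ p * ENNReal.ofReal ((|x₁| + 1 / Lam) ^ (-β))) := by
    intro z
    have hVz : Measurable (fun x₁ => V (x₁, z)) := hV.comp (measurable_id.prodMk measurable_const)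
    calc ∫⁻ r in Ioi (0 : ℝ), (∫⁻ x₁ : ℝ, k r x₁ * V (x₁, z)) ^ p * ENNReal.ofReal (r ^ (-β))
        ≤ ∫⁻ r in Ioi (0 : ℝ), J ^ (p - 1) * ((∫⁻ x₁ : ℝ, k r x₁ * V (x₁, z) ^ p) *
          ENNReal.ofReal (r ^ (-β))) := by
          apply lintegral_mono
          intro r
          simp only
          rw [← mul_assoc]
          gcongr
          exact h1 z r
      _ = J ^ (p - 1) * ∫⁻ r in Ioi (0 : ℝ), ∫⁻ x₁ : ℝ, k r x₁ * V (x₁, z) ^ p *
          ENNReal.ofReal (r ^ (-β)) := by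
          rw [lintegral_const_mul' _ _ hJp]
          congr 1
          apply lintegral_congr
          intro r
          rw [lintegral_mul_const' _ _ ENNReal.ofReal_ne_top]
      _ = J ^ (p - 1) * ∫⁻ x₁ : ℝ, ∫⁻ r in Ioi (0 : ℝ), k r x₁ * V (x₁, z) ^ p *
          ENNReal.ofReal (r ^ (-β)) := by
          congr 1
          apply lintegral_lintegral_swap
          apply Measurable.aemeasurable
          apply Measurable.mul
          · exact hkm.mul ((hVz.comp measurable_snd).pow_const p)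
          · exact ((measurable_fst).pow_const (-β)).ennreal_ofReal
      _ ≤ J ^ (p - 1) * ∫⁻ x₁ : ℝ, (V (x₁, z) ^ p * (C1 * ENNReal.ofReal ((|x₁| + 1 / Lam) ^ (-β)))) := by
          gcongr with x₁
          have h3 : ∫⁻ r in Ioi (0 : ℝ), k r x₁ * V (x₁, z) ^ p * ENNReal.ofReal (r ^ (-β)) =
              V (x₁, z) ^ p * ∫⁻ r in Ioi (0 : ℝ), k r x₁ * ENNReal.ofReal (r ^ (-β)) := by
            rw [← lintegral_const_mul _ (by
              apply Measurable.mul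
              · exact hkm.comp (measurable_id.prodMk measurable_const)
              · fun_prop)]
            apply lintegral_congr
            intro r
            ring
          rw [h3]
          gcongr
          rw [hk]
          exact hC1 Lam x₁ hL
      _ = _ := by
          congr 1
          rw [← lintegral_const_mul' _ _ ENNReal.coe_ne_top]
          apply lintegral_congr
          intro x₁
          ring
  have h4 : ∫⁻ z : ℝ, ∫⁻ r in Ioi (0 : ℝ), (∫⁻ x₁ : ℝ, k r x₁ * V (x₁, z)) ^ p *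
      ENNReal.ofReal (r ^ (-β)) ≤ J ^ (p - 1) * (C1 * ∫⁻ x : ℝ × ℝ, V x ^ p *
        ENNReal.ofReal ((|x.1| + 1 / Lam) ^ (-β))) := by
    refine (lintegral_mono h2).trans (le_of_eq ?_)
    rw [lintegral_const_mul' _ _ hJp, lintegral_const_mul' _ _ ENNReal.coe_ne_top]
    congr 2
    rw [Measure.volume_eq_prod, lintegral_prod_symm]
    apply Measurable.aemeasurable
    apply Measurable.mul (hV.pow_const p)
    fun_prop
  rw [hk] at h4
  refine h4.trans (le_of_eq ?_)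
  rw [ENNReal.coe_mul, ENNReal.coe_toNNReal hJp, mul_assoc]

end Pool.Agent.H83.LS.H27
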